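import Pool.Agent.FCP.Yf

/-!
# Star check with flows on kites: the star inequality
-/

namespace Pool.FCP

open Pool.FCS

open Finset

noncomputable section

section sound

variable {D : Type*} {cmp cmp' cmpS : Nat → Nat → Bool} {sol sol' lng : Nat → Bool}
  {S Y : Sys D} {cc f : Nat → Nat} {K : Kx} {WL : BT (List Nat)} {le : Nat → Nat → Bool}
  {ml : Nat → Nat} {e : D}

theorem Kx.az_one (a : Nat) : K.az a 1 = 0 := by
  have e : K.az a 1 = K.X.ae a 1 + K.ay a 1 := rfl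
  have e1 : K.X.ae a 1 = 0 := rfl
  rw [e, e1, K.ay_eq, K.lc_eq, if_pos (le_refl 1), if_pos rfl]

theorem Kx.ay_y0 {a u : Nat} (h : K.Y (K.aq a) = 0) : K.ay a u = 0 := by
  rw [K.ay_eq, if_pos]
  rw [K.lc_eq]
  by_cases h1 : u ≤ 1
  · rw [if_pos h1]
  · rw [if_neg h1, Kx.loc_y0 h]

theorem Kz.az0 (hx : Kz K WL) {k a u : Nat} (ha : a ∈ WL.get k) (hr : rrc (lo a) < 1073741824)
    (h0 : K.X.W.P.Q.SG.get a = []) : K.az a u = 0 := by
  have e : K.az a u = K.X.ae a u + K.ay a u := rfl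
  rw [e, hx.kt.ae0 ha hr h0, Kx.ay_y0 (hx.k0 ha h0)]

theorem posk_null {a : Nat}
    (hs : K.soc WL (K.X.W.P.Q.ky a) (K.X.W.P.Q.SG.get (K.X.W.P.Q.ky a)) = true) : K.PosOk4 a 0 := by
  have e0 : K.az (K.X.W.P.Q.ky a) (K.X.W.P.Q.nz 0) = 0 := Kx.az_one _
  unfold Kx.PosOk4
  rw [e0]
  show K.X.W.P.Q.sh - K.X.W.P.nk (K.X.W.P.Q.ky a) + 0 ≤ _ ∨
    ∃ g, (g, 1) ∈ _ ∧ K.X.W.P.Q.sh - K.X.W.P.nk (K.X.W.P.Q.ky a) + 0 ≤ g
  unfold Pm.pos
  revert hs
  cases hSG : K.X.W.P.Q.SG.get (K.X.W.P.Q.ky a) with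
  | nil =>
    intro _
    left
    show K.X.W.P.Q.sh - K.X.W.P.nk (K.X.W.P.Q.ky a) + 0 ≤ K.X.W.P.Q.sh
    omega
  | cons q cl =>
    intro hs
    have e : K.soc WL (K.X.W.P.Q.ky a) (q :: cl) =
      (bif (bif Nat.ble (Nat.sub K.X.W.P.Q.sh (K.X.W.P.nk (K.X.W.P.Q.ky a))) q.1 then true else
        lst (Nat.sub K.X.W.P.Q.sh (K.X.W.P.nk (K.X.W.P.Q.ky a))) 1 cl) then
        (alln 32 fun f => bif K.X.W.P.Q.cme f (Nat.div (hi (K.X.W.P.Q.ky a)) 32) then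
            alln 32 fun l => bif K.X.W.P.Q.cme (Nat.mod (hi (K.X.W.P.Q.ky a)) 32) l then
              allb (K.okx (K.X.W.P.Q.ky a) q.1 cl) (WL.get (Nat.add f (Nat.mul 32 l))) else true
          else true)
      else false) := rfl
    rw [e, cond_true_iff] at hs
    obtain ⟨h1, -⟩ := hs
    cases h2 : Nat.ble (Nat.sub K.X.W.P.Q.sh (K.X.W.P.nk (K.X.W.P.Q.ky a))) q.1 with
    | true => left; exact Nat.le_of_ble_eq_true h2
    | false =>
      rw [h2] at h1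
      right
      exact lst_sound h1

theorem posk_typed {a b : Nat} (hb : b ≠ 0)
    (hs : K.soc WL (K.X.W.P.Q.ky a) (K.X.W.P.Q.SG.get (K.X.W.P.Q.ky a)) = true)
    (h0 : K.X.W.P.Q.SG.get (K.X.W.P.Q.ky a) = [] → ∀ u, K.az (K.X.W.P.Q.ky a) u = 0)
    (ha1 : blc K.X.W.P.Q.bm a < 1073741824) (hb1 : blc K.X.W.P.Q.bm b < 1073741824)
    (h1 : K.X.W.P.Q.cme (Nat.mod b 32) (Nat.div a (pw a)) = true)
    (h2 : K.X.W.P.Q.cme (Nat.mod a 32) (Nat.div b (pw b)) = true)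
    (hb32 : Nat.div b (pw b) < 32)
    (hpc : K.X.W.P.pcs (wsl K.X.W.P.Q.wm a) (blc K.X.W.P.Q.bm a) (wsl K.X.W.P.Q.wm b)
      (blc K.X.W.P.Q.bm b) = false)
    (hW : K.X.W.P.Q.ky b ∈ WL.get (hi (K.X.W.P.Q.ky b))) : K.PosOk4 a b := by
  by_cases hSG : K.X.W.P.Q.SG.get (K.X.W.P.Q.ky a) = []
  · have h3 : K.X.W.P.PosOk2 a b := posc_typed (WL := WL) hb (by rw [hSG]; rfl) ha1 hb1 h1 h2 hb32
      hpc hW
    unfold Kx.PosOk4
    rw [h0 hSG, Nat.add_zero]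
    exact h3
  · have hb0 : Nat.beq b 0 = false := beq_zero_of hb
    have hG : K.X.W.P.G2 a b = K.X.W.P.Q.Gn (K.X.W.P.Q.ky a) (K.X.W.P.Q.ky b) := by
      unfold Pn.G2; rw [hb0]; rfl
    have hnz : K.X.W.P.Q.nz b = mi (K.X.W.P.Q.ky b) := by
      unfold Pm.nz Pm.ky
      rw [hb0, mi_kfc hb1]; rfl
    have hib : hi (K.X.W.P.Q.ky b) = b % 32 + 32 * (b / pw b) := hi_kfc hb1
    have hia : hi (K.X.W.P.Q.ky a) = a % 32 + 32 * (a / pw a) := hi_kfc ha1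
    unfold Kx.PosOk4
    rw [hG, hnz]
    unfold Pm.pos
    revert hs
    cases hSG' : K.X.W.P.Q.SG.get (K.X.W.P.Q.ky a) with
    | nil => exact absurd hSG' hSG
    | cons q cl =>
      intro hs
      have e : K.soc WL (K.X.W.P.Q.ky a) (q :: cl) =
        (bif (bif Nat.ble (Nat.sub K.X.W.P.Q.sh (K.X.W.P.nk (K.X.W.P.Q.ky a))) q.1 then true else
          lst (Nat.sub K.X.W.P.Q.sh (K.X.W.P.nk (K.X.W.P.Q.ky a))) 1 cl) then
          (alln 32 fun f => bif K.X.W.P.Q.cme f (Nat.div (hi (K.X.W.P.Q.ky a)) 32) then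
              alln 32 fun l => bif K.X.W.P.Q.cme (Nat.mod (hi (K.X.W.P.Q.ky a)) 32) l then
                allb (K.okx (K.X.W.P.Q.ky a) q.1 cl) (WL.get (Nat.add f (Nat.mul 32 l))) else true
            else true)
        else false) := rfl
      rw [e, cond_true_iff] at hs
      obtain ⟨-, h3⟩ := hs
      have a32 : a % 32 < 32 := Nat.mod_lt _ (by norm_num)
      have b32 : b % 32 < 32 := Nat.mod_lt _ (by norm_num)
      have hb32' : b / pw b < 32 := hb32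
      have e1 : Nat.div (hi (K.X.W.P.Q.ky a)) 32 = Nat.div a (pw a) := by
        rw [hia]
        show (a % 32 + 32 * (a / pw a)) / 32 = a / pw a
        omega
      have e2 : Nat.mod (hi (K.X.W.P.Q.ky a)) 32 = Nat.mod a 32 := by
        rw [hia]
        show (a % 32 + 32 * (a / pw a)) % 32 = a % 32
        omega
      rw [e1, e2] at h3
      have h4 := alln_iff.1 h3 (Nat.mod b 32) b32
      rw [h1] at h4
      dsimp only [cond_true] at h4
      have h5 := alln_iff.1 h4 (Nat.div b (pw b)) hb32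
      rw [h2] at h5
      dsimp only [cond_true] at h5
      have e3 : Nat.add (Nat.mod b 32) (Nat.mul 32 (Nat.div b (pw b))) = hi (K.X.W.P.Q.ky b) :=
        hib.symm
      rw [e3] at h5
      have h6 := allb_sound h5 _ hW
      unfold Kx.okx at h6
      have e4 : lo (K.X.W.P.Q.ky a) = blc K.X.W.P.Q.bm a := lo_kfc ha1
      have e5 : lo (K.X.W.P.Q.ky b) = blc K.X.W.P.Q.bm b := lo_kfc hb1
      rw [slf_ky ha1, slf_ky hb1, e4, e5, hpc, frc_eq] at h6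
      dsimp only [cond_false] at h6
      show K.gk (K.X.W.P.Q.ky a) (K.X.W.P.Q.ky b) ≤ q.1 ∨
        ∃ g, (g, mi (K.X.W.P.Q.ky b)) ∈ cl ∧ K.gk (K.X.W.P.Q.ky a) (K.X.W.P.Q.ky b) ≤ g
      cases h7 : Nat.ble (K.gk (K.X.W.P.Q.ky a) (K.X.W.P.Q.ky b)) q.1 with
      | true => left; exact Nat.le_of_ble_eq_true h7
      | false =>
        rw [h7] at h6
        right
        exact lst_sound h6

/-- the positions are correct -/
theorem posk_all (hx : Kz K WL) (hy : Hc2 cmp cmp' sol sol' Y f K.X.W.P)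
    (hcm : ∀ x y, cmp x y = true → K.X.W.P.Q.cme (x + 1) (y + 1) = true)
    (hWL : ∀ e, Y.W e ≠ [] → K.X.W.P.Q.ky (Y.c e) ∈ WL.get (hi (K.X.W.P.Q.ky (Y.c e)))) (e : D)
    (he : Y.W e ≠ []) : K.PosOk4 (Y.c e) (Y.c (Y.al e)) := by
  have hS := hy.ok
  have hb := hy.hb
  have hs : ∀ a, K.soc WL a (K.X.W.P.Q.SG.get a) = true := by
    intro a
    by_cases h0 : K.X.W.P.Q.SG.get a = []
    · rw [h0]; rfl
    · exact BT.allB_sound hx.so _ (BT.get_mem h0)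
  by_cases ha : Y.W (Y.al e) = []
  · have : Y.c (Y.al e) = 0 := by unfold Sys.c; rw [ha]; rfl
    rw [this]
    exact posk_null (hs _)
  · have h4 := hS.len _ ha
    refine posk_typed (Sys.enc_ne ha) (hs _) (fun h0 u => hx.az0 (hWL e he) (rr_lt hy he) h0) (hb.lt hS _)
      (hb.lt hS _) ?_ ?_ ?_ (pcs_ok hy he ha) (hWL _ ha)
    · rw [hS.dg0 ha, hS.dgl he]
      apply hcm
      have := hS.cmp (Y.al e) ha (by rw [hS.alal]; exact he)
      rwa [hS.alal] at this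
    · rw [hS.dg0 he, hS.dgl ha]
      exact hcm _ _ (hS.cmp e he ha)
    · rw [hS.dgl ha]
      have h5 : (Y.W (Y.al e)).length - 1 < (Y.W (Y.al e)).length := by omega
      rw [List.getD_eq_getElem _ _ h5]
      have := hS.sm (Y.al e) _ (List.getElem_mem h5)
      omega

/-- a centre which is not in the table -/
theorem Kz.trv_yi (hx : Kz K WL) (hv : Hv cmpS cmp cmp' sol sol' S cc f K.X.W.P le)
    (hWL : ∀ e, (S.mp cc).W e ≠ [] →
      K.X.W.P.Q.ky ((S.mp cc).c e) ∈ WL.get (hi (K.X.W.P.Q.ky ((S.mp cc).c e))))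
    (he : S.W e ≠ []) (h : K.X.W.P.Q.trv ((S.mp cc).c e) = true) :
    ∑ i ∈ range (S.W e).length, K.yi (S.mp cc) e (S.W e).length i ≤ 0 := by
  have hY := hv.h2.ok
  have he' : (S.mp cc).W e ≠ [] := mp_ne.2 he
  have h4 := hY.len e he'
  have hd : dgn ((S.mp cc).c e) = (S.W e).length := by
    rw [← mlen (S := S) (cc := cc)]
    exact dgn_enc (hY.sm e) h4.1 h4.2
  unfold Pm.trv at h
  rw [cond_true_iff, hd] at h
  refine le_of_eq (sum_eq_zero fun i hi => ?_)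
  rw [mem_range] at hi
  have h2 := alln_iff.1 h.2 i hi
  rw [cond_true_iff, rot_c hY he' i] at h2
  have e1 : K.X.W.P.Q.SG.get (K.X.W.P.Q.ky ((S.mp cc).c ((S.mp cc).nx^[i] e))) = [] :=
    List.isEmpty_iff.1 h2.2
  have h3 := hx.k0 (hWL _ (hY.ne_iter he' i)) e1
  apply Kx.yi_zero
  unfold Pw.ke
  rw [rot_c hY he' i]
  exact h3

/-- The star inequality with flows on the triangles and on the kites. -/
theorem star_allc4 {PD : BT (List Nat)} {FB : BT (List Fct)} {CB : BT (List CE2)}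
    (hS : S.Ok cmpS sol)
    (hF : ∀ p ∈ FB.toList, ∀ X ∈ p.2, NoX le ml sol S X)
    (hk : Hk le ml sol S cc f K.X.W)
    (hN : ∀ e, S.W e ≠ [] → Nr sol S e)
    {glY : List Nat → Bool} (hg : ∀ e, S.W e ≠ [] → glY ((S.W e).map cc) = true)
    (hcc : ∀ x y, cmpS x y = true → K.X.W.P.Q.cme (cc x + 1) (cc y + 1) = true ∧
      K.X.W.P.Q.cmb (f (cc x) + 1) (f (cc y) + 1) = true)
    (hL : ∀ e, ∀ x ∈ S.W e, cc x < 31 ∧ f (cc x) < 31 ∧ sol (cc x) = sol x ∧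
      tb K.X.W.P.Q.sm (cc x + 1) = sol x ∧ tb K.X.W.P.Q.lm (cc x + 1) = lng x ∧
      tdg K.X.W.P.Q.bm (cc x + 1) = f (cc x) + 1 ∧ tb K.X.W.P.Q.sm (f (cc x) + 1) = sol x ∧
      x ∈ K.X.W.P.lg (K.X.W.P.vl (cc x + 1)) ∧ ∀ g, K.X.W.P.leb g (f (cc x)) = true → le g x = true)
    (himp : ∀ e, ∀ i < (S.W e).length, ∀ p n,
      (S.W e).getD (prv (S.W e).length i) 0 ∈ K.X.W.P.lg p →
      (S.W e).getD (nxt (S.W e).length i) 0 ∈ K.X.W.P.lg n →
      K.X.W.P.imp (wsl K.X.W.P.Q.wm ((S.mp cc).c e)) ((S.W e).getD i 0) p n = false)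
    (hlev : ∀ g v, K.X.W.P.lev g v = true → ∀ x ∈ K.X.W.P.lg v, le g x = true)
    (hlg : ∀ v, ∀ x ∈ K.X.W.P.lg v, x ∈ K.X.W.P.lg x)
    (hr2 : ∀ r, S.W r ≠ [] → S.W (S.al r) ≠ [] →
      K.X.W.P.r2 (wsl K.X.W.P.Q.wm ((S.mp cc).c r)) (f (cc ((S.W r).getD 0 0)) + 1)
        (wsl K.X.W.P.Q.wm ((S.mp cc).c (S.al r)))
        (f (cc ((S.W (S.al r)).getD ((S.W (S.al r)).length - 1) 0)) + 1) = true)
    (hua : ∀ e, S.W e ≠ [] → S.W (S.al e) ≠ [] → ∀ v, (S.W e).getD 0 0 ∈ K.X.W.P.lg v →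
      K.X.W.P.ua (wsl K.X.W.P.Q.wm ((S.mp cc).c e)) v (wsl K.X.W.P.Q.wm ((S.mp cc).c (S.al e)))
        (f (cc ((S.W (S.al e)).getD ((S.W (S.al e)).length - 1) 0)) + 1) = true)
    (hub : ∀ e, S.W e ≠ [] → S.W (S.al e) ≠ [] → ∀ v,
      (S.W e).getD ((S.W e).length - 1) 0 ∈ K.X.W.P.lg v →
      K.X.W.P.ub (wsl K.X.W.P.Q.wm ((S.mp cc).c e)) v (wsl K.X.W.P.Q.wm ((S.mp cc).c (S.al e)))
        (f (cc ((S.W (S.al e)).getD 0 0)) + 1) = true)
    (hgk : ∀ r, S.W r ≠ [] → S.W (S.al r) ≠ [] → S.W (S.al (S.nx r)) ≠ [] →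
      K.X.W.P.Q.gk (wsl K.X.W.P.Q.wm ((S.mp cc).c r)) (cc ((S.W r).getD 0 0) + 1)
        (nfc K.X.W.P.Q.bm K.X.W.P.Q.wm K.X.W.P.Q.sm ((S.mp cc).c (S.al r)))
        (nfc K.X.W.P.Q.bm K.X.W.P.Q.wm K.X.W.P.Q.sm ((S.mp cc).c (S.al (S.nx r)))) = false)
    (hgv : ∀ r, S.W r ≠ [] → S.W (S.al r) ≠ [] → S.W (S.al (S.nx r)) ≠ [] →
      ∀ v, (S.W r).getD 0 0 ∈ K.X.W.P.lg v →
      K.X.W.P.gv (wsl K.X.W.P.Q.wm ((S.mp cc).c r)) v
        (nfc K.X.W.P.Q.bm K.X.W.P.Q.wm K.X.W.P.Q.sm ((S.mp cc).c (S.al r)))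
        (nfc K.X.W.P.Q.bm K.X.W.P.Q.wm K.X.W.P.Q.sm ((S.mp cc).c (S.al (S.nx r)))) = false)
    (hcd : ∀ a i, K.X.W.P.cd a i = cda (K.X.W.P.Q.pos a 0).cl i)
    (hsh : 12 * K.X.W.P.Q.den ≤ 4 * (K.X.W.P.Q.sh + 2 * K.X.W.P.Q.den))
    {h : Nat → Nat} (hh : ∀ e, ∀ x ∈ S.W e, K.X.W.P.hd (cc x + 1) = h x)
    (hPF : K.X.W.P.Q.PF.allB (fun x ys => pfdb K.X.W.P.leb ml FB x ys (PD.get x)) = true)
    (hCB : CB.allB K.ckc = true) (hx : Kz K WL)
    (hq : ∀ x y, cmpS x y = true → qcl K.qt (cc x + 1) = qcl K.qt (cc y + 1))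
    (hsc : ∀ x y, cmpS x y = true → sol (cc x) = sol (cc y))
    (hcov : ∀ w, glY w = true → K.X.W.cow CB WL (enc w) = true)
    (e : D) (he : S.W e ≠ []) :
    chv2 sol lng K.X.W.P.Q.den K.X.W.P.Q.nl K.X.W.P.Q.nu K.X.W.P.dl h
      (fun a b => K.X.W.P.Q.fw (a.map cc) (b.map cc)) S e +
      (∑ i ∈ range (S.W e).length,
        tgx sol (fun a b c => K.X.xw (a.map cc) (b.map cc) (c.map cc)) S (S.nx^[i] e) +
      ∑ i ∈ range (S.W e).length,
        kgx sol (fun a b c d => K.yw (a.map cc) (b.map cc) (c.map cc) (d.map cc)) S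
          (S.nx^[i] e)) ≤ 0 := by
  set Y := S.mp cc with hYd
  set lngY : Nat → Bool := fun y => tb K.X.W.P.Q.lm (y + 1) with hlY
  set cmpY : Nat → Nat → Bool := fun x y =>
    (K.X.W.P.Q.cme (x + 1) (y + 1) && K.X.W.P.Q.cmb (f x + 1) (f y + 1)) &&
      (Nat.beq (qcl K.qt (x + 1)) (qcl K.qt (y + 1)) && (sol x == sol y)) with hcY
  have cY1 : ∀ x y, cmpY x y = true → K.X.W.P.Q.cme (x + 1) (y + 1) = true := by
    intro x y h
    simp only [hcY, Bool.and_eq_true] at h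
    exact h.1.1
  have cY2 : ∀ x y, cmpY x y = true → K.X.W.P.Q.cmb (f x + 1) (f y + 1) = true := by
    intro x y h
    simp only [hcY, Bool.and_eq_true] at h
    exact h.1.2
  have cY3 : ∀ x y, cmpY x y = true → qcl K.qt (x + 1) = qcl K.qt (y + 1) := by
    intro x y h
    simp only [hcY, Bool.and_eq_true] at h
    exact Nat.eq_of_beq_eq_true h.2.1
  have cY4 : ∀ x y, cmpY x y = true → sol x = sol y := by
    intro x y h
    simp only [hcY, Bool.and_eq_true, beq_iff_eq] at h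
    exact h.2.2
  -- the coarse system
  have hY : Y.Ok cmpY sol := by
    refine hS.mp (fun e x hx => (hL e x hx).1) (fun x y h => ?_) ?_
    · obtain ⟨h1, h2⟩ := hcc x y h
      simp only [hcY]
      rw [h1, h2, hq x y h, hsc x y h, Nat.beq_refl, beq_self_eq_true]
      rfl
    · intro e x hx h
      rw [← (hL e x hx).2.2.1]
      exact h
  have hYm : ∀ e, ∀ y ∈ Y.W e, ∃ x ∈ S.W e, y = cc x := by
    intro e y hy
    obtain ⟨x, hx, rfl⟩ := List.mem_map.1 hy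
    exact ⟨x, hx, rfl⟩
  have hYsm : ∀ e, ∀ y ∈ Y.W e, tb K.X.W.P.Q.sm (y + 1) = sol y := by
    intro e y hy
    obtain ⟨x, hx, rfl⟩ := hYm e y hy
    rw [(hL e x hx).2.2.2.1, (hL e x hx).2.2.1]
  have hYsf : ∀ e, ∀ y ∈ Y.W e, tb K.X.W.P.Q.sm (f y + 1) = sol y := by
    intro e y hy
    obtain ⟨x, hx, rfl⟩ := hYm e y hy
    rw [(hL e x hx).2.2.2.2.2.2.1, (hL e x hx).2.2.1]
  have hb : Bmp K.X.W.P.Q.bm f Y := ⟨fun e y hy => by
      obtain ⟨x, hx, rfl⟩ := hYm e y hy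
      exact (hL e x hx).2.2.2.2.2.1, fun e y hy => by
      obtain ⟨x, hx, rfl⟩ := hYm e y hy
      exact (hL e x hx).2.1⟩
  have hY' : (Y.mp f).Ok (fun x y => K.X.W.P.Q.cmb (x + 1) (y + 1))
      (fun x => tb K.X.W.P.Q.sm (x + 1)) := by
    refine hY.mp (fun e y hy => hb.s e y hy) (fun x y h => ?_) ?_
    · exact cY2 x y h
    · intro e y hy h
      rw [← hYsf e y hy]
      exact h
  -- the facts in the coarse system
  have hl : Leb (fun g y => K.X.W.P.leb g (f y)) K.X.W.P.leb f Y := fun _ _ _ _ h => h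
  have hsl : ∀ e, ∀ x ∈ S.W e, sol (cc x) = sol x := fun e x hx => (hL e x hx).2.2.1
  have hlb : ∀ e, ∀ x ∈ S.W e, ∀ g, K.X.W.P.leb g (f (cc x)) = true → le g x = true :=
    fun e x hx => (hL e x hx).2.2.2.2.2.2.2.2
  have hmd : ∀ {Z : Fct} {e : D}, Mtn (fun g y => K.X.W.P.leb g (f y)) sol Y Z e →
      Mtn le sol S Z e := by
    intro Z e hm
    exact ⟨lew_map (f := cc) (leb := fun g y => K.X.W.P.leb g (f y)) (hlb e) hm.1,
      fun p hp => ⟨fun h0 => pls_mp (hsl _) ((hm.2 p hp).1 h0), fun h0 =>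
        lew_map (f := cc) (leb := fun g y => K.X.W.P.leb g (f y)) (hlb _) ((hm.2 p hp).2 h0)⟩⟩
  have hF' : ∀ p ∈ FB.toList, ∀ Z ∈ p.2, NoX (fun g y => K.X.W.P.leb g (f y)) ml sol Y Z :=
    fun p hp Z hZ => ⟨fun e hm => (hF p hp Z hZ).1 e (hmd hm),
      fun e hm => (hF p hp Z hZ).2 e (hmd hm)⟩
  have hpf := pfb_all (Q := K.X.W.P.Q) hY hb hY' hl hF' hPF
  have first : ∀ r, S.W r ≠ [] → (Y.W r).getD 0 0 = cc ((S.W r).getD 0 0) := by
    intro r hr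
    have := (hS.len r hr).1
    show ((S.W r).map cc).getD 0 0 = _
    rw [getD_map0 (by omega)]
  have last : ∀ r, S.W r ≠ [] → (Y.W r).getD ((Y.W r).length - 1) 0 =
      cc ((S.W r).getD ((S.W r).length - 1) 0) := by
    intro r hr
    have := (hS.len r hr).1
    show ((S.W r).map cc).getD (((S.W r).map cc).length - 1) 0 = _
    rw [List.length_map, getD_map0 (by omega)]
  have h2 : Hc2 cmpY (fun x y => K.X.W.P.Q.cmb (x + 1) (y + 1)) sol
      (fun x => tb K.X.W.P.Q.sm (x + 1)) Y f K.X.W.P := by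
    refine ⟨hY, hb, hY', hYsm, fun r hr hr' => ?_, hpf, fun r hr hr' hr'' => ?_, hcd⟩
    · have hr1 := mp_ne.1 hr
      have hr2' := mp_ne.1 hr'
      rw [first r hr1]
      have e2 : (Y.W (Y.al r)).getD ((Y.W (Y.al r)).length - 1) 0 =
        cc ((S.W (S.al r)).getD ((S.W (S.al r)).length - 1) 0) := last _ hr2'
      rw [e2]
      exact hr2 r hr1 hr2'
    · have hr1 := mp_ne.1 hr
      rw [first r hr1]
      exact hgk r hr1 (mp_ne.1 hr') (mp_ne.1 hr'')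
  have hv : Hv cmpS cmpY (fun x y => K.X.W.P.Q.cmb (x + 1) (y + 1)) sol
      (fun x => tb K.X.W.P.Q.sm (x + 1)) S cc f K.X.W.P le :=
    ⟨hS, h2, hsl, hlb, hlev, fun e x hx => (hL e x hx).2.2.2.2.2.2.2.1, hlg,
      himp, hgv, hua, hub⟩
  have hpr : Hpr sol lngY Y K.X.W.P.Q := by
    exact ⟨hYsm, fun e y hy => rfl, hsh⟩
  -- centres
  have ent : ∀ e, S.W e ≠ [] → ∀ E ∈ CB.get (Y.c e), 0 < (S.W e).length ∧
      (((ded2 E.t = false → ∀ i < (S.W e).length,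
          K.Y (K.aq (K.X.W.ke (Y.c e) i)) = 0) ∧
        (ded2 E.t = false → Kk K.X.W (Y.c e) (S.W e).length) ∧
        (((ded2 E.t = false → ∀ i < (S.W e).length, K.X.M (lo (K.X.W.ke (Y.c e) i)) = 0) ∧
          K.X.W.ckt (Y.c e) (S.W e).length (wsl K.X.W.P.Q.wm (Y.c e)) E.t (K.X.W.P.v0 (Y.c e)) 0
            (K.X.W.P.lg (gtk (K.X.W.P.v0 (Y.c e)) 0)) = true) ∨
        ((∀ i < (S.W e).length, K.X.kc (Y.c e) (S.W e).length i = true) ∧
          K.X.ckt (Y.c e) (S.W e).length (wsl K.X.W.P.Q.wm (Y.c e)) E.t (K.X.W.P.v0 (Y.c e)) 0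
            (K.X.W.P.lg (gtk (K.X.W.P.v0 (Y.c e)) 0)) = true))) ∨
      (Kk K.X.W (Y.c e) (S.W e).length ∧
        (∀ i < (S.W e).length, K.X.kc (Y.c e) (S.W e).length i = true) ∧
        (∀ i < (S.W e).length, K.kc (Y.c e) (S.W e).length i = true) ∧
        K.ckt (Y.c e) (S.W e).length (wsl K.X.W.P.Q.wm (Y.c e)) E.t (K.X.W.P.v0 (Y.c e)) 0
          (K.X.W.P.lg (gtk (K.X.W.P.v0 (Y.c e)) 0)) = true)) := by
    intro e he E hE
    have he' : Y.W e ≠ [] := mp_ne.2 he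
    have h4 := hY.len e he'
    have hlen : (Y.W e).length = (S.W e).length := by
      show ((S.W e).map cc).length = _
      rw [List.length_map]
    have hd : dgn (Y.c e) = (S.W e).length := by
      rw [← hlen]; exact dgn_enc (hY.sm e) h4.1 h4.2
    have h1 : CB.get (Y.c e) ≠ [] := by
      intro h0; rw [h0] at hE; simp at hE
    refine ⟨by omega, ?_⟩
    rcases Kx.ckc_sound (BT.allB_sound hCB _ (BT.get_mem h1)) E hE with ⟨h3, h5⟩ | ⟨h3, h5⟩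
    · left
      obtain ⟨h6, h7⟩ := ckc3_sound h5 E (List.mem_singleton.2 rfl)
      dsimp only at h3 h6 h7
      rw [hd] at h3 h6 h7
      exact ⟨h3, fun hd i hi => hk.kt _ (h6 hd i hi), h7⟩
    · right
      dsimp only at h3 h5
      rw [hd] at h3 h5
      exact ⟨fun i hi => hk.kt _ (h3 i hi), h5.1, h5.2.1, h5.2.2⟩
  have v00 : ∀ e, S.W e ≠ [] → (S.W e).getD 0 0 ∈ K.X.W.P.lg (gtk (K.X.W.P.v0 (Y.c e)) 0) := by
    intro e he
    have h4 := (hS.len e he).1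
    rw [gtk_eq]
    exact (v0_cov hv he).2 0 (by omega)
  -- dead centres do not occur
  have hded : ∀ e, S.W e ≠ [] → ∀ E ∈ CB.get (Y.c e), ded2 E.t = false := by
    intro e he E hE
    obtain ⟨hj, h5⟩ := ent e he E hE
    rcases h5 with ⟨-, -, ⟨-, h5⟩ | ⟨-, h5⟩⟩ | ⟨-, -, -, h5⟩
    · exact ckt2_dead hv hk he E.t _ 0 _ (v0_cov hv he) hj (v00 e he) h5
    · exact ckt3_dead hv hk he E.t _ 0 _ (v0_cov hv he) hj (v00 e he) h5
    · exact Kx.ckt_dead hv hk he E.t _ 0 _ (v0_cov hv he) hj (v00 e he) h5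
  have hst : ∀ e, S.W e ≠ [] → (csu2 CB (Y.c e) (dgn (Y.c e)) ≠ 1) := by
    intro e he h1
    rcases csu2_sound CB (Y.c e) (dgn (Y.c e)) with h2 | ⟨i, -, E, hE, h2⟩
    · rw [h2] at h1; exact absurd h1 (by decide)
    · rw [rot_c hY (mp_ne.2 he) i] at hE
      have h3 := hded (S.nx^[i] e) (hS.ne_iter he i) E hE
      rw [h2 h1] at h3
      exact Bool.noConfusion h3
  have hcv : ∀ e, S.W e ≠ [] →
      ((bif Nat.beq (csu2 CB (Y.c e) (dgn (Y.c e))) 0 then K.X.W.P.Q.trv (Y.c e) else true) =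
        true) ∧ K.X.W.P.Q.ky (Y.c e) ∈ WL.get (hi (K.X.W.P.Q.ky (Y.c e))) := by
    intro e he
    have h1 : K.X.W.cow CB WL (Y.c e) = true := hcov _ (hg e he)
    unfold Pw.cow at h1
    dsimp only at h1
    have h2 : Nat.beq (csu2 CB (Y.c e) (dgn (Y.c e))) 1 = false := by
      rw [← Bool.not_eq_true]
      intro h3
      exact hst e he (Nat.eq_of_beq_eq_true h3)
    rw [h2] at h1
    dsimp only [cond_false] at h1
    rw [cond_true_iff] at h1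
    exact ⟨h1.1, mem_iff.1 h1.2⟩
  have hWL : ∀ e, Y.W e ≠ [] → K.X.W.P.Q.ky (Y.c e) ∈ WL.get (hi (K.X.W.P.Q.ky (Y.c e))) :=
    fun e he => (hcv e (mp_ne.1 he)).2
  have hpos := posk_all (K := K) hx h2 cY1 hWL
  have hpos3 : ∀ e, Y.W e ≠ [] → K.X.PosOk3 (Y.c e) (Y.c (Y.al e)) := fun e he => (hpos e he).x
  have hpos2 : ∀ e, Y.W e ≠ [] → K.X.W.P.PosOk2 (Y.c e) (Y.c (Y.al e)) := by
    intro e he
    rcases hpos3 e he with h1 | ⟨g, h1, h3⟩
    · exact Or.inl (by omega)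
    · exact Or.inr ⟨g, h1, by omega⟩
  rw [← chv_down (lngY := lngY) (hY := K.X.W.P.hl) hS hsl (fun e x hx => (hL e x hx).2.2.2.2.1)
    (fun e x hx => hh e x hx) e he, ← tgxs_down hS hsl K.X.xw he, ← kgxs_down hS hsl K.yw he]
  have he' : Y.W e ≠ [] := mp_ne.2 he
  have h1 := (hcv e he).1
  by_cases h3 : csu2 CB (Y.c e) (dgn (Y.c e)) = 0
  · rw [h3] at h1
    have h5 := chc_trv hY hb hpr hpos2 he' h1
    have h6 := trv_xi hx.kt hv hWL he h1
    have h7 := hx.trv_yi hv hWL he h1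
    rw [sum_xi hx.kt hv hYsf he] at h6
    rw [hx.sum_kgx hv cY4 cY3 hYsf he] at h7
    exact add_nonpos h5 (add_nonpos h6 h7)
  · rcases csu2_sound CB (Y.c e) (dgn (Y.c e)) with h4 | ⟨i, -, E, hE, -⟩
    · exact absurd h4 h3
    · rw [rot_c hY he' i] at hE
      have hei := hS.ne_iter he i
      have hei' : Y.W (Y.nx^[i] e) ≠ [] := mp_ne.2 hei
      obtain ⟨hj, h6⟩ := ent (S.nx^[i] e) hei E hE
      have h8 := chv2_iter (lng := lngY) (den := K.X.W.P.Q.den) (nl := K.X.W.P.Q.nl)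
        (nu := K.X.W.P.Q.nu) (dl := K.X.W.P.dl) (h := K.X.W.P.hl) (F := K.X.W.P.Q.fw) hY he' i
      rw [← h8, ← tgxs_iter hY K.X.xw he' i,
        ← sumE_iter hY (fun d => kgx sol K.yw Y d) he' i]
      have h9 : chv2 sol lngY K.X.W.P.Q.den K.X.W.P.Q.nl K.X.W.P.Q.nu K.X.W.P.dl K.X.W.P.hl
          K.X.W.P.Q.fw (S.mp cc) (S.nx^[i] e) + (∑ j ∈ range (S.W (S.nx^[i] e)).length,
            K.X.xi (S.mp cc) (S.nx^[i] e) (S.W (S.nx^[i] e)).length j +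
          ∑ j ∈ range (S.W (S.nx^[i] e)).length,
            K.yi (S.mp cc) (S.nx^[i] e) (S.W (S.nx^[i] e)).length j) ≤ 0 := by
        rcases h6 with ⟨h5, h6, h7⟩ | ⟨h5, h6, h7, h10⟩
        · have hKi := h6 (hded _ hei E hE)
          have e0 : ∑ j ∈ range (S.W (S.nx^[i] e)).length,
              K.yi (S.mp cc) (S.nx^[i] e) (S.W (S.nx^[i] e)).length j = 0 :=
            sum_eq_zero fun j hj => Kx.yi_zero (h5 (hded _ hei E hE) j (mem_range.1 hj))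
          rw [e0, add_zero]
          rcases h7 with ⟨h7, h10⟩ | ⟨h7, h10⟩
          · have h11 := (ckt2_sound hv hk hei (nr_up hsl (hN _ hei)) hpr hpos2 hKi
              E.t _ 0 _ (v0_cov hv hei) hj (v00 _ hei) h10).1
            rw [sum_eq_zero fun j hj => xi_zero hx.kt
              (h7 (hded _ hei E hE) j (mem_range.1 hj)), add_zero]
            exact h11
          · exact ckt3_sound hx.kt hv hk hei (nr_up hsl (hN _ hei)) hpr hpos3 hKi h7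
              E.t _ 0 _ (v0_cov hv hei) hj (v00 _ hei) h10
        · exact hx.ckt_sound hv hk hei (nr_up hsl (hN _ hei)) hpr hWL hpos h5 h6 h7
            E.t _ 0 _ (v0_cov hv hei) hj (v00 _ hei) h10
      rw [sum_xi hx.kt hv hYsf hei, hx.sum_kgx hv cY4 cY3 hYsf hei] at h9
      exact h9

end sound

end

end Pool.FCP
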