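import Pool.Agent.FCP.Xj
import Pool.Agent.FCS.Wk

/-!
# Star check with flows on triangles: heavy leaves in parts
-/

namespace Pool.FCP

open Pool.FCS

noncomputable section

/-- A part of the loop of the first position: mask `m` of the candidates, fuel `n`. -/
def prs3 (thr M Z s : Nat) (ps : List PX) (n m : Nat) : Bool :=
  List.rec (motive := fun _ => Bool) false
    (fun p ps _ => PX.rec (motive := fun _ => Bool)
      (fun a _ gp _ R A => gol3 thr a gp R A (gon3 thr ps) (bsx M ps) M Z s n m) p) ps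

/-- A part of the loop of the first position, at the beginning. -/
def prt3 (thr M : Nat) (ps : List PX) (n m : Nat) : Bool :=
  List.rec (motive := fun _ => Bool) false
    (fun p ps _ => PX.rec (motive := fun _ => Bool)
      (fun a _ gp _ R A => gol3 thr a gp R A (gon3 thr ps) (bsx M ps) M 0 0 n m) p) ps

/-- the mask of the first position -/
def prk3 (M : Nat) (ps : List PX) (n m : Nat) : Bool :=
  List.rec (motive := fun _ => Bool) false
    (fun p _ _ => PX.rec (motive := fun _ => Bool)
      (fun a f _ k _ _ => bif Nat.ble n k then Nat.beq m (Nat.land (Nat.shiftRight M a) f)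
        else false) p) ps

/-- the step of the loop -/
theorem gol3_succ {thr a gp : Nat} {R : Nat → Nat → Nat}
    {A : Nat → Nat → Nat → Nat} {ch : Nat → Nat → Nat → Bool}
    {r M Z s n m : Nat} : gol3 thr a gp R A ch r M Z s (n + 1) m = true ↔
      m = 0 ∨ s + (gnl gp (Nat.log2 m) + r) ≤ thr ∨
      ((Bool.rec (motive := fun _ => Bool)
        (Bool.rec (motive := fun _ => Bool)
          (Bool.rec (motive := fun _ => Bool) true
            (ch (Nat.xor M (Nat.land M (R (Nat.log2 m)
              (Nat.lor Z (Nat.shiftLeft 1 (a + Nat.log2 m))))))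
              (Nat.lor Z (Nat.shiftLeft 1 (a + Nat.log2 m)))
              (A (Nat.log2 m) (Nat.lor Z (Nat.shiftLeft 1 (a + Nat.log2 m))) s))
            (Nat.beq (Nat.land (Nat.shiftRight (R (Nat.log2 m)
              (Nat.lor Z (Nat.shiftLeft 1 (a + Nat.log2 m)))) (a + Nat.log2 m)) 1) 0))
          true (Nat.ble (A (Nat.log2 m) (Nat.lor Z (Nat.shiftLeft 1 (a + Nat.log2 m))) s + r) thr))
        (ch M Z (s + gnl gp 0)) (Nat.beq (Nat.log2 m) 0)) = true ∧
      gol3 thr a gp R A ch r M Z s n (Nat.xor m (Nat.shiftLeft 1 (Nat.log2 m))) = true) := by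
  have e : gol3 thr a gp R A ch r M Z s (n + 1) m = Bool.rec (motive := fun _ => Bool)
        (Bool.rec (motive := fun _ => Bool)
          (Bool.rec (motive := fun _ => Bool) false
              (gol3 thr a gp R A ch r M Z s n (Nat.xor m (Nat.shiftLeft 1 (Nat.log2 m))))
              (Bool.rec (motive := fun _ => Bool)
                (Bool.rec (motive := fun _ => Bool)
                  (Bool.rec (motive := fun _ => Bool) true
                    (ch (Nat.xor M (Nat.land M (R (Nat.log2 m)
                      (Nat.lor Z (Nat.shiftLeft 1 (a + Nat.log2 m))))))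
                      (Nat.lor Z (Nat.shiftLeft 1 (a + Nat.log2 m)))
                      (A (Nat.log2 m) (Nat.lor Z (Nat.shiftLeft 1 (a + Nat.log2 m))) s))
                    (Nat.beq (Nat.land (Nat.shiftRight (R (Nat.log2 m)
                      (Nat.lor Z (Nat.shiftLeft 1 (a + Nat.log2 m)))) (a + Nat.log2 m)) 1) 0))
                  true (Nat.ble (A (Nat.log2 m) (Nat.lor Z (Nat.shiftLeft 1 (a + Nat.log2 m))) s + r)
                    thr))
                (ch M Z (s + gnl gp 0)) (Nat.beq (Nat.log2 m) 0)))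
          true (Nat.ble (s + (gnl gp (Nat.log2 m) + r)) thr))
        true (Nat.beq m 0) := by
    rw [← lgm_eq m]
    exact gol3_step
  rw [e]
  cases h0 : Nat.beq m 0 with
  | true =>
    have := Nat.eq_of_beq_eq_true h0
    exact ⟨fun _ => Or.inl this, fun _ => rfl⟩
  | false =>
    have h1 : m ≠ 0 := Nat.ne_of_beq_eq_false h0
    cases h2 : Nat.ble (s + (gnl gp (Nat.log2 m) + r)) thr with
    | true => exact ⟨fun _ => Or.inr (Or.inl (Nat.le_of_ble_eq_true h2)), fun _ => rfl⟩
    | false =>
      have h3 : ¬ s + (gnl gp (Nat.log2 m) + r) ≤ thr := by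
        intro h
        rw [Nat.ble_eq_true_of_le h] at h2
        exact Bool.noConfusion h2
      generalize (Bool.rec (motive := fun _ => Bool)
        (Bool.rec (motive := fun _ => Bool)
          (Bool.rec (motive := fun _ => Bool) true
            (ch (Nat.xor M (Nat.land M (R (Nat.log2 m)
              (Nat.lor Z (Nat.shiftLeft 1 (a + Nat.log2 m))))))
              (Nat.lor Z (Nat.shiftLeft 1 (a + Nat.log2 m)))
              (A (Nat.log2 m) (Nat.lor Z (Nat.shiftLeft 1 (a + Nat.log2 m))) s))
            (Nat.beq (Nat.land (Nat.shiftRight (R (Nat.log2 m)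
              (Nat.lor Z (Nat.shiftLeft 1 (a + Nat.log2 m)))) (a + Nat.log2 m)) 1) 0))
          true (Nat.ble (A (Nat.log2 m) (Nat.lor Z (Nat.shiftLeft 1 (a + Nat.log2 m))) s + r) thr))
        (ch M Z (s + gnl gp 0)) (Nat.beq (Nat.log2 m) 0)) = b
      cases b with
      | false =>
        exact ⟨fun h => Bool.noConfusion (show false = true from h), fun h => by
          rcases h with h | h | h
          · exact absurd h h1
          · exact absurd h h3
          · exact Bool.noConfusion h.1⟩
      | true =>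
        exact ⟨fun h => Or.inr (Or.inr ⟨rfl, h⟩), fun h => by
          rcases h with h | h | h
          · exact absurd h h1
          · exact absurd h h3
          · exact h.2⟩

/-- more fuel -/
theorem gol3_mono {thr a gp : Nat} {R : Nat → Nat → Nat}
    {A : Nat → Nat → Nat → Nat} {ch : Nat → Nat → Nat → Bool}
    {r M Z s : Nat} : ∀ {n m k : Nat}, n ≤ k → gol3 thr a gp R A ch r M Z s n m = true →
      gol3 thr a gp R A ch r M Z s k m = true
  | 0, _, _, _, h => Bool.noConfusion (show false = true from h)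
  | n + 1, m, 0, hk, _ => absurd hk (by omega)
  | n + 1, m, k + 1, hk, h => by
    rw [gol3_succ] at h ⊢
    rcases h with h | h | h
    · exact Or.inl h
    · exact Or.inr (Or.inl h)
    · exact Or.inr (Or.inr ⟨h.1, gol3_mono (by omega) h.2⟩)

/-- two parts: all bits of `m2` are below the bits of `m1` -/
theorem gol3_or {thr a gp : Nat} {R : Nat → Nat → Nat}
    {A : Nat → Nat → Nat → Nat} {ch : Nat → Nat → Nat → Bool}
    {r M Z s n2 m2 j : Nat} (h2 : m2 < 2 ^ j) (g2 : gol3 thr a gp R A ch r M Z s n2 m2 = true) :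
    ∀ {n1 m1 : Nat}, m1 % 2 ^ j = 0 → gol3 thr a gp R A ch r M Z s n1 m1 = true →
      gol3 thr a gp R A ch r M Z s (n1 + n2) (m1 ||| m2) = true
  | 0, _, _, h => Bool.noConfusion (show false = true from h)
  | n + 1, m1, h3, h => by
    by_cases h0 : m1 = 0
    · subst h0
      rw [Nat.zero_or]
      exact gol3_mono (by omega) g2
    · obtain ⟨e1, e2⟩ := log2_lor h0 h2 h3
      rw [show n + 1 + n2 = (n + n2) + 1 by omega]
      rw [gol3_succ] at h ⊢
      rw [e1]
      rcases h with h | h | h
      · exact absurd h h0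
      · exact Or.inr (Or.inl h)
      · refine Or.inr (Or.inr ⟨h.1, ?_⟩)
        have e3 : Nat.shiftLeft 1 (Nat.log2 m1) = 2 ^ Nat.log2 m1 := by
          rw [shl_one]
        rw [e3] at h ⊢
        have e4 : Nat.xor (m1 ||| m2) (2 ^ Nat.log2 m1) =
            (Nat.xor m1 (2 ^ Nat.log2 m1)) ||| m2 := by
          apply Nat.eq_of_testBit_eq
          intro i
          rw [xor_eq, xor_eq, Nat.testBit_xor, Nat.testBit_or, Nat.testBit_or, Nat.testBit_xor,
            Nat.testBit_two_pow]
          by_cases hi : Nat.log2 m1 = i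
          · have h7 : Nat.testBit m2 i = false :=
              Nat.testBit_lt_two_pow (lt_of_lt_of_le h2
                (Nat.pow_le_pow_right (by norm_num) (by omega)))
            rw [h7]
            cases Nat.testBit m1 i <;> simp
          · rw [decide_eq_false hi]
            cases Nat.testBit m1 i <;> cases Nat.testBit m2 i <;> rfl
        rw [e4]
        refine gol3_or h2 g2 (n1 := n) ?_ h.2
        have h8 : Nat.testBit m1 (Nat.log2 m1) = true := testBit_log2 h0
        apply Nat.eq_of_testBit_eq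
        intro i
        rw [Nat.testBit_mod_two_pow, Nat.zero_testBit]
        by_cases hi : i < j
        · have h9 : Nat.testBit (m1 % 2 ^ j) i = false := by rw [h3, Nat.zero_testBit]
          rw [Nat.testBit_mod_two_pow, decide_eq_true hi, Bool.true_and] at h9
          have h10 : ¬ Nat.log2 m1 = i := by omega
          rw [xor_eq, Nat.testBit_xor, h9, Nat.testBit_two_pow, decide_eq_false h10]
          simp
        · rw [decide_eq_false hi]
          rfl

/-- two parts of the loop -/
theorem prt3_or {thr M n1 m1 n2 m2 : Nat} {ps : List PX} (h1 : prt3 thr M ps n1 m1 = true)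
    (h2 : prt3 thr M ps n2 m2 = true) (j : Nat)
    (hj : Nat.ble (Nat.succ m2) (Nat.pow 2 j) = true)
    (hm : Nat.beq (Nat.mod m1 (Nat.pow 2 j)) 0 = true) :
    prt3 thr M ps (n1 + n2) (Nat.lor m1 m2) = true := by
  cases ps with
  | nil => exact Bool.noConfusion (show false = true from h1)
  | cons p ps =>
    exact gol3_or (j := j) (Nat.le_of_ble_eq_true hj) h2
      (show m1 % 2 ^ j = 0 from Nat.eq_of_beq_eq_true hm) h1

/-- all parts -/
theorem gon3_of {thr M n m : Nat} {ps : List PX} (h : prt3 thr M ps n m = true)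
    (hf : prk3 M ps n m = true) : gon3 thr ps M 0 0 = true := by
  cases ps with
  | nil => exact Bool.noConfusion (show false = true from h)
  | cons p ps =>
    have hf' : (bif Nat.ble n p.n then Nat.beq m (Nat.land (Nat.shiftRight M p.a) p.f)
        else false) = true := hf
    rw [cond_true_iff] at hf'
    have e : m = Nat.land (Nat.shiftRight M p.a) p.f := Nat.eq_of_beq_eq_true hf'.2
    subst e
    exact gol3_mono (Nat.le_of_ble_eq_true hf'.1) h

/-! ### Parts inside the search -/

theorem prs3_zero {thr M n m : Nat} {ps : List PX} : prs3 thr M 0 0 ps n m = prt3 thr M ps n m := rfl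

/-- two parts of the loop -/
theorem prs3_or {thr M Z s n1 m1 n2 m2 : Nat} {ps : List PX}
    (h1 : prs3 thr M Z s ps n1 m1 = true) (h2 : prs3 thr M Z s ps n2 m2 = true) (j : Nat)
    (hj : Nat.ble (Nat.succ m2) (Nat.pow 2 j) = true)
    (hm : Nat.beq (Nat.mod m1 (Nat.pow 2 j)) 0 = true) :
    prs3 thr M Z s ps (n1 + n2) (Nat.lor m1 m2) = true := by
  cases ps with
  | nil => exact Bool.noConfusion (show false = true from h1)
  | cons p ps =>
    exact gol3_or (j := j) (Nat.le_of_ble_eq_true hj) h2
      (show m1 % 2 ^ j = 0 from Nat.eq_of_beq_eq_true hm) h1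

/-- all parts -/
theorem gon3_of_prs {thr M Z s n m : Nat} {ps : List PX} (h : prs3 thr M Z s ps n m = true)
    (hf : prk3 M ps n m = true) : gon3 thr ps M Z s = true := by
  cases ps with
  | nil => exact Bool.noConfusion (show false = true from h)
  | cons p ps =>
    have hf' : (bif Nat.ble n p.n then Nat.beq m (Nat.land (Nat.shiftRight M p.a) p.f)
        else false) = true := hf
    rw [cond_true_iff] at hf'
    have e : m = Nat.land (Nat.shiftRight M p.a) p.f := Nat.eq_of_beq_eq_true hf'.2
    subst e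
    exact gol3_mono (Nat.le_of_ble_eq_true hf'.1) h

/-- one candidate: the search of the other positions -/
theorem prs3_one {thr M Z s m k M' Z' s' : Nat} {p : PX} {ps : List PX}
    (hk : Nat.log2 m = k) (hk0 : Nat.beq k 0 = false)
    (hm : Nat.xor m (Nat.shiftLeft 1 k) = 0)
    (hZ : Nat.lor Z (Nat.shiftLeft 1 (Nat.add p.a k)) = Z')
    (hM : Nat.xor M (Nat.land M (p.R k Z')) = M') (hs : p.A k Z' s = s')
    (h : gon3 thr ps M' Z' s' = true) : prs3 thr M Z s (p :: ps) 2 m = true := by
  subst hk; subst hZ; subst hM; subst hs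
  show gol3 thr p.a p.gp p.R p.A (gon3 thr ps) (bsx M ps) M Z s (1 + 1) m = true
  rw [gol3_succ]
  refine Or.inr (Or.inr ⟨?_, ?_⟩)
  · rw [hk0]
    generalize (Nat.beq (Nat.land (Nat.shiftRight (p.R (Nat.log2 m)
      (Nat.lor Z (Nat.shiftLeft 1 (p.a + Nat.log2 m)))) (p.a + Nat.log2 m)) 1) 0) = b
    generalize (Nat.ble (p.A (Nat.log2 m) (Nat.lor Z (Nat.shiftLeft 1 (p.a + Nat.log2 m))) s +
      bsx M ps) thr) = b'
    cases b'
    · cases b
      · rfl
      · exact h
    · rfl
  · rw [hm, show (1 : Nat) = 0 + 1 from rfl, gol3_succ]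
    exact Or.inl rfl

/-! ### A leaf in parts -/

theorem Px.lfc_eq {X : Px} {c d k o x s u : Nat} {NL V : List Nat} :
    X.lfc c d k o x s u NL V = true ↔ X.W.lfa c d k o x s u NL V = true ∧
      (List.rec (motive := fun _ => Bool)
          (gon3 (X.W.P.Q.thr c) (X.pqs c d k NL (dN 3 o)) (X.W.m0 c d (dN 11 x) (dN 36 u)) 0 0)
          (fun _ _ _ => X.lfn c d (dN 3 s) (X.pqs c d k NL (dN 3 o))
            (X.W.m0 c d (dN 11 x) (dN 36 u))) (dN 3 s)) = true := by
  unfold Px.lfc Pw.lfa
  generalize okOrd d (dN 3 o) = b1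
  generalize ala (fun t => frc t (X.W.P.ux c d k V)) (dN 11 x) = b2
  generalize (frc (av2 X.W.lv V) fun AV => frc (av2 X.W.lm (rvl V)) fun AW =>
        Bool.rec (motive := fun _ => Bool) false
          (alln d fun i => X.W.cks c d k AV AW i (kn (X.W.kr c i)) (nth NL i))
          (ala (X.W.fqz c d AV AW 0 0) (dN 36 u))) = b3
  generalize (List.rec (motive := fun _ => Bool)
          (gon3 (X.W.P.Q.thr c) (X.pqs c d k NL (dN 3 o)) (X.W.m0 c d (dN 11 x) (dN 36 u)) 0 0)
          (fun _ _ _ => X.lfn c d (dN 3 s) (X.pqs c d k NL (dN 3 o))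
            (X.W.m0 c d (dN 11 x) (dN 36 u))) (dN 3 s)) = b4
  cases b1 <;> cases b2 <;> cases b3 <;> cases b4 <;> decide

/-- a leaf without null cases -/
theorem Px.lfc_of {X : Px} {c d k o x u : Nat} {NL V : List Nat}
    (h : X.W.lfa c d k o x 0 u NL V = true)
    (hg : gon3 (X.W.P.Q.thr c) (X.pqs c d k NL (dN 3 o)) (X.W.m0 c d (dN 11 x) (dN 36 u)) 0 0 =
      true) : X.lfc c d k o x 0 u NL V = true :=
  Px.lfc_eq.2 ⟨h, hg⟩

/-- a leaf with null cases -/
theorem Px.lfc_of' {X : Px} {c d k o x s u : Nat} {NL V : List Nat}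
    (h : X.W.lfa c d k o x s u NL V = true)
    (hn : X.lfn c d (dN 3 s) (X.pqs c d k NL (dN 3 o)) (X.W.m0 c d (dN 11 x) (dN 36 u)) = true)
    (hs : dN 3 s ≠ []) : X.lfc c d k o x s u NL V = true := by
  refine Px.lfc_eq.2 ⟨h, ?_⟩
  revert hn hs
  generalize X.lfn c d (dN 3 s) (X.pqs c d k NL (dN 3 o)) (X.W.m0 c d (dN 11 x) (dN 36 u)) = b
  cases dN 3 s with
  | nil => exact fun _ hs => absurd rfl hs
  | cons i l => exact fun hn _ => hn

/-- one null neighbour -/
def Px.ln1 (X : Px) (c d : Nat) (ps : List PX) (m : Nat) (L : List Nat) : Bool :=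
  allb (fun i => bif Nat.ble (Nat.succ i) d then
    gon3 (Nat.add (X.W.P.Q.thr c) X.W.P.dl) ps (rmv m (Nat.lor (X.W.P.nlo c i)
      (X.W.P.x1 c i d))) 0 0
    else false) L

/-- two null neighbours -/
def Px.ln2 (X : Px) (c d : Nat) (ns : List Nat) (ps : List PX) (m n : Nat) : Bool :=
  alln n fun i => bif (bif tb X.W.P.Q.sm (dg (Nat.pow 32 i) c) then
      (bif mem i ns then true else mem (nxt d i) ns) else false) then
    gon3 (X.W.P.Q.thr c) ps (rmv m (Nat.lor (X.W.P.nlo c i) (sl6 (X.W.P.nlo c) (nxt d i)))) 0 0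
  else true

/-- the cases of the null neighbours -/
theorem Px.lfn_of {X : Px} {c d m : Nat} {ns : List Nat} {ps : List PX}
    (h0 : gon3 (X.W.P.Q.thr c) ps (rmv m (X.W.P.x0 c ns)) 0 0 = true)
    (h1 : X.ln1 c d ps m ns = true) (h2 : X.ln2 c d ns ps m d = true) :
    X.lfn c d ns ps m = true := by
  have e : X.lfn c d ns ps m = (bif gon3 (X.W.P.Q.thr c) ps (rmv m (X.W.P.x0 c ns)) 0 0 then
    bif X.ln1 c d ps m ns then X.ln2 c d ns ps m d else false else false) := rfl
  rw [e, h0, h1, h2]
  rfl

theorem Px.ln1_nil {X : Px} {c d m : Nat} {ps : List PX} : X.ln1 c d ps m [] = true := rfl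

theorem Px.ln1_cons {X : Px} {c d m i : Nat} {L : List Nat} {ps : List PX}
    (hi : Nat.ble (Nat.succ i) d = true)
    (h : gon3 (Nat.add (X.W.P.Q.thr c) X.W.P.dl) ps
      (rmv m (Nat.lor (X.W.P.nlo c i) (X.W.P.x1 c i d))) 0 0 = true)
    (hL : X.ln1 c d ps m L = true) : X.ln1 c d ps m (i :: L) = true := by
  have e : X.ln1 c d ps m (i :: L) = (bif (bif Nat.ble (Nat.succ i) d then
    gon3 (Nat.add (X.W.P.Q.thr c) X.W.P.dl) ps (rmv m (Nat.lor (X.W.P.nlo c i)
      (X.W.P.x1 c i d))) 0 0
    else false) then X.ln1 c d ps m L else false) := rfl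
  rw [e, hi, h, hL]
  rfl

/-- a leaf -/
theorem Px.ckt_lf {X : Px} {c d k o x s u i : Nat} {NL V L : List Nat}
    (h : X.lfc c d k o x s u NL V = true) : X.ckt c d k (.lf o x s u NL) V i L = true := h

/-- a dead leaf -/
theorem Px.ckt_dd {X : Px} {c d k n i : Nat} {V L : List Nat}
    (h : fq X.W.FN d (av2 X.W.lv V) (av2 X.W.lm (rvl V)) 0 0 n = true) :
    X.ckt c d k (.dd n) V i L = true := h

end

end Pool.FCP
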