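import Pool.Agent.FCP.Ya
import Pool.Agent.FCP.Xk

/-!
# Star check with flows on kites: parts of the tables
-/

namespace Pool.FCP

open Pool.FCS

noncomputable section

/-- in a dead tree the two checks are the same -/
theorem Kx.ckt_ded {K : Kx} {c d k : Nat} : ∀ (t : Tr2), ded2 t = true →
    ∀ (V : List Nat) (i : Nat) (L : List Nat), K.ckt c d k t V i L = K.X.W.ckt c d k t V i L := by
  intro t
  induction t with
  | lf o x s u NL => intro h; exact Bool.noConfusion (show false = true from h)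
  | dd n => intros; rfl
  | sp j t ih =>
    intro h V i L
    have e1 : K.ckt c d k (.sp j t) V i L =
      (bif Nat.ble (Nat.succ j) d then K.ckt c d k t V j (K.X.W.P.lg (gtk V j)) else false) := rfl
    have e2 : K.X.W.ckt c d k (.sp j t) V i L =
      (bif Nat.ble (Nat.succ j) d then K.X.W.ckt c d k t V j (K.X.W.P.lg (gtk V j))
        else false) := rfl
    rw [e1, e2, ih h]
  | ch a t iha iht =>
    intro h V i L
    have h' : (bif ded2 a then ded2 t else false) = true := h
    rw [cond_true_iff] at h'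
    cases L with
    | nil => rfl
    | cons x L =>
      have e1 : K.ckt c d k (.ch a t) V i (x :: L) =
        (bif (bif K.X.W.P.imp k x (gtk V (prv d i)) (gtk V (nxt d i)) then true else
          K.ckt c d k a (stk x V i) i [x]) then K.ckt c d k t V i L else false) := rfl
      have e2 : K.X.W.ckt c d k (.ch a t) V i (x :: L) =
        (bif (bif K.X.W.P.imp k x (gtk V (prv d i)) (gtk V (nxt d i)) then true else
          K.X.W.ckt c d k a (stk x V i) i [x]) then K.X.W.ckt c d k t V i L else false) := rfl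
      rw [e1, e2, iha h'.1, iht h'.2]
  | en => intros; rfl

theorem Kx.ckc_eq {K : Kx} {k : Nat} {t : Tr2} : K.ckc k [⟨k, t⟩] =
    (bif (bif (bif ded2 t then true else K.non k) then K.X.ckc k [⟨k, t⟩] else
      bif Nat.beq k k then
        bif alln (dgn k) (fun i => Nat.ble 1 (K.X.W.kr k i)) then
          bif alln (dgn k) (fun i => bif K.X.kc k (dgn k) i then K.kc k (dgn k) i else false) then
            K.ckt k (dgn k) (wsl K.X.W.P.Q.wm k) t (K.X.W.P.v0 k) 0
              (K.X.W.P.lg (gtk (K.X.W.P.v0 k) 0))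
          else false
        else false
      else false) then true else false) := rfl

/-- the entry of a centre without records -/
theorem Kx.ckc_x {K : Kx} {k : Nat} {t : Tr2} (hn : K.non k = true)
    (h : K.X.ckc k [⟨k, t⟩] = true) : K.ckc k [⟨k, t⟩] = true := by
  rw [Kx.ckc_eq, hn, h]
  cases ded2 t <;> rfl

/-- the entry of a dead centre -/
theorem Kx.ckc_dd {K : Kx} {k d s : Nat} {V L : List Nat} {t : Tr2} (hd : dgn k = d)
    (hs : wsl K.X.W.P.Q.wm k = s) (hV : K.X.W.P.v0 k = V) (hL : K.X.W.P.lg (gtk V 0) = L)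
    (hk : ded2 t = true) (ht : K.X.W.ckt k d s t V 0 L = true) : K.ckc k [⟨k, t⟩] = true := by
  have h := Px.ckc_dd (X := K.X) hd hs hV hL hk ht
  rw [Kx.ckc_eq, hk, h]
  rfl

/-- the entry of a centre -/
theorem Kx.ckc_of {K : Kx} {k d s : Nat} {V L : List Nat} {t : Tr2} (hd : dgn k = d)
    (hs : wsl K.X.W.P.Q.wm k = s) (hV : K.X.W.P.v0 k = V) (hL : K.X.W.P.lg (gtk V 0) = L)
    (hk : alln d (fun i => Nat.ble 1 (K.X.W.kr k i)) = true)
    (ho : alln d (fun i => Nat.beq (K.Y (K.aq (K.X.W.ke k i))) (nat_lit 0)) = false)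
    (hc : alln d (fun i => bif K.X.kc k d i then K.kc k d i else false) = true)
    (ht : K.ckt k d s t V 0 L = true) : K.ckc k [⟨k, t⟩] = true := by
  cases h : ded2 t with
  | true => exact Kx.ckc_dd hd hs hV hL h (by rw [← Kx.ckt_ded t h]; exact ht)
  | false =>
    subst hd; subst hs; subst hV; subst hL
    have e1 : K.non k = false := ho
    rw [Kx.ckc_eq, h, e1, hk, hc, ht, Nat.beq_refl k]
    rfl

/-- split of a sector -/
theorem Kx.ckt_sp {K : Kx} {c d k i j : Nat} {V L M : List Nat} {t : Tr2}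
    (hi : Nat.ble (Nat.succ i) d = true) (hM : K.X.W.P.lg (gtk V i) = M)
    (h : K.ckt c d k t V i M = true) : K.ckt c d k (.sp i t) V j L = true := by
  subst hM
  have e : K.ckt c d k (.sp i t) V j L =
    (bif Nat.ble (Nat.succ i) d then K.ckt c d k t V i (K.X.W.P.lg (gtk V i)) else false) := rfl
  rw [e, hi]
  exact h

/-- the next letter -/
theorem Kx.ckt_ch {K : Kx} {c d k i x : Nat} {V U L : List Nat} {a t : Tr2}
    (hU : stk x V i = U) (ha : K.ckt c d k a U i [x] = true) (ht : K.ckt c d k t V i L = true) :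
    K.ckt c d k (.ch a t) V i (x :: L) = true := by
  subst hU
  have e : K.ckt c d k (.ch a t) V i (x :: L) =
    (bif (bif K.X.W.P.imp k x (gtk V (prv d i)) (gtk V (nxt d i)) then true else
      K.ckt c d k a (stk x V i) i [x]) then K.ckt c d k t V i L else false) := rfl
  rw [e, ha, ht]
  cases K.X.W.P.imp k x (gtk V (prv d i)) (gtk V (nxt d i)) <;> rfl

/-- an impossible letter -/
theorem Kx.ckt_im {K : Kx} {c d k i x : Nat} {V L : List Nat} {a t : Tr2}
    (hi : K.X.W.P.imp k x (gtk V (prv d i)) (gtk V (nxt d i)) = true)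
    (ht : K.ckt c d k t V i L = true) : K.ckt c d k (.ch a t) V i (x :: L) = true := by
  have e : K.ckt c d k (.ch a t) V i (x :: L) =
    (bif (bif K.X.W.P.imp k x (gtk V (prv d i)) (gtk V (nxt d i)) then true else
      K.ckt c d k a (stk x V i) i [x]) then K.ckt c d k t V i L else false) := rfl
  rw [e, hi, ht]
  rfl

/-- no more letters -/
theorem Kx.ckt_nil {K : Kx} {c d k i : Nat} {V : List Nat} {a t : Tr2} :
    K.ckt c d k (.ch a t) V i [] = true := rfl

/-- the end -/
theorem Kx.ckt_en {K : Kx} {c d k i : Nat} {V : List Nat} : K.ckt c d k .en V i [] = true := rfl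

/-- a leaf -/
theorem Kx.ckt_lf {K : Kx} {c d k o x s u i : Nat} {NL V L : List Nat}
    (h : K.lfc c d k o x s u NL V = true) : K.ckt c d k (.lf o x s u NL) V i L = true := h

/-- a dead leaf -/
theorem Kx.ckt_dd {K : Kx} {c d k n i : Nat} {V L : List Nat}
    (h : fq K.X.W.FN d (av2 K.X.W.lv V) (av2 K.X.W.lm (rvl V)) 0 0 n = true) :
    K.ckt c d k (.dd n) V i L = true := h

/-! ### A leaf in parts -/

theorem Kx.lfc_eq {K : Kx} {c d k o x s u : Nat} {NL V : List Nat} :
    K.lfc c d k o x s u NL V = true ↔ K.X.W.lfa c d k o x s u NL V = true ∧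
      (List.rec (motive := fun _ => Bool)
          (gon3 (K.X.W.P.Q.thr c) (K.pqs c d k NL (dN 3 o)) (K.X.W.m0 c d (dN 11 x) (dN 36 u))
            0 0)
          (fun _ _ _ => K.X.lfn c d (dN 3 s) (K.pqs c d k NL (dN 3 o))
            (K.X.W.m0 c d (dN 11 x) (dN 36 u))) (dN 3 s)) = true := by
  unfold Kx.lfc Pw.lfa
  generalize okOrd d (dN 3 o) = b1
  generalize ala (fun t => frc t (K.X.W.P.ux c d k V)) (dN 11 x) = b2
  generalize (frc (av2 K.X.W.lv V) fun AV => frc (av2 K.X.W.lm (rvl V)) fun AW =>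
        Bool.rec (motive := fun _ => Bool) false
          (alln d fun i => K.X.W.cks c d k AV AW i (kn (K.X.W.kr c i)) (nth NL i))
          (ala (K.X.W.fqz c d AV AW 0 0) (dN 36 u))) = b3
  generalize (List.rec (motive := fun _ => Bool)
          (gon3 (K.X.W.P.Q.thr c) (K.pqs c d k NL (dN 3 o)) (K.X.W.m0 c d (dN 11 x) (dN 36 u))
            0 0)
          (fun _ _ _ => K.X.lfn c d (dN 3 s) (K.pqs c d k NL (dN 3 o))
            (K.X.W.m0 c d (dN 11 x) (dN 36 u))) (dN 3 s)) = b4
  cases b1 <;> cases b2 <;> cases b3 <;> cases b4 <;> decide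

/-- a leaf without null cases -/
theorem Kx.lfc_of {K : Kx} {c d k o x u : Nat} {NL V : List Nat}
    (h : K.X.W.lfa c d k o x 0 u NL V = true)
    (hg : gon3 (K.X.W.P.Q.thr c) (K.pqs c d k NL (dN 3 o)) (K.X.W.m0 c d (dN 11 x) (dN 36 u))
      0 0 = true) : K.lfc c d k o x 0 u NL V = true :=
  Kx.lfc_eq.2 ⟨h, hg⟩

/-- a leaf with null cases -/
theorem Kx.lfc_of' {K : Kx} {c d k o x s u : Nat} {NL V : List Nat}
    (h : K.X.W.lfa c d k o x s u NL V = true)
    (hn : K.X.lfn c d (dN 3 s) (K.pqs c d k NL (dN 3 o)) (K.X.W.m0 c d (dN 11 x) (dN 36 u)) =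
      true)
    (hs : dN 3 s ≠ []) : K.lfc c d k o x s u NL V = true := by
  refine Kx.lfc_eq.2 ⟨h, ?_⟩
  revert hn hs
  generalize K.X.lfn c d (dN 3 s) (K.pqs c d k NL (dN 3 o)) (K.X.W.m0 c d (dN 11 x) (dN 36 u)) = b
  cases dN 3 s with
  | nil => exact fun _ hs => absurd rfl hs
  | cons i l => exact fun hn _ => hn

end

end Pool.FCP
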