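import Pool.Agent.FCS.Xa
import Pool.Agent.FCS.Wm

/-!
# Star check with flows on triangles: definitions

The gain of the corner `A` of a solid triangle with the other two corners `B` (neighbour before the
sector) and `C` (neighbour behind the sector), blind codes, each read from the letter of the
triangle, is `x A B C` minus the offset `65536`. The gains of a corner `A` are a matrix, its rows
are the classes of the codes `B`, its columns the classes of the codes `C`.
-/

namespace Pool.FCP

open Pool.FCS

noncomputable section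

/-- number of the rows -/
def mnB (m : Nat) : Nat := Nat.mod m (nat_lit 512)

/-- number of the columns -/
def mnC (m : Nat) : Nat := Nat.mod (Nat.shiftRight m (nat_lit 9)) (nat_lit 512)

/-- the row `b` (from 1) -/
def mrw (m b : Nat) : Nat :=
  frc (mnC m) fun n => Nat.mod
    (Nat.shiftRight m (Nat.add (nat_lit 18) (Nat.mul (nat_lit 17) (Nat.mul (Nat.sub b (nat_lit 1)) n))))
    (Nat.pow (nat_lit 2) (Nat.mul (nat_lit 17) n))

/-- the field `c` (from 1) of a row -/
def rfd (r c : Nat) : Nat :=
  Nat.mod (Nat.shiftRight r (Nat.mul (nat_lit 17) (Nat.sub c (nat_lit 1)))) (nat_lit 131072)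

/-- the end of the matrix -/
def mo1 (m : Nat) : Nat := Nat.add (nat_lit 18) (Nat.mul (nat_lit 17) (Nat.mul (mnB m) (mnC m)))

/-- the code of a row -/
def mcB (m b : Nat) : Nat :=
  Nat.mod (Nat.shiftRight m (Nat.add (mo1 m) (Nat.mul (nat_lit 30) (Nat.sub b (nat_lit 1)))))
    (nat_lit 1073741824)

/-- the code of a column -/
def mcC (m c : Nat) : Nat :=
  Nat.mod (Nat.shiftRight m (Nat.add (mo1 m) (Nat.mul (nat_lit 30)
    (Nat.add (mnB m) (Nat.sub c (nat_lit 1)))))) (nat_lit 1073741824)

/-- the end of the codes -/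
def mo2 (m : Nat) : Nat := Nat.add (mo1 m) (Nat.mul (nat_lit 30) (Nat.add (mnB m) (mnC m)))

/-- the allowance of a row -/
def maR (m b : Nat) : Nat :=
  Nat.mod (Nat.shiftRight m (Nat.add (mo2 m) (Nat.mul (nat_lit 17) (Nat.sub b (nat_lit 1)))))
    (nat_lit 131072)

/-- the allowance of a column -/
def maL (m c : Nat) : Nat :=
  Nat.mod (Nat.shiftRight m (Nat.add (mo2 m) (Nat.mul (nat_lit 17)
    (Nat.add (mnB m) (Nat.sub c (nat_lit 1)))))) (nat_lit 131072)

/-- two blind codes in one number -/
def pr2 (A B : Nat) : Nat := Nat.add A (Nat.mul (nat_lit 1073741824) B)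

/-- The tables: `W` the check of the stars with the bounds of the gains, `M` the matrices, `B`, `C`
the classes of two blind codes, `V` the classes of the candidates of a key, `ka` the packed gains
without allowances, `J` the projection of the blind codes. -/
structure Px where
  W : Pw
  M : Nat → Nat
  B : Nat → Nat
  C : Nat → Nat
  V : Nat → Nat
  ka : Nat → Nat
  J : Nat → Nat

/-- the gain of the classes `b`, `c` with offset -/
def xbc (m b c : Nat) : Nat :=
  Bool.rec (motive := fun _ => Nat)
    (Bool.rec (motive := fun _ => Nat) (frc (mrw m b) fun r => rfd r c) (nat_lit 65536)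
      (Nat.beq c (nat_lit 0)))
    (nat_lit 65536) (Nat.beq b (nat_lit 0))

/-- the gain of the corner `A` with offset -/
def Px.x (X : Px) (A B C : Nat) : Nat :=
  frc (X.B (pr2 A B)) fun b => frc (X.C (pr2 A C)) fun c => frc (X.M A) fun m => xbc m b c

/-- the gain of a corner of a triangle (words) -/
def Px.xw (X : Px) (a b c : List Nat) : Int :=
  (fun A B C : Nat => if A < 1073741824 ∧ B < 1073741824 ∧ C < 1073741824 then
      (X.x A B C : Int) - 65536 else 0)
    (blc X.W.P.Q.bm (enc a)) (blc X.W.P.Q.bm (enc b)) (blc X.W.P.Q.bm (enc c))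

/-- the check of a matrix -/
def Px.kM (X : Px) (A m : Nat) : Bool :=
  Bool.rec (motive := fun _ => Bool) false
    (alln (mnB m) fun j => frc (Nat.succ j) fun b => frc (mcB m b) fun B => frc (maR m b) fun q =>
      frc (mrw m b) fun r => alln (mnC m) fun j' => frc (Nat.succ j') fun c =>
        frc (rfd r c) fun x =>
          Bool.rec (motive := fun _ => Bool) false
            (Bool.rec (motive := fun _ => Bool) false
              (Bool.rec (motive := fun _ => Bool)
                (frc (mcC m c) fun C =>
                  Nat.beq (Nat.add x (Nat.add (X.x B C A) (X.x C A B))) (nat_lit 196608))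
                true (Nat.beq x (nat_lit 65536)))
              (Nat.ble x (Nat.add (nat_lit 65536) (maL m c))))
            (Nat.ble x (Nat.add (nat_lit 65536) q)))
    (tb X.W.P.Q.sm (Nat.mod A 32))

/-- the check of the class `b` of a pair of codes -/
def Px.kB (X : Px) (p b : Nat) : Bool :=
  frc (X.M (Nat.mod p (nat_lit 1073741824))) fun m =>
    Bool.rec (motive := fun _ => Bool) false
      (Nat.beq (mcB m b) (X.J (Nat.div p (nat_lit 1073741824)))) (Nat.ble b (mnB m))

/-- the check of the class `c` of a pair of codes -/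
def Px.kC (X : Px) (p c : Nat) : Bool :=
  frc (X.M (Nat.mod p (nat_lit 1073741824))) fun m =>
    Bool.rec (motive := fun _ => Bool) false
      (Nat.beq (mcC m c) (X.J (Nat.div p (nat_lit 1073741824)))) (Nat.ble c (mnC m))

/-- the classes of the candidate `κ`: `256` times the column plus the row -/
def vfd (v κ : Nat) : Nat :=
  Nat.mod (Nat.shiftRight v (Nat.mul (nat_lit 16) κ)) (nat_lit 65536)

/-- the check of the classes of the candidates of the key `a` -/
def Px.kV (X : Px) (a v : Nat) : Bool :=
  frc (lo a) fun A => frc (rrc A) fun A' => alln (kn (X.W.kt a)) fun j => frc (Nat.succ j) fun κ =>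
    frc (X.W.P.cd a κ) fun u => frc (vfd v κ) fun z =>
      Bool.rec (motive := fun _ => Bool)
        (Bool.rec (motive := fun _ => Bool) false
          (Nat.beq (Nat.div z (nat_lit 256)) (X.C (pr2 A' (lo u))))
          (Nat.beq (Nat.mod z (nat_lit 256)) (X.B (pr2 A (rrc (lo u))))))
        (Nat.beq z (nat_lit 0)) (Nat.ble u (nat_lit 1))

/-- the allowance for the sector behind the edge -/
def Px.ar (X : Px) (A B : Nat) : Nat :=
  frc (X.B (pr2 A B)) fun b => Bool.rec (motive := fun _ => Nat) (maR (X.M A) b) (nat_lit 0)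
    (Nat.beq b (nat_lit 0))

/-- the allowance for the sector before the edge -/
def Px.al (X : Px) (A C : Nat) : Nat :=
  frc (X.C (pr2 A C)) fun c => Bool.rec (motive := fun _ => Nat) (maL (X.M A) c) (nat_lit 0)
    (Nat.beq c (nat_lit 0))

/-- the allowances of the neighbour `u` of the key `a` -/
def Px.ae (X : Px) (a u : Nat) : Nat :=
  Bool.rec (motive := fun _ => Nat)
    (Nat.add (X.ar (lo a) (rrc (lo u))) (X.al (rrc (lo a)) (lo u))) (nat_lit 0)
    (Nat.ble u (nat_lit 1))

/-- the packed gains without allowances -/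
def Px.ga (X : Px) (a K : Nat) : Nat :=
  frc (X.ka a) fun G => Bool.rec (motive := fun _ => Nat) G (kg K) (Nat.beq G (nat_lit 0))

/-- the check of the packed gains `G` of the key `a` -/
def Px.kA (X : Px) (a G : Nat) : Bool :=
  frc (X.W.kt a) fun K => alln (kn K) fun j => frc (Nat.succ j) fun κ =>
    frc (X.W.P.cd a κ) fun u =>
      Nat.ble (gnl (kg K) κ) (Nat.add (gnl G κ) (X.ae a u))

/-- a list is empty -/
def nilb {α : Type} (l : List α) : Bool :=
  List.rec (motive := fun _ => Bool) true (fun _ _ _ => false) l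

/-- no allowances -/
def mz (n : Nat) (f : Nat → Nat) : Bool := alln n fun j => Nat.beq (f (Nat.succ j)) (nat_lit 0)

/-- a key without list of candidates has no allowances -/
def Px.k0 (X : Px) (a : Nat) : Bool :=
  bif nilb (X.W.P.Q.SG.get a) then
    frc (X.M (lo a)) fun m => frc (X.M (rrc (lo a))) fun m' =>
      bif mz (mnB m) (maR m) then mz (mnC m') (maL m') else false
  else true

/-- the blind code of a key can be rotated, and its projection -/
def Px.kr (X : Px) (a : Nat) : Bool :=
  bif Nat.beq (rlc (rrc (lo a))) (lo a) then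
    bif Nat.beq (rlc (X.J (rrc (lo a)))) (X.J (lo a)) then
      bif Nat.beq (rrc (X.J (lo a))) (X.J (rrc (lo a))) then
        bif Nat.ble (rrc (lo a)) 1073741823 then
          bif Nat.ble (mi a) 1 then true else Nat.ble 2 (X.J (mi a))
        else false
      else false
    else false
  else false

/-- the blind code of a key can be rotated; the keys without list of candidates have no
allowances -/
def Px.kW (X : Px) (_k : Nat) (l : List Nat) : Bool :=
  allb (fun a => bif X.kr a then X.k0 a else false) l

/-- the bound of the gain (keys) -/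
def Px.gk (X : Px) (a b : Nat) : Nat := Nat.add (X.W.P.Q.Gn a b) (X.ae a (mi b))

/-- the neighbour with the key `b` is covered -/
def Px.okx (X : Px) (a df : Nat) (cl : List (Nat × Nat)) (b : Nat) : Bool :=
  bif X.W.P.pcs (slf a) (lo a) (slf b) (lo b) then true else
    frc (X.gk a b) fun g => bif Nat.ble g df then true else lst g (mi b) cl

/-- the list of the candidates of the key `a` is complete -/
def Px.soc (X : Px) (WL : BT (List Nat)) (a : Nat) (L : List (Nat × Nat)) : Bool :=
  List.rec (motive := fun _ => Bool) true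
    (fun q cl _ =>
      bif (bif Nat.ble (Nat.sub X.W.P.Q.sh (X.W.P.nk a)) q.1 then true else
        lst (Nat.sub X.W.P.Q.sh (X.W.P.nk a)) 1 cl) then
        (fun la fa : Nat =>
          alln 32 fun f => bif X.W.P.Q.cme f la then
            alln 32 fun l => bif X.W.P.Q.cme fa l then
              allb (X.okx a q.1 cl) (WL.get (Nat.add f (Nat.mul 32 l))) else true
          else true) (Nat.div (hi a) 32) (Nat.mod (hi a) 32)
      else false) L

/-- the keys `bs` are covered, as far as they are possible -/
def Px.oks (X : Px) (a la fa df : Nat) (cl : List (Nat × Nat)) (bs : List Nat) : Bool :=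
  allb (fun b => bif (bif X.W.P.Q.cme (Nat.mod (hi b) 32) la then
    X.W.P.Q.cme fa (Nat.div (hi b) 32) else false) then X.okx a df cl b else true) bs

/-- the keys with the projected blind code `C` are covered -/
def Px.ok8 (X : Px) (WN : BT (List Nat)) (a la fa df : Nat) (cl : List (Nat × Nat)) (C : Nat) :
    Bool :=
  alln 8 fun f => X.oks a la fa df cl (WN.get (Nat.add C (Nat.mul (nat_lit 1073741824) f)))

/-- The list of the candidates of the key `a` is complete, fast check: only the entries of the tables
with a larger gain than the default are considered; `WM` the keys of a flagged blind code, `WN` of a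
projected flagged blind code. -/
def Px.so3 (X : Px) (WL WM WN : BT (List Nat)) (a : Nat) (L : List (Nat × Nat)) : Bool :=
  List.rec (motive := fun _ => Bool) true
    (fun q cl _ =>
      bif (bif Nat.ble X.W.P.Q.sh q.1 then Nat.ble (rrc (lo a)) 1073741823 else false) then
        (fun la fa : Nat => frc (lo a) fun A => frc (rrc A) fun A' =>
          bif ala (fun p => bif Nat.ble (Nat.add p.1 (X.ae a p.2)) q.1 then true else
              X.oks a la fa q.1 cl (WM.get p.2)) (X.W.P.Q.T.get a) then
            bif frc (X.M A) (fun m => alln (mnB m) fun j => frc (Nat.succ j) fun b =>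
              frc (rlc (mcB m b)) fun C =>
                bif Nat.ble (Nat.add X.W.P.Q.sh (Nat.add (maR m b) (X.al A' C))) q.1 then true
                else X.ok8 WN a la fa q.1 cl C) then
              frc (X.M A') (fun m => alln (mnC m) fun j => frc (Nat.succ j) fun c =>
                frc (mcC m c) fun C =>
                  bif Nat.ble (Nat.add X.W.P.Q.sh (Nat.add (X.ar A (rrc C)) (maL m c))) q.1 then
                    true else X.ok8 WN a la fa q.1 cl C)
            else false
          else false) (Nat.div (hi a) 32) (Nat.mod (hi a) 32)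
      else X.soc WL a L) L

/-- the correction for the right neighbour: `b` the own class (row), `a` the shift of the right
position, `V` the classes of its candidates -/
def crR (w m b a V Z s : Nat) : Nat :=
  Bool.rec (motive := fun _ => Nat)
    (frc (Nat.mod (Nat.shiftRight Z a) (Nat.pow (nat_lit 2) w)) fun z =>
      Bool.rec (motive := fun _ => Nat)
        (frc (Nat.div (vfd V (lgm z)) (nat_lit 256)) fun c =>
          Bool.rec (motive := fun _ => Nat)
            (frc (mrw m b) fun r => Nat.sub (Nat.add s (rfd r c)) (nat_lit 65536)) s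
            (Nat.beq c (nat_lit 0))) s
        (Nat.beq z (nat_lit 0))) s
    (Nat.beq b (nat_lit 0))

/-- the correction for the left neighbour: `c` the own class (column) -/
def crL (w m c a V Z s : Nat) : Nat :=
  Bool.rec (motive := fun _ => Nat)
    (frc (Nat.mod (Nat.shiftRight Z a) (Nat.pow (nat_lit 2) w)) fun z =>
      Bool.rec (motive := fun _ => Nat)
        (frc (Nat.mod (vfd V (lgm z)) (nat_lit 256)) fun b =>
          Bool.rec (motive := fun _ => Nat)
            (frc (mrw m b) fun r => Nat.sub (Nat.add s (rfd r c)) (nat_lit 65536)) s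
            (Nat.beq b (nat_lit 0))) s
        (Nat.beq z (nat_lit 0))) s
    (Nat.beq c (nat_lit 0))

/-- the value of the right neighbour, `z` its chosen bit -/
def cAR (m b V z : Nat) : Nat :=
  Bool.rec (motive := fun _ => Nat)
    (Bool.rec (motive := fun _ => Nat)
      (Nat.rec (motive := fun _ => Nat) (nat_lit 0) (fun c _ =>
        Bool.rec (motive := fun _ => Nat)
          (Nat.rec (motive := fun _ => Nat) (nat_lit 0) (fun r _ => rfd r c)
            (Nat.add (mrw m b) (nat_lit 1))) (nat_lit 65536) (Nat.beq c (nat_lit 0)))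
        (Nat.add (Nat.div (vfd V (lgm z)) (nat_lit 256)) (nat_lit 1))) (nat_lit 65536)
      (Nat.beq z (nat_lit 0))) (nat_lit 65536)
    (Nat.beq b (nat_lit 0))

/-- the value of the left neighbour, `z` its chosen bit -/
def cAL (m c V z : Nat) : Nat :=
  Bool.rec (motive := fun _ => Nat)
    (Bool.rec (motive := fun _ => Nat)
      (Nat.rec (motive := fun _ => Nat) (nat_lit 0) (fun b _ =>
        Bool.rec (motive := fun _ => Nat)
          (Nat.rec (motive := fun _ => Nat) (nat_lit 0) (fun r _ => rfd r c)
            (Nat.add (mrw m b) (nat_lit 1))) (nat_lit 65536) (Nat.beq b (nat_lit 0)))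
        (Nat.add (Nat.mod (vfd V (lgm z)) (nat_lit 256)) (nat_lit 1))) (nat_lit 65536)
      (Nat.beq z (nat_lit 0))) (nat_lit 65536)
    (Nat.beq c (nat_lit 0))

theorem nrc {β : Type} (d : β) (x : Nat) (K : Nat → β) :
    (Nat.rec (motive := fun _ => β) d (fun n _ => K n) (Nat.add x (nat_lit 1)) : β) = K x := rfl

theorem sac (s m : Nat) : s = Nat.sub (Nat.add s m) m := (Nat.add_sub_cancel (n := s) (m := m)).symm

theorem gen1 (b1 b2 : Bool) (c s q : Nat) (g : Nat → Nat) (h : Nat → Nat → Nat) :
    (Bool.rec (motive := fun _ => Nat)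
      (Bool.rec (motive := fun _ => Nat)
        (frc c fun c => Bool.rec (motive := fun _ => Nat)
          (frc (g c) fun r => Nat.sub (Nat.add s (h r c)) q) s (Nat.beq c (nat_lit 0))) s b2) s b1 : Nat) =
    Nat.sub (Nat.add s (Bool.rec (motive := fun _ => Nat)
      (Bool.rec (motive := fun _ => Nat)
        (Nat.rec (motive := fun _ => Nat) (nat_lit 0) (fun c _ =>
          Bool.rec (motive := fun _ => Nat)
            (Nat.rec (motive := fun _ => Nat) (nat_lit 0) (fun r _ => h r c)
              (Nat.add (g c) (nat_lit 1))) q (Nat.beq c (nat_lit 0)))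
          (Nat.add c (nat_lit 1))) q b2) q b1)) q := by
  have e := sac s q
  simp only [frc_eq]
  cases b1
  · cases b2
    · show (Bool.rec (motive := fun _ => Nat) (Nat.sub (Nat.add s (h (g c) c)) q) s (Nat.beq c 0) : Nat) =
        Nat.sub (Nat.add s (Bool.rec (motive := fun _ => Nat) (h (g c) c) q (Nat.beq c 0))) q
      cases Nat.beq c 0
      · rfl
      · exact e
    · exact e
  · exact e

theorem crR_eq (w m b a V Z s : Nat) : crR w m b a V Z s =
    Nat.sub (Nat.add s (cAR m b V (Nat.mod (Nat.shiftRight Z a) (Nat.pow (nat_lit 2) w))))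
      (nat_lit 65536) := by
  unfold crR cAR
  generalize Nat.mod (Nat.shiftRight Z a) (Nat.pow (nat_lit 2) w) = z
  rw [frc_eq z]
  exact gen1 _ _ _ _ _ _ rfd

theorem crL_eq (w m c a V Z s : Nat) : crL w m c a V Z s =
    Nat.sub (Nat.add s (cAL m c V (Nat.mod (Nat.shiftRight Z a) (Nat.pow (nat_lit 2) w))))
      (nat_lit 65536) := by
  unfold crL cAL
  generalize Nat.mod (Nat.shiftRight Z a) (Nat.pow (nat_lit 2) w) = z
  rw [frc_eq z]
  exact gen1 _ _ _ _ _ _ (fun r _ => rfd r c)

/-- the new sum with both neighbours; the values are functions of the chosen bits -/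
def axs (w aR aL mR mL V VR VL G κ Z s : Nat) : Nat :=
  Nat.rec (motive := fun _ => Nat) (nat_lit 0) (fun zR _ =>
    Nat.rec (motive := fun _ => Nat) (nat_lit 0) (fun zL _ =>
      Nat.sub (Nat.add (Nat.sub (Nat.add (Nat.add s (gnl G κ))
        (cAR mR (Nat.mod (vfd V κ) (nat_lit 256)) VR zR)) (nat_lit 65536))
        (cAL mL (Nat.div (vfd V κ) (nat_lit 256)) VL zL)) (nat_lit 65536))
      (Nat.add (Nat.mod (Nat.shiftRight Z aL) (Nat.pow (nat_lit 2) w)) (nat_lit 1)))
    (Nat.add (Nat.mod (Nat.shiftRight Z aR) (Nat.pow (nat_lit 2) w)) (nat_lit 1))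

theorem axs_eq (w aR aL mR mL V VR VL G κ Z s : Nat) : axs w aR aL mR mL V VR VL G κ Z s =
    frc (vfd V κ) fun v =>
      frc (crR w mR (Nat.mod v (nat_lit 256)) aR VR Z (Nat.add s (gnl G κ)))
        (crL w mL (Nat.div v (nat_lit 256)) aL VL Z) := by
  unfold axs
  rw [frc_eq, frc_eq, crR_eq, crL_eq]

/-- a position -/
def Px.pq (X : Px) (c d k i N : Nat) : PX :=
  frc (X.W.kr c i) fun K => frc (X.ga (X.W.ke c i) K) fun G =>
    frc (X.M (lo (X.W.ke c i))) fun mR => frc (X.M (lo (X.W.ke c (prv d i)))) fun mL =>
      Bool.rec (motive := fun _ => PX)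
        (frc (X.V (X.W.ke c i)) fun V => frc (X.V (X.W.ke c (nxt d i))) fun VR =>
          frc (X.V (X.W.ke c (prv d i))) fun VL =>
            ⟨Nat.mul X.W.P.w i, Nat.sub (Nat.pow 2 (Nat.add (kn K) 1)) 1,
              kg K, Nat.add (kn K) 64, fun κ Z => X.W.rfn c d k i (kn K) N κ Z,
              axs X.W.P.w (Nat.mul X.W.P.w (nxt d i)) (Nat.mul X.W.P.w (prv d i)) mR mL V VR VL G⟩)
        ⟨Nat.mul X.W.P.w i, Nat.sub (Nat.pow 2 (Nat.add (kn K) 1)) 1,
          kg K, Nat.add (kn K) 64, fun κ Z => X.W.rfn c d k i (kn K) N κ Z,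
          fun κ _ s => Nat.add s (gnl G κ)⟩
        (Nat.beq (Nat.add mR mL) (nat_lit 0))

/-- the positions in the given order -/
def Px.pqs (X : Px) (c d k : Nat) (NL : List Nat) (ord : List Nat) : List PX :=
  List.rec (motive := fun _ => List PX) []
    (fun i _ ih => sl6 (fun i => X.pq c d k i (nth NL i)) i :: ih) ord

/-- the check of a leaf: no null neighbour in `ns`, one null neighbour, two null neighbours -/
def Px.lfn (X : Px) (c d : Nat) (ns : List Nat) (ps : List PX) (m : Nat) : Bool :=
  bif gon3 (X.W.P.Q.thr c) ps (rmv m (X.W.P.x0 c ns)) 0 0 then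
    bif allb (fun i => bif Nat.ble (Nat.succ i) d then
        gon3 (Nat.add (X.W.P.Q.thr c) X.W.P.dl) ps (rmv m (Nat.lor (X.W.P.nlo c i)
          (X.W.P.x1 c i d))) 0 0
      else false) ns then
      alln d fun i => bif (bif tb X.W.P.Q.sm (dg (Nat.pow 32 i) c) then
          (bif mem i ns then true else mem (nxt d i) ns) else false) then
        gon3 (X.W.P.Q.thr c) ps (rmv m (Nat.lor (X.W.P.nlo c i) (sl6 (X.W.P.nlo c) (nxt d i))))
          0 0
      else true
    else false
  else false

/-- the check of a leaf -/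
def Px.lfc (X : Px) (c d k : Nat) (o x s u : Nat) (NL V : List Nat) : Bool :=
  Bool.rec (motive := fun _ => Bool) false
    (Bool.rec (motive := fun _ => Bool) false
      (Bool.rec (motive := fun _ => Bool) false
        (List.rec (motive := fun _ => Bool)
          (gon3 (X.W.P.Q.thr c) (X.pqs c d k NL (dN 3 o)) (X.W.m0 c d (dN 11 x) (dN 36 u)) 0 0)
          (fun _ _ _ => X.lfn c d (dN 3 s) (X.pqs c d k NL (dN 3 o))
            (X.W.m0 c d (dN 11 x) (dN 36 u))) (dN 3 s))
        (frc (av2 X.W.lv V) fun AV => frc (av2 X.W.lm (rvl V)) fun AW =>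
          Bool.rec (motive := fun _ => Bool) false
            (alln d fun i => X.W.cks c d k AV AW i (kn (X.W.kr c i)) (nth NL i))
            (ala (X.W.fqz c d AV AW 0 0) (dN 36 u))))
      (ala (fun t => frc t (X.W.P.ux c d k V)) (dN 11 x)))
    (okOrd d (dN 3 o))

/-- the check of a tree -/
def Px.ckt (X : Px) (c d k : Nat) (t : Tr2) : List Nat → Nat → List Nat → Bool :=
  Tr2.rec (motive := fun _ => List Nat → Nat → List Nat → Bool)
    (fun o x s u NL V _ _ => X.lfc c d k o x s u NL V)
    (fun n V _ _ => fq X.W.FN d (av2 X.W.lv V) (av2 X.W.lm (rvl V)) 0 0 n)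
    (fun i _ ih V _ _ => bif Nat.ble (Nat.succ i) d then ih V i (X.W.P.lg (gtk V i)) else false)
    (fun _ _ iha iht V i L => List.rec (motive := fun _ => Bool) true
      (fun x L' _ => bif (bif X.W.P.imp k x (gtk V (prv d i)) (gtk V (nxt d i)) then true else
          iha (stk x V i) i [x]) then
        iht V i L' else false) L)
    (fun _ _ L => List.rec (motive := fun _ => Bool) true (fun _ _ _ => false) L) t

/-- the classes of the candidates of the position `i` are known, if they are used -/
def Px.kc (X : Px) (c d i : Nat) : Bool :=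
  bif Nat.beq (Nat.add (X.M (lo (X.W.ke c i))) (X.M (lo (X.W.ke c (prv d i))))) (nat_lit 0) then
    true else Nat.ble (nat_lit 1) (X.V (X.W.ke c i))

/-- the trees which are checked without the flows on the triangles -/
def Px.old (X : Px) (k : Nat) (t : Tr2) : Bool :=
  bif ded2 t then true else alln (dgn k) fun i => Nat.beq (X.M (lo (X.W.ke k i))) (nat_lit 0)

/-- The check of an entry of the table of the centres (no records of keys for dead trees). -/
def Px.ckc (X : Px) (k : Nat) (l : List CE2) : Bool :=
  List.rec (motive := fun _ => Bool) true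
    (fun E _ ih => bif Nat.beq E.c k then
      bif (bif ded2 E.t then true else alln (dgn k) (fun i => Nat.ble 1 (X.W.kr k i))) then
        bif (bif X.old k E.t then
            X.W.ckt k (dgn k) (wsl X.W.P.Q.wm k) E.t (X.W.P.v0 k) 0 (X.W.P.lg (gtk (X.W.P.v0 k) 0))
          else bif alln (dgn k) (fun i => X.kc k (dgn k) i) then
            X.ckt k (dgn k) (wsl X.W.P.Q.wm k) E.t (X.W.P.v0 k) 0 (X.W.P.lg (gtk (X.W.P.v0 k) 0))
          else false)
          then ih else false
      else false
    else false) l

/-- the projection of the codes: the tables do not see it -/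
structure Jx (X : Px) : Prop where
  i : ∀ u, X.J (X.J u) = X.J u
  m : ∀ u, lo (X.J u) = X.J (lo u)
  d : ∀ u, X.J u / 1073741824 = u / 1073741824
  M : ∀ A, X.M (X.J A) = X.M A
  B1 : ∀ A B, A < 1073741824 → X.B (pr2 (X.J A) B) = X.B (pr2 A B)
  B2 : ∀ A B, A < 1073741824 → X.B (pr2 A (X.J B)) = X.B (pr2 A B)
  C1 : ∀ A B, A < 1073741824 → X.C (pr2 (X.J A) B) = X.C (pr2 A B)
  C2 : ∀ A B, A < 1073741824 → X.C (pr2 A (X.J B)) = X.C (pr2 A B)

/-- The checks of the tables. -/
structure Kt (X : Px) (WL : BT (List Nat)) : Prop where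
  j : Jx X
  kM : ∀ A, X.M A ≠ 0 → X.kM A (X.M A) = true
  kB : ∀ p, X.B p ≠ 0 → X.kB p (X.B p) = true
  kC : ∀ p, X.C p ≠ 0 → X.kC p (X.C p) = true
  kV : ∀ a, X.V a ≠ 0 → X.kV a (X.V a) = true
  kA : ∀ a, X.ka a ≠ 0 → X.kA a (X.ka a) = true
  so : X.W.P.Q.SG.allB (X.soc WL) = true
  kW : WL.allB X.kW = true

end

end Pool.FCP
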