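import Pool.Agent.FCP.Xc

/-!
# Star check with flows on triangles: the search
-/

namespace Pool.FCP

open Pool.FCS

open Finset

noncomputable section

/-! ### The corrections -/

theorem zbits {Z a w κ : Nat} (hκ : κ < w) (h : ∀ k < w, Nat.testBit Z (a + k) = true ↔ k = κ) :
    Nat.mod (Nat.shiftRight Z a) (Nat.pow 2 w) = 2 ^ κ := by
  have e : Nat.mod (Nat.shiftRight Z a) (Nat.pow 2 w) = (Z >>> a) % 2 ^ w := rfl
  rw [e]
  apply Nat.eq_of_testBit_eq
  intro k
  rw [Nat.testBit_mod_two_pow, Nat.testBit_shiftRight, Nat.testBit_two_pow]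
  by_cases hk : k < w
  · have h1 := h k hk
    rw [decide_eq_true hk, Bool.true_and]
    by_cases hkκ : κ = k
    · rw [decide_eq_true hkκ]
      exact h1.2 hkκ.symm
    · rw [decide_eq_false hkκ]
      cases h2 : Nat.testBit Z (a + k) with
      | false => rfl
      | true => exact absurd (h1.1 h2).symm hkκ
  · rw [decide_eq_false hk, decide_eq_false (show ¬ κ = k by omega)]
    rfl

theorem zbits0 {Z a w : Nat} (h : ∀ k < w, ¬ Nat.testBit Z (a + k) = true) :
    Nat.mod (Nat.shiftRight Z a) (Nat.pow 2 w) = 0 := by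
  have e : Nat.mod (Nat.shiftRight Z a) (Nat.pow 2 w) = (Z >>> a) % 2 ^ w := rfl
  rw [e]
  apply Nat.eq_of_testBit_eq
  intro k
  rw [Nat.testBit_mod_two_pow, Nat.testBit_shiftRight, Nat.zero_testBit]
  by_cases hk : k < w
  · rw [decide_eq_true hk, Bool.true_and]
    cases h2 : Nat.testBit Z (a + k) with
    | false => rfl
    | true => exact absurd h2 (h k hk)
  · rw [decide_eq_false hk]
    rfl

theorem beq_zero_of {n : Nat} (h : n ≠ 0) : Nat.beq n 0 = false := by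
  rw [← Bool.not_eq_true]
  intro h1
  exact h (Nat.eq_of_beq_eq_true h1)

theorem xbc_b0 (m c : Nat) : xbc m 0 c = 65536 := rfl

theorem xbc_c0 (m b : Nat) : xbc m b 0 = 65536 := by
  unfold xbc
  cases Nat.beq b 0 <;> rfl

theorem xbc_pos {m b c : Nat} (hb : b ≠ 0) (hc : c ≠ 0) : xbc m b c = rfd (mrw m b) c := by
  unfold xbc
  rw [beq_zero_of hb, beq_zero_of hc]
  rfl

theorem crR_zero {w m b a V Z s : Nat}
    (h : Nat.mod (Nat.shiftRight Z a) (Nat.pow 2 w) = 0) : crR w m b a V Z s = s := by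
  unfold crR
  rw [frc_eq, h]
  cases Nat.beq b 0 <;> rfl

theorem crL_zero {w m b a V Z s : Nat}
    (h : Nat.mod (Nat.shiftRight Z a) (Nat.pow 2 w) = 0) : crL w m b a V Z s = s := by
  unfold crL
  rw [frc_eq, h]
  cases Nat.beq b 0 <;> rfl

theorem crR_le {w m b a V Z s κ : Nat}
    (h : Nat.mod (Nat.shiftRight Z a) (Nat.pow 2 w) = 2 ^ κ) :
    (s : ℤ) + ((xbc m b (Nat.div (vfd V κ) 256) : ℤ) - 65536) ≤ (crR w m b a V Z s : ℤ) := by
  unfold crR
  rw [frc_eq, h]
  by_cases hb : b = 0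
  · subst hb
    rw [xbc_b0]
    show (s : ℤ) + ((65536 : Nat) - 65536 : ℤ) ≤ (s : ℤ)
    simp
  · rw [beq_zero_of hb, beq_zero_of (show 2 ^ κ ≠ 0 by positivity)]
    dsimp only
    rw [frc_eq, lgm_eq, Nat.log2_two_pow]
    by_cases hc : Nat.div (vfd V κ) 256 = 0
    · rw [hc, xbc_c0]
      show (s : ℤ) + ((65536 : Nat) - 65536 : ℤ) ≤ (s : ℤ)
      simp
    · rw [beq_zero_of hc, xbc_pos hb hc]
      dsimp only
      rw [frc_eq]
      have e : Nat.sub (Nat.add s (rfd (mrw m b) (Nat.div (vfd V κ) 256))) 65536 =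
        (s + rfd (mrw m b) (Nat.div (vfd V κ) 256)) - 65536 := rfl
      rw [e]
      omega

theorem crL_le {w m c a V Z s κ : Nat}
    (h : Nat.mod (Nat.shiftRight Z a) (Nat.pow 2 w) = 2 ^ κ) :
    (s : ℤ) + ((xbc m (Nat.mod (vfd V κ) 256) c : ℤ) - 65536) ≤ (crL w m c a V Z s : ℤ) := by
  unfold crL
  rw [frc_eq, h]
  by_cases hc : c = 0
  · subst hc
    rw [xbc_c0]
    show (s : ℤ) + ((65536 : Nat) - 65536 : ℤ) ≤ (s : ℤ)
    simp
  · rw [beq_zero_of hc, beq_zero_of (show 2 ^ κ ≠ 0 by positivity)]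
    dsimp only
    rw [frc_eq, lgm_eq, Nat.log2_two_pow]
    by_cases hb : Nat.mod (vfd V κ) 256 = 0
    · rw [hb, xbc_b0]
      show (s : ℤ) + ((65536 : Nat) - 65536 : ℤ) ≤ (s : ℤ)
      simp
    · rw [beq_zero_of hb, xbc_pos hb hc]
      dsimp only
      rw [frc_eq]
      have e : Nat.sub (Nat.add s (rfd (mrw m (Nat.mod (vfd V κ) 256)) c)) 65536 =
        (s + rfd (mrw m (Nat.mod (vfd V κ) 256)) c) - 65536 := rfl
      rw [e]
      omega

theorem Px.x_eq (X : Px) (A B C : Nat) :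
    X.x A B C = xbc (X.M A) (X.B (pr2 A B)) (X.C (pr2 A C)) := rfl

/-! ### The gains of the sectors of a centre -/

section sound

variable {D : Type*} {cmp cmp' cmpS : Nat → Nat → Bool} {sol sol' lng : Nat → Bool}
  {S : Sys D} {cc f : Nat → Nat} {X : Px} {WL : BT (List Nat)} {le : Nat → Nat → Bool}
  {ml : Nat → Nat} {e : D}

/-- the row of the neighbour `i` for the sector behind it -/
def Px.cb (X : Px) (Y : Sys D) (e : D) (i : Nat) : Nat :=
  if X.W.P.nfy Y e i ≤ 1 then 0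
  else X.B (pr2 (lo (X.W.ke (Y.c e) i)) (rrc (lo (X.W.P.nfy Y e i))))

/-- the column of the neighbour `i` for the sector before it -/
def Px.ct (X : Px) (Y : Sys D) (e : D) (i : Nat) : Nat :=
  if X.W.P.nfy Y e i ≤ 1 then 0
  else X.C (pr2 (rrc (lo (X.W.ke (Y.c e) i))) (lo (X.W.P.nfy Y e i)))

/-- the gain at the sector behind the position `i` -/
def Px.xi (X : Px) (Y : Sys D) (e : D) (d i : Nat) : ℤ :=
  (xbc (X.M (lo (X.W.ke (Y.c e) i))) (X.cb Y e i) (X.ct Y e (nxt d i)) : ℤ) - 65536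

/-- the allowance for the sector behind the position -/
def Px.arr (X : Px) (Y : Sys D) (e : D) (i : Nat) : Nat :=
  if X.W.P.nfy Y e i ≤ 1 then 0
  else X.ar (lo (X.W.ke (Y.c e) i)) (rrc (lo (X.W.P.nfy Y e i)))

/-- the allowance for the sector before the position -/
def Px.all (X : Px) (Y : Sys D) (e : D) (i : Nat) : Nat :=
  if X.W.P.nfy Y e i ≤ 1 then 0
  else X.al (rrc (lo (X.W.ke (Y.c e) i))) (lo (X.W.P.nfy Y e i))

theorem ae_eq (Y : Sys D) (i : Nat) :
    X.ae (X.W.ke (Y.c e) i) (X.W.P.nfy Y e i) = X.arr Y e i + X.all Y e i := by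
  unfold Px.ae Px.arr Px.all
  by_cases h : X.W.P.nfy Y e i ≤ 1
  · rw [if_pos h, if_pos h, Nat.ble_eq_true_of_le h]
  · have h1 : Nat.ble (X.W.P.nfy Y e i) 1 = false := by
      rw [← Bool.not_eq_true, Nat.ble_eq]; exact h
    rw [if_neg h, if_neg h, h1]
    rfl

theorem lo_lt (n : Nat) : lo n < 1073741824 := Nat.mod_lt _ (by norm_num)

/-- the code of the previous sector -/
theorem lo_prv (hv : Hv cmpS cmp cmp' sol sol' S cc f X.W.P le) (he : S.W e ≠ []) {i : Nat}
    (hi : i < (S.W e).length) : rrc (lo (X.W.ke ((S.mp cc).c e) i)) =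
      lo (X.W.ke ((S.mp cc).c e) (prv (S.W e).length i)) := by
  have hY := hv.h2.ok
  have he' : (S.mp cc).W e ≠ [] := mp_ne.2 he
  have hb := hv.h2.hb
  unfold Pw.ke
  rw [rot_c hY he' i, rot_c hY he' (prv (S.W e).length i)]
  have e1 : ∀ j, lo (X.W.P.Q.ky ((S.mp cc).c ((S.mp cc).nx^[j] e))) =
      blc X.W.P.Q.bm ((S.mp cc).c ((S.mp cc).nx^[j] e)) := fun j => lo_kfc (hb.lt hY _)
  rw [e1, e1]
  have e2 : (S.mp cc).nx^[i] e = (S.mp cc).nx ((S.mp cc).nx^[prv (S.W e).length i] e) := by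
    have h1 := nx_nxt hY he' (prv (S.W e).length i)
    rw [mlen, nxt_prv hi] at h1
    exact h1
  rw [e2, hb.bl hY, hb.bl hY]
  exact hv.h2.ok'.c_pr (mp_ne.2 (hY.ne_iter he' _))

theorem nxt_inj {d i j : Nat} (h : nxt d i = nxt d j) : i = j := by
  unfold nxt at h
  cases h1 : Nat.beq (Nat.succ i) d with
  | true =>
    have h1' := Nat.eq_of_beq_eq_true h1
    cases h2 : Nat.beq (Nat.succ j) d with
    | true =>
      have h2' := Nat.eq_of_beq_eq_true h2
      omega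
    | false =>
      rw [h1, h2] at h
      exact absurd h (by simp)
  | false =>
    cases h2 : Nat.beq (Nat.succ j) d with
    | true =>
      rw [h1, h2] at h
      exact absurd h (by simp)
    | false =>
      rw [h1, h2] at h
      have h' : Nat.succ i = Nat.succ j := h
      omega

theorem prv_nxt {d i : Nat} (hi : i < d) : prv d (nxt d i) = i := by
  have h1 := nxt_prv (nxt_lt hi)
  exact nxt_inj h1

theorem lo_nxt (hv : Hv cmpS cmp cmp' sol sol' S cc f X.W.P le) (he : S.W e ≠ []) {i : Nat}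
    (hi : i < (S.W e).length) :
    rrc (lo (X.W.ke ((S.mp cc).c e) (nxt (S.W e).length i))) =
      lo (X.W.ke ((S.mp cc).c e) i) := by
  have h1 := lo_prv hv he (nxt_lt hi)
  rw [prv_nxt hi] at h1
  exact h1

theorem xi_arr (hx : Kt X WL) (hv : Hv cmpS cmp cmp' sol sol' S cc f X.W.P le) (he : S.W e ≠ [])
    {i : Nat} (hi : i < (S.W e).length) :
    X.xi (S.mp cc) e (S.W e).length i ≤ X.arr (S.mp cc) e i := by
  unfold Px.xi Px.arr Px.cb Px.ct
  by_cases h1 : X.W.P.nfy (S.mp cc) e i ≤ 1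
  · rw [if_pos h1, if_pos h1, xbc_b0]
    simp
  · rw [if_neg h1, if_neg h1]
    by_cases h2 : X.W.P.nfy (S.mp cc) e (nxt (S.W e).length i) ≤ 1
    · rw [if_pos h2, xbc_c0]
      simp
    · rw [if_neg h2, lo_nxt hv he hi, ← Px.x_eq]
      have := hx.xar (A := lo (X.W.ke ((S.mp cc).c e) i))
        (B := rrc (lo (X.W.P.nfy (S.mp cc) e i)))
        (C := lo (X.W.P.nfy (S.mp cc) e (nxt (S.W e).length i))) (lo_lt _)
      omega

theorem xi_all (hx : Kt X WL) (hv : Hv cmpS cmp cmp' sol sol' S cc f X.W.P le) (he : S.W e ≠ [])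
    {i : Nat} (hi : i < (S.W e).length) :
    X.xi (S.mp cc) e (S.W e).length i ≤ X.all (S.mp cc) e (nxt (S.W e).length i) := by
  unfold Px.xi Px.cb
  by_cases h1 : X.W.P.nfy (S.mp cc) e i ≤ 1
  · rw [if_pos h1, xbc_b0]
    simp
  · rw [if_neg h1]
    unfold Px.all Px.ct
    by_cases h2 : X.W.P.nfy (S.mp cc) e (nxt (S.W e).length i) ≤ 1
    · rw [if_pos h2, if_pos h2, xbc_c0]
      simp
    · rw [if_neg h2, if_neg h2, lo_nxt hv he hi, ← Px.x_eq]
      have := hx.xal (A := lo (X.W.ke ((S.mp cc).c e) i))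
        (B := rrc (lo (X.W.P.nfy (S.mp cc) e i)))
        (C := lo (X.W.P.nfy (S.mp cc) e (nxt (S.W e).length i))) (lo_lt _)
      omega

/-- no matrix, no class -/
theorem cb_zero (hx : Kt X WL) {Y : Sys D} {i : Nat} (h : X.M (lo (X.W.ke (Y.c e) i)) = 0) :
    X.cb Y e i = 0 := by
  unfold Px.cb
  by_cases h1 : X.W.P.nfy Y e i ≤ 1
  · rw [if_pos h1]
  · rw [if_neg h1]
    exact hx.b0 (lo_lt _) h

theorem xi_zero (hx : Kt X WL) {Y : Sys D} {d i : Nat} (h : X.M (lo (X.W.ke (Y.c e) i)) = 0) :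
    X.xi Y e d i = 0 := by
  unfold Px.xi
  rw [cb_zero hx h, xbc_b0]
  simp

theorem ct_zero (hx : Kt X WL) (hv : Hv cmpS cmp cmp' sol sol' S cc f X.W.P le) (he : S.W e ≠ [])
    {i : Nat} (hi : i < (S.W e).length)
    (h : X.M (lo (X.W.ke ((S.mp cc).c e) (prv (S.W e).length i))) = 0) :
    X.ct (S.mp cc) e i = 0 := by
  unfold Px.ct
  by_cases h1 : X.W.P.nfy (S.mp cc) e i ≤ 1
  · rw [if_pos h1]
  · rw [if_neg h1, lo_prv hv he hi]
    exact hx.c0 (lo_lt _) h

/-- the classes of the candidate which is the neighbour -/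
theorem vfd_ok (hx : Kt X WL) (hv : Hv cmpS cmp cmp' sol sol' S cc f X.W.P le)
    (hK : Kk X.W ((S.mp cc).c e) (S.W e).length) {i : Nat} (hi : i < (S.W e).length)
    (h0 : X.W.P.kp (S.mp cc) e i ≠ 0) (hV : X.V (X.W.ke ((S.mp cc).c e) i) ≠ 0) :
    Nat.mod (vfd (X.V (X.W.ke ((S.mp cc).c e) i)) (X.W.P.kp (S.mp cc) e i)) 256 =
        X.cb (S.mp cc) e i ∧
      Nat.div (vfd (X.V (X.W.ke ((S.mp cc).c e) i)) (X.W.P.kp (S.mp cc) e i)) 256 =
        X.ct (S.mp cc) e i := by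
  have hp := kok_kp (hK i hi)
  have q1 : (X.W.P.ps ((S.mp cc).c e) i).cl = (X.W.P.Q.pos (X.W.ke ((S.mp cc).c e) i) 0).cl :=
    Pm.pos_cl _ _ _
  have hn : (X.W.P.ps ((S.mp cc).c e) i).cl.length = kn (X.W.kr ((S.mp cc).c e) i) := by
    rw [q1]; exact hp.n
  have hkl : X.W.P.kp (S.mp cc) e i ≤ kn (X.W.kr ((S.mp cc).c e) i) := by
    rw [← hn]; exact ix_le _ _
  have h1 := hx.kV _ hV
  unfold Px.kV at h1
  rw [frc_eq, frc_eq] at h1
  obtain ⟨k, hk⟩ : ∃ k, X.W.P.kp (S.mp cc) e i = k + 1 := ⟨X.W.P.kp (S.mp cc) e i - 1, by omega⟩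
  have h2 := alln_iff.1 h1 k (by
    show k < kn (X.W.kr ((S.mp cc).c e) i)
    omega)
  rw [frc_eq, frc_eq, frc_eq] at h2
  have e1 : Nat.succ k = X.W.P.kp (S.mp cc) e i := hk.symm
  rw [e1, cd_kp hv h0] at h2
  unfold Px.cb Px.ct
  by_cases h3 : X.W.P.nfy (S.mp cc) e i ≤ 1
  · rw [Nat.ble_eq_true_of_le h3] at h2
    have h4 := Nat.eq_of_beq_eq_true (show Nat.beq _ _ = true from h2)
    rw [h4, if_pos h3, if_pos h3]
    exact ⟨rfl, rfl⟩
  · have h3' : Nat.ble (X.W.P.nfy (S.mp cc) e i) 1 = false := by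
      rw [← Bool.not_eq_true, Nat.ble_eq]; exact h3
    rw [h3'] at h2
    dsimp only at h2
    rw [brec_and] at h2
    rw [if_neg h3, if_neg h3]
    exact ⟨Nat.eq_of_beq_eq_true h2.1, Nat.eq_of_beq_eq_true h2.2⟩

/-- the position is correct for the neighbour `b`, with allowances -/
def Px.PosOk3 (X : Px) (a b : Nat) : Prop :=
  X.W.P.G2 a b + X.ae (X.W.P.Q.ky a) (X.W.P.Q.nz b) ≤ (X.W.P.Q.pos (X.W.P.Q.ky a) 0).df ∨
    ∃ g, (g, X.W.P.Q.nz b) ∈ (X.W.P.Q.pos (X.W.P.Q.ky a) 0).cl ∧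
      X.W.P.G2 a b + X.ae (X.W.P.Q.ky a) (X.W.P.Q.nz b) ≤ g

/-- what the search adds at the position `i` after the positions `pre` -/
def Px.inc (X : Px) (Y : Sys D) (e : D) (d : Nat) (pre : List Nat) (i : Nat) : ℤ :=
  if X.W.P.kp Y e i = 0 then (X.arr Y e i : ℤ) + X.all Y e i else
    (if nxt d i ∈ pre ∧ X.W.P.kp Y e (nxt d i) ≠ 0 then X.xi Y e d i else 0) +
      (if prv d i ∈ pre ∧ X.W.P.kp Y e (prv d i) ≠ 0 then X.xi Y e d (prv d i) else 0)

theorem inc_le (hx : Kt X WL) (hv : Hv cmpS cmp cmp' sol sol' S cc f X.W.P le) (he : S.W e ≠ [])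
    {i : Nat} (hi : i < (S.W e).length) (pre : List Nat) :
    X.inc (S.mp cc) e (S.W e).length pre i ≤ X.arr (S.mp cc) e i + X.all (S.mp cc) e i := by
  unfold Px.inc
  by_cases h0 : X.W.P.kp (S.mp cc) e i = 0
  · rw [if_pos h0]
  · rw [if_neg h0]
    have h1 := xi_arr hx hv he hi
    have h2 := xi_all hx hv he (prv_lt hi)
    rw [nxt_prv hi] at h2
    split_ifs <;> omega

/-- the form of a position -/
theorem Px.pq_eq (X : Px) (c d k i N : Nat) : ∃ A, X.pq c d k i N =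
    ⟨Nat.mul X.W.P.w i, Nat.sub (Nat.pow 2 (Nat.add (kn (X.W.kr c i)) 1)) 1,
      kg (X.W.kr c i), Nat.add (kn (X.W.kr c i)) 64,
      fun κ Z => X.W.rfn c d k i (kn (X.W.kr c i)) N κ Z, A⟩ ∧
    (X.M (lo (X.W.ke c i)) + X.M (lo (X.W.ke c (prv d i))) = 0 →
      ∀ κ Z s, A κ Z s = s + gn (X.ga (X.W.ke c i) (X.W.kr c i)) κ) ∧
    (X.M (lo (X.W.ke c i)) + X.M (lo (X.W.ke c (prv d i))) ≠ 0 →
      A = axs X.W.P.w (Nat.mul X.W.P.w (nxt d i)) (Nat.mul X.W.P.w (prv d i))
        (X.M (lo (X.W.ke c i))) (X.M (lo (X.W.ke c (prv d i)))) (X.V (X.W.ke c i))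
        (X.V (X.W.ke c (nxt d i))) (X.V (X.W.ke c (prv d i)))
        (X.ga (X.W.ke c i) (X.W.kr c i))) := by
  unfold Px.pq
  rw [frc_eq, frc_eq, frc_eq, frc_eq]
  by_cases h : X.M (lo (X.W.ke c i)) + X.M (lo (X.W.ke c (prv d i))) = 0
  · have e1 : Nat.beq (Nat.add (X.M (lo (X.W.ke c i))) (X.M (lo (X.W.ke c (prv d i))))) 0 =
        true := by
      show Nat.beq (X.M (lo (X.W.ke c i)) + X.M (lo (X.W.ke c (prv d i)))) 0 = true
      rw [h]; rfl
    rw [e1]
    exact ⟨_, rfl, fun _ _ _ _ => rfl, fun h1 => absurd h h1⟩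
  · have e1 : Nat.beq (Nat.add (X.M (lo (X.W.ke c i))) (X.M (lo (X.W.ke c (prv d i))))) 0 =
        false := beq_zero_of h
    rw [e1]
    exact ⟨_, rfl, fun h1 => absurd h1 h, fun _ => rfl⟩

/-- the gain without allowances -/
theorem gax_le (hx : Kt X WL) (hv : Hv cmpS cmp cmp' sol sol' S cc f X.W.P le)
    (hK : Kk X.W ((S.mp cc).c e) (S.W e).length) {i : Nat} (hi : i < (S.W e).length)
    (h0 : X.W.P.kp (S.mp cc) e i ≠ 0) {G : Nat}
    (hG : G + X.ae (X.W.ke ((S.mp cc).c e) i) (X.W.P.nfy (S.mp cc) e i) ≤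
      gn (kg (X.W.kr ((S.mp cc).c e) i)) (X.W.P.kp (S.mp cc) e i)) :
    G ≤ gn (X.ga (X.W.ke ((S.mp cc).c e) i) (X.W.kr ((S.mp cc).c e) i))
      (X.W.P.kp (S.mp cc) e i) := by
  have hp := kok_kp (hK i hi)
  have q1 : (X.W.P.ps ((S.mp cc).c e) i).cl = (X.W.P.Q.pos (X.W.ke ((S.mp cc).c e) i) 0).cl :=
    Pm.pos_cl _ _ _
  have hn : (X.W.P.ps ((S.mp cc).c e) i).cl.length = kn (X.W.kr ((S.mp cc).c e) i) := by
    rw [q1]; exact hp.n
  have hkl : X.W.P.kp (S.mp cc) e i ≤ kn (X.W.kr ((S.mp cc).c e) i) := by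
    rw [← hn]; exact ix_le _ _
  unfold Px.ga
  rw [frc_eq]
  by_cases ha : X.ka (X.W.ke ((S.mp cc).c e) i) = 0
  · rw [ha]
    show G ≤ gn (kg (X.W.kr ((S.mp cc).c e) i)) (X.W.P.kp (S.mp cc) e i)
    omega
  · rw [beq_zero_of ha]
    dsimp only
    have h1 := hx.kA _ ha
    unfold Px.kA at h1
    rw [frc_eq] at h1
    obtain ⟨k, hk⟩ : ∃ k, X.W.P.kp (S.mp cc) e i = k + 1 :=
      ⟨X.W.P.kp (S.mp cc) e i - 1, by omega⟩
    have h2 := alln_iff.1 h1 k (by
      show k < kn (X.W.kr ((S.mp cc).c e) i)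
      omega)
    rw [frc_eq, frc_eq] at h2
    have e1 : Nat.succ k = X.W.P.kp (S.mp cc) e i := hk.symm
    rw [e1, cd_kp hv h0] at h2
    have h3 := Nat.le_of_ble_eq_true h2
    have h4 : gn (kg (X.W.kr ((S.mp cc).c e) i)) (X.W.P.kp (S.mp cc) e i) ≤
      gn (X.ka (X.W.ke ((S.mp cc).c e) i)) (X.W.P.kp (S.mp cc) e i) +
        X.ae (X.W.ke ((S.mp cc).c e) i) (X.W.P.nfy (S.mp cc) e i) := h3
    omega

theorem nxt_ne {d i : Nat} (hd : 2 ≤ d) : nxt d i ≠ i := by
  unfold nxt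
  cases h : Nat.beq (Nat.succ i) d with
  | true =>
    have h' : i + 1 = d := Nat.eq_of_beq_eq_true h
    show ¬ 0 = i
    omega
  | false =>
    show ¬ i + 1 = i
    omega

theorem prv_ne {d i : Nat} (hd : 2 ≤ d) (hi : i < d) : prv d i ≠ i := by
  intro h
  have h1 := nxt_prv hi
  rw [h] at h1
  exact nxt_ne hd h1

/-- the chosen bits of the position `j` -/
theorem zpos {w : Nat} {kp : Nat → Nat} {d i j Z : Nat} {pre : List Nat} {B : Nat → Prop}
    (hkp : ∀ j < d, kp j < w) (hpre : ∀ j ∈ pre, j < d) (hi : i < d) (hj : j < d)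
    (hij : j ≠ i) (hB : ∀ t, B t ↔ ∃ j ∈ pre, kp j ≠ 0 ∧ t = w * j + kp j)
    (hZ : ∀ t, Nat.testBit Z t = true ↔ (B t ∨ t = w * i + kp i)) :
    ((j ∈ pre ∧ kp j ≠ 0) → Nat.mod (Nat.shiftRight Z (Nat.mul w j)) (Nat.pow 2 w) = 2 ^ kp j) ∧
      (¬ (j ∈ pre ∧ kp j ≠ 0) →
        Nat.mod (Nat.shiftRight Z (Nat.mul w j)) (Nat.pow 2 w) = 0) := by
  have uniq : ∀ a < w, ∀ j' < d, ∀ b < w, w * j + a = w * j' + b → j = j' ∧ a = b := by
    intro a ha j' _ b hb h
    have hw : 0 < w := by omega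
    have h1 : (w * j + a) / w = j := by
      rw [Nat.mul_add_div hw, Nat.div_eq_of_lt ha, Nat.add_zero]
    have h2 : (w * j' + b) / w = j' := by
      rw [Nat.mul_add_div hw, Nat.div_eq_of_lt hb, Nat.add_zero]
    rw [h] at h1
    have h3 : j = j' := h1.symm.trans h2
    subst h3
    exact ⟨rfl, by omega⟩
  have key : ∀ k < w, Nat.testBit Z (w * j + k) = true → j ∈ pre ∧ kp j ≠ 0 ∧ k = kp j := by
    intro k hk h
    rw [hZ, hB] at h
    rcases h with ⟨j', h1, h2, h3⟩ | h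
    · obtain ⟨h4, h5⟩ := uniq k hk j' (hpre _ h1) _ (hkp _ (hpre _ h1)) h3
      subst h4
      exact ⟨h1, h2, h5⟩
    · exact absurd (uniq k hk i hi _ (hkp _ hi) h).1 hij
  constructor
  · rintro ⟨h1, h2⟩
    refine zbits (hkp j hj) fun k hk => ⟨fun h => (key k hk h).2.2, ?_⟩
    rintro rfl
    show Nat.testBit Z (w * j + kp j) = true
    rw [hZ, hB]
    exact Or.inl ⟨j, h1, h2, rfl⟩
  · intro h
    refine zbits0 fun k hk h1 => ?_
    obtain ⟨h2, h3, -⟩ := key k hk h1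
    exact h ⟨h2, h3⟩

/-- the positions are correct -/
theorem pq3_ok (hx : Kt X WL) (hv : Hv cmpS cmp cmp' sol sol' S cc f X.W.P le)
    (hk : Hk le ml sol S cc f X.W) (he : S.W e ≠ []) (hN : Nr sol (S.mp cc) e)
    (hpos : ∀ e, (S.mp cc).W e ≠ [] → X.PosOk3 ((S.mp cc).c e) ((S.mp cc).c ((S.mp cc).al e)))
    (hK : Kk X.W ((S.mp cc).c e) (S.W e).length)
    (hkc : ∀ i < (S.W e).length, X.kc ((S.mp cc).c e) (S.W e).length i = true) {V : List Nat}
    (hV : Cov X.W.P V (S.W e)) {i N : Nat} (hi : i < (S.W e).length)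
    (h : X.W.cks ((S.mp cc).c e) (S.W e).length (wsl X.W.P.Q.wm ((S.mp cc).c e)) (av2 X.W.lv V)
      (av2 X.W.lm (rvl V)) i (kn (X.W.kr ((S.mp cc).c e) i)) N = true)
    {pre : List Nat} (hpre : ∀ j ∈ pre, j < (S.W e).length) {B : Nat → Prop}
    (hB : ∀ t, B t ↔ ∃ j ∈ pre, X.W.P.kp (S.mp cc) e j ≠ 0 ∧
      t = X.W.P.w * j + X.W.P.kp (S.mp cc) e j) :
    POk4 (X.W.P.tau (S.mp cc) e) B (X.W.P.kp (S.mp cc) e i)
      ((X.W.P.G2 ((S.mp cc).c ((S.mp cc).nx^[i] e)) ((S.mp cc).nb e i) : ℤ) +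
        X.inc (S.mp cc) e (S.W e).length pre i)
      (X.pq ((S.mp cc).c e) (S.W e).length (wsl X.W.P.Q.wm ((S.mp cc).c e)) i N) := by
  have hp := kok_kp (hK i hi)
  have h4 := (hv.hS.len e he).1
  have q1 : (X.W.P.ps ((S.mp cc).c e) i).cl = (X.W.P.Q.pos (X.W.ke ((S.mp cc).c e) i) 0).cl :=
    Pm.pos_cl _ _ _
  have q2 : (X.W.P.ps ((S.mp cc).c e) i).df = (X.W.P.Q.pos (X.W.ke ((S.mp cc).c e) i) 0).df :=
    Pm.pos_df _ _ _
  have c1 : pok (X.W.P.ps ((S.mp cc).c e) i).cl (X.W.P.ps ((S.mp cc).c e) i).df = true := by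
    rw [q1, q2]; exact hp.pok
  have hn : (X.W.P.ps ((S.mp cc).c e) i).cl.length = kn (X.W.kr ((S.mp cc).c e) i) := by
    rw [q1]; exact hp.n
  have hs := pok_srt c1
  have hkl : X.W.P.kp (S.mp cc) e i ≤ kn (X.W.kr ((S.mp cc).c e) i) := by
    rw [← hn]; exact ix_le _ _
  have he' : (S.mp cc).W e ≠ [] := mp_ne.2 he
  have hkp : ∀ j < (S.W e).length, X.W.P.kp (S.mp cc) e j < X.W.P.w := fun j hj =>
    (kp_lt (kk_ckR' hK 0) (i := j) (by rw [mlen]; exact hj)).2
  -- the gain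
  have hG : X.W.P.G2 ((S.mp cc).c ((S.mp cc).nx^[i] e)) ((S.mp cc).nb e i) +
      X.ae (X.W.ke ((S.mp cc).c e) i) (X.W.P.nfy (S.mp cc) e i) ≤
      gi (X.W.P.ps ((S.mp cc).c e) i).df (X.W.P.ps ((S.mp cc).c e) i).cl
        (X.W.P.kp (S.mp cc) e i) := by
    have h1 := hpos _ (hv.h2.ok.ne_iter he' i)
    unfold Px.PosOk3 at h1
    have h2 : (S.mp cc).c ((S.mp cc).nx^[i] e) = rot ((S.mp cc).c e) i :=
      (rot_c hv.h2.ok he' i).symm
    have h3 : (X.W.P.ps ((S.mp cc).c e) i).df =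
        (X.W.P.Q.pos (X.W.P.Q.ky ((S.mp cc).c ((S.mp cc).nx^[i] e))) 0).df := by
      rw [h2]; exact Pm.pos_df _ _ _
    have h4 : (X.W.P.ps ((S.mp cc).c e) i).cl =
        (X.W.P.Q.pos (X.W.P.Q.ky ((S.mp cc).c ((S.mp cc).nx^[i] e))) 0).cl := by
      rw [h2]; exact Pm.pos_cl _ _ _
    have h6 : X.W.P.Q.ky ((S.mp cc).c ((S.mp cc).nx^[i] e)) = X.W.ke ((S.mp cc).c e) i := by
      rw [h2]; rfl
    rw [← h3, ← h4, h6] at h1
    have h5 : X.W.P.Q.nz ((S.mp cc).c ((S.mp cc).al ((S.mp cc).nx^[i] e))) =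
      X.W.P.nfy (S.mp cc) e i := rfl
    rw [h5] at h1
    rcases h1 with h1 | ⟨g, h1, h7⟩
    · exact le_trans h1 (df_le_gi hs _)
    · exact le_trans h7 (le_gi hs h1)
  have hgn : ∀ j, j ≤ kn (X.W.kr ((S.mp cc).c e) i) → gn (kg (X.W.kr ((S.mp cc).c e) i)) j =
      gi (X.W.P.ps ((S.mp cc).c e) i).df (X.W.P.ps ((S.mp cc).c e) i).cl j := by
    intro j hj
    have eg : kg (X.W.kr ((S.mp cc).c e) i) =
        pk (X.W.P.ps ((S.mp cc).c e) i).cl (X.W.P.ps ((S.mp cc).c e) i).df := by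
      rw [q1, q2]; exact hp.g
    rw [eg, gn_pk c1 (by omega)]
  have hinc := inc_le hx hv he hi pre
  rw [ae_eq] at hG
  obtain ⟨A, eA, A0, A1⟩ := X.pq_eq ((S.mp cc).c e) (S.W e).length
    (wsl X.W.P.Q.wm ((S.mp cc).c e)) i N
  rw [eA]
  refine ⟨?_, fun j hj hf => ?_, fun h0 Z hZ => ⟨?_, fun s => ?_⟩⟩
  · show Nat.testBit (2 ^ (kn (X.W.kr ((S.mp cc).c e) i) + 1) - 1) _ = true
    rw [Nat.testBit_two_pow_sub_one, decide_eq_true_eq]
    omega
  · have hf' : Nat.testBit (2 ^ (kn (X.W.kr ((S.mp cc).c e) i) + 1) - 1) j = true := hf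
    rw [Nat.testBit_two_pow_sub_one, decide_eq_true_eq] at hf'
    show _ ≤ ((gn (kg (X.W.kr ((S.mp cc).c e) i)) j : Nat) : ℤ)
    rw [hgn j (by omega)]
    have h1 := gi_mono hs hj (show j ≤ (X.W.P.ps ((S.mp cc).c e) i).cl.length by omega)
    omega
  · have hZt : ∀ t, Nat.testBit Z t = true → X.W.P.tau (S.mp cc) e t := by
      intro t ht
      rcases (hZ t).1 ht with h1 | h1
      · obtain ⟨j, j1, j2, j3⟩ := (hB t).1 h1
        exact ⟨j, by rw [mlen]; exact hpre j j1, j3⟩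
      · exact ⟨i, by rw [mlen]; exact hi, h1⟩
    have h9 := ckr_ok hv hk he hN hK hV hi h0 (cks_row h hkl) hZt
    rw [← Pw.rfn_eq] at h9
    exact h9
  · have hZ' : ∀ t, Nat.testBit Z t = true ↔
        (B t ∨ t = X.W.P.w * i + X.W.P.kp (S.mp cc) e i) := hZ
    have g1 := gax_le hx hv hK hi h0 (G := X.W.P.G2 ((S.mp cc).c ((S.mp cc).nx^[i] e))
      ((S.mp cc).nb e i)) (by rw [hgn _ hkl, ae_eq]; exact hG)
    have einc : X.inc (S.mp cc) e (S.W e).length pre i =
      (if nxt (S.W e).length i ∈ pre ∧ X.W.P.kp (S.mp cc) e (nxt (S.W e).length i) ≠ 0 then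
        X.xi (S.mp cc) e (S.W e).length i else 0) +
      (if prv (S.W e).length i ∈ pre ∧ X.W.P.kp (S.mp cc) e (prv (S.W e).length i) ≠ 0 then
        X.xi (S.mp cc) e (S.W e).length (prv (S.W e).length i) else 0) := by
      unfold Px.inc
      rw [if_neg h0]
    show (s : ℤ) + (_ + _) ≤ ((A (X.W.P.kp (S.mp cc) e i) Z s : Nat) : ℤ)
    rw [einc]
    have zN := zpos (w := X.W.P.w) (kp := X.W.P.kp (S.mp cc) e) hkp hpre hi (nxt_lt hi)
      (nxt_ne (by omega)) hB hZ'
    have zP := zpos (w := X.W.P.w) (kp := X.W.P.kp (S.mp cc) e) hkp hpre hi (prv_lt hi)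
      (prv_ne (by omega) hi) hB hZ'
    by_cases hM : X.M (lo (X.W.ke ((S.mp cc).c e) i)) +
        X.M (lo (X.W.ke ((S.mp cc).c e) (prv (S.W e).length i))) = 0
    · rw [A0 hM, xi_zero hx (show X.M (lo (X.W.ke ((S.mp cc).c e) i)) = 0 by omega),
        xi_zero hx (show X.M (lo (X.W.ke ((S.mp cc).c e) (prv (S.W e).length i))) = 0 by omega)]
      rw [ite_self, ite_self]
      omega
    · rw [A1 hM]
      have hVi : X.V (X.W.ke ((S.mp cc).c e) i) ≠ 0 := by
        have h1 := hkc i hi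
        unfold Px.kc at h1
        have e1 : Nat.beq (Nat.add (X.M (lo (X.W.ke ((S.mp cc).c e) i)))
          (X.M (lo (X.W.ke ((S.mp cc).c e) (prv (S.W e).length i))))) 0 = false :=
          beq_zero_of hM
        rw [e1] at h1
        intro h2
        rw [h2] at h1
        exact Bool.noConfusion (show false = true from h1)
      obtain ⟨v1, v2⟩ := vfd_ok hx hv hK hi h0 hVi
      rw [axs_eq]
      rw [frc_eq, frc_eq, v1, v2]
      have e5 : Nat.add s (gnl (X.ga (X.W.ke ((S.mp cc).c e) i) (X.W.kr ((S.mp cc).c e) i))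
        (X.W.P.kp (S.mp cc) e i)) = s + gn (X.ga (X.W.ke ((S.mp cc).c e) i)
          (X.W.kr ((S.mp cc).c e) i)) (X.W.P.kp (S.mp cc) e i) := rfl
      rw [e5]
      have g2 : (s : ℤ) + (X.W.P.G2 ((S.mp cc).c ((S.mp cc).nx^[i] e)) ((S.mp cc).nb e i) : ℤ) ≤
          ((s + gn (X.ga (X.W.ke ((S.mp cc).c e) i) (X.W.kr ((S.mp cc).c e) i))
            (X.W.P.kp (S.mp cc) e i) : Nat) : ℤ) := by
        push_cast
        omega
      generalize s + gn (X.ga (X.W.ke ((S.mp cc).c e) i) (X.W.kr ((S.mp cc).c e) i))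
        (X.W.P.kp (S.mp cc) e i) = s1 at g2 ⊢
      -- the right neighbour
      have hR : (s1 : ℤ) + (if nxt (S.W e).length i ∈ pre ∧
          X.W.P.kp (S.mp cc) e (nxt (S.W e).length i) ≠ 0 then
            X.xi (S.mp cc) e (S.W e).length i else 0) ≤
          (crR X.W.P.w (X.M (lo (X.W.ke ((S.mp cc).c e) i))) (X.cb (S.mp cc) e i)
            (Nat.mul X.W.P.w (nxt (S.W e).length i))
            (X.V (X.W.ke ((S.mp cc).c e) (nxt (S.W e).length i))) Z s1 : ℤ) := by
        by_cases hc : nxt (S.W e).length i ∈ pre ∧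
          X.W.P.kp (S.mp cc) e (nxt (S.W e).length i) ≠ 0
        · rw [if_pos hc]
          have h1 := crR_le (m := X.M (lo (X.W.ke ((S.mp cc).c e) i))) (b := X.cb (S.mp cc) e i)
            (V := X.V (X.W.ke ((S.mp cc).c e) (nxt (S.W e).length i))) (s := s1) (zN.1 hc)
          refine le_trans (le_of_eq ?_) h1
          by_cases hm : X.M (lo (X.W.ke ((S.mp cc).c e) i)) = 0
          · rw [xi_zero hx hm, cb_zero hx hm, xbc_b0]
            simp
          · have h2 := hkc _ (nxt_lt hi)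
            unfold Px.kc at h2
            rw [prv_nxt hi] at h2
            have e1 : Nat.beq (Nat.add (X.M (lo (X.W.ke ((S.mp cc).c e) (nxt (S.W e).length i))))
              (X.M (lo (X.W.ke ((S.mp cc).c e) i)))) 0 = false :=
              beq_zero_of (show X.M (lo (X.W.ke ((S.mp cc).c e) (nxt (S.W e).length i))) +
                X.M (lo (X.W.ke ((S.mp cc).c e) i)) ≠ 0 by omega)
            rw [e1] at h2
            have hVn : X.V (X.W.ke ((S.mp cc).c e) (nxt (S.W e).length i)) ≠ 0 := by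
              intro h3
              rw [h3] at h2
              exact Bool.noConfusion (show false = true from h2)
            rw [(vfd_ok hx hv hK (nxt_lt hi) hc.2 hVn).2]
            rfl
        · rw [if_neg hc, crR_zero (zN.2 hc), add_zero]
      -- the left neighbour
      have hL : ∀ s2 : Nat, (s2 : ℤ) + (if prv (S.W e).length i ∈ pre ∧
          X.W.P.kp (S.mp cc) e (prv (S.W e).length i) ≠ 0 then
            X.xi (S.mp cc) e (S.W e).length (prv (S.W e).length i) else 0) ≤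
          (crL X.W.P.w (X.M (lo (X.W.ke ((S.mp cc).c e) (prv (S.W e).length i))))
            (X.ct (S.mp cc) e i) (Nat.mul X.W.P.w (prv (S.W e).length i))
            (X.V (X.W.ke ((S.mp cc).c e) (prv (S.W e).length i))) Z s2 : ℤ) := by
        intro s2
        by_cases hc : prv (S.W e).length i ∈ pre ∧
          X.W.P.kp (S.mp cc) e (prv (S.W e).length i) ≠ 0
        · rw [if_pos hc]
          have h1 := crL_le (m := X.M (lo (X.W.ke ((S.mp cc).c e) (prv (S.W e).length i))))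
            (c := X.ct (S.mp cc) e i)
            (V := X.V (X.W.ke ((S.mp cc).c e) (prv (S.W e).length i))) (s := s2) (zP.1 hc)
          refine le_trans (le_of_eq ?_) h1
          by_cases hm : X.M (lo (X.W.ke ((S.mp cc).c e) (prv (S.W e).length i))) = 0
          · rw [xi_zero hx hm, ct_zero hx hv he hi hm, xbc_c0]
            simp
          · have h2 := hkc _ (prv_lt hi)
            unfold Px.kc at h2
            have e1 : Nat.beq (Nat.add (X.M (lo (X.W.ke ((S.mp cc).c e) (prv (S.W e).length i))))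
              (X.M (lo (X.W.ke ((S.mp cc).c e) (prv (S.W e).length
                (prv (S.W e).length i)))))) 0 = false :=
              beq_zero_of (show X.M (lo (X.W.ke ((S.mp cc).c e) (prv (S.W e).length i))) +
                X.M (lo (X.W.ke ((S.mp cc).c e) (prv (S.W e).length
                (prv (S.W e).length i)))) ≠ 0 by omega)
            rw [e1] at h2
            have hVn : X.V (X.W.ke ((S.mp cc).c e) (prv (S.W e).length i)) ≠ 0 := by
              intro h3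
              rw [h3] at h2
              exact Bool.noConfusion (show false = true from h2)
            rw [(vfd_ok hx hv hK (prv_lt hi) hc.2 hVn).1]
            unfold Px.xi
            rw [nxt_prv hi]
        · rw [if_neg hc, crL_zero (zP.2 hc), add_zero]
      refine le_trans ?_ (hL _)
      omega

theorem xpqs_cons (c d k : Nat) (NL : List Nat) (i : Nat) (ord : List Nat) :
    X.pqs c d k NL (i :: ord) = X.pq c d k i (nth NL i) :: X.pqs c d k NL ord := by
  have h : X.pqs c d k NL (i :: ord) = sl6 (fun i => X.pq c d k i (nth NL i)) i ::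
    X.pqs c d k NL ord := rfl
  rw [h, sl6_eq]

theorem xpq_a (c d k i N : Nat) : (X.pq c d k i N).a = X.W.P.w * i := by
  obtain ⟨A, eA, -, -⟩ := X.pq_eq c d k i N
  rw [eA]
  rfl

theorem xpqs_sum {c d k : Nat} {NL : List Nat} (G : Nat → ℤ) : ∀ ord : List Nat,
    ((X.pqs c d k NL ord).map fun p => G p.a).sum = (ord.map fun i => G (X.W.P.w * i)).sum
  | [] => rfl
  | i :: ord => by
    rw [xpqs_cons, List.map_cons, List.map_cons, List.sum_cons, List.sum_cons, xpqs_sum G ord,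
      xpq_a]

theorem xpqs_mem {c d k : Nat} {NL : List Nat} : ∀ {ord : List Nat} {p : PX},
    p ∈ X.pqs c d k NL ord → ∃ i ∈ ord, p = X.pq c d k i (nth NL i)
  | [], p, h => by
    have h' : p ∈ ([] : List PX) := h
    simp at h'
  | i :: ord, p, h => by
    rw [xpqs_cons, List.mem_cons] at h
    rcases h with h | h
    · exact ⟨i, List.mem_cons_self .., h⟩
    · obtain ⟨j, h1, h2⟩ := xpqs_mem h
      exact ⟨j, List.mem_cons_of_mem _ h1, h2⟩

/-- the positions are correct, one after the other -/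
theorem chn_pqs (hx : Kt X WL) (hv : Hv cmpS cmp cmp' sol sol' S cc f X.W.P le)
    (hk : Hk le ml sol S cc f X.W) (he : S.W e ≠ []) (hN : Nr sol (S.mp cc) e)
    (hpos : ∀ e, (S.mp cc).W e ≠ [] → X.PosOk3 ((S.mp cc).c e) ((S.mp cc).c ((S.mp cc).al e)))
    (hK : Kk X.W ((S.mp cc).c e) (S.W e).length)
    (hkc : ∀ i < (S.W e).length, X.kc ((S.mp cc).c e) (S.W e).length i = true) {V : List Nat}
    (hV : Cov X.W.P V (S.W e)) {NL full : List Nat}
    (h : ∀ i < (S.W e).length, X.W.cks ((S.mp cc).c e) (S.W e).length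
      (wsl X.W.P.Q.wm ((S.mp cc).c e)) (av2 X.W.lv V) (av2 X.W.lm (rvl V)) i
      (kn (X.W.kr ((S.mp cc).c e) i)) (nth NL i) = true)
    (hd : full.Nodup) (hl : ∀ i ∈ full, i < (S.W e).length) {κ : Nat → Nat} {G : Nat → ℤ}
    (hκ : ∀ i < (S.W e).length, κ (X.W.P.w * i) = X.W.P.kp (S.mp cc) e i)
    (hG : ∀ i < (S.W e).length, ∀ pre, (∀ j ∈ pre, j ∈ full) →
      (∀ j ∈ full, j ∈ pre ↔ full.idxOf j < full.idxOf i) →
      G (X.W.P.w * i) = (X.W.P.G2 ((S.mp cc).c ((S.mp cc).nx^[i] e)) ((S.mp cc).nb e i) : ℤ) +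
        X.inc (S.mp cc) e (S.W e).length pre i) :
    ∀ (ord pre : List Nat) (B : Nat → Prop), full = pre ++ ord →
      (∀ t, B t ↔ ∃ j ∈ pre, X.W.P.kp (S.mp cc) e j ≠ 0 ∧
        t = X.W.P.w * j + X.W.P.kp (S.mp cc) e j) →
      Chn (X.W.P.tau (S.mp cc) e) κ G B
        (X.pqs ((S.mp cc).c e) (S.W e).length (wsl X.W.P.Q.wm ((S.mp cc).c e)) NL ord)
  | [], _, _, _, _ => trivial
  | i :: ord, pre, B, hf, hB => by
    have hi : i < (S.W e).length := hl i (by rw [hf]; simp)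
    have hpf : ∀ j ∈ pre, j ∈ full := fun j hj => by
      rw [hf]; exact List.mem_append_left _ hj
    have hpre : ∀ j ∈ pre, j < (S.W e).length := fun j hj => hl j (hpf j hj)
    have hip : i ∉ pre := by
      intro h1
      rw [hf, List.nodup_append] at hd
      exact hd.2.2 i h1 i (List.mem_cons_self ..) rfl
    have hidx : full.idxOf i = pre.length := by
      rw [hf, List.idxOf_append_of_notMem hip, List.idxOf_cons_self, Nat.add_zero]
    have hE : ∀ j ∈ full, j ∈ pre ↔ full.idxOf j < full.idxOf i := by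
      intro j hj
      rw [hidx]
      constructor
      · intro h1
        rw [hf, List.idxOf_append_of_mem h1]
        exact List.idxOf_lt_length_of_mem h1
      · intro h1
        by_contra h2
        rw [hf, List.idxOf_append_of_notMem h2] at h1
        omega
    rw [xpqs_cons]
    refine ⟨?_, ?_⟩
    · rw [xpq_a, hκ i hi, hG i hi pre hpf hE]
      exact pq3_ok hx hv hk he hN hpos hK hkc hV hi (h i hi) hpre hB
    · refine chn_pqs hx hv hk he hN hpos hK hkc hV h hd hl hκ hG ord (pre ++ [i]) _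
        (by rw [hf, List.append_assoc]; rfl) (fun t => ?_)
      rw [xpq_a, hκ i hi, hB t]
      constructor
      · rintro (⟨j, h1, h2⟩ | ⟨h1, h2⟩)
        · exact ⟨j, List.mem_append_left _ h1, h2⟩
        · exact ⟨i, List.mem_append_right _ (List.mem_singleton.2 rfl), h1, h2⟩
      · rintro ⟨j, h1, h2⟩
        rcases List.mem_append.1 h1 with h1 | h1
        · exact Or.inl ⟨j, h1, h2⟩
        · rw [List.mem_singleton.1 h1] at h2
          exact Or.inr h2

theorem sum_range_listi (n : Nat) (f : Nat → ℤ) :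
    ((List.range n).map f).sum = ∑ i ∈ range n, f i := by
  induction n with
  | zero => simp
  | succ n ih => rw [List.range_succ, List.map_append, List.sum_append, ih, sum_range_succ]; simp

/-- the sum over the sectors -/
theorem sum_sec {d : Nat} {xi r l : Nat → ℤ}
    (h : ∀ i < d, xi i ≤ r i + l (nxt d i)) :
    ∑ i ∈ range d, xi i ≤ ∑ i ∈ range d, (r i + l i) := by
  have e1 : ∑ i ∈ range d, l (nxt d i) = ∑ i ∈ range d, l i := by
    refine Finset.sum_bij' (fun i _ => nxt d i) (fun i _ => prv d i)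
      (fun i hi => mem_range.2 (nxt_lt (mem_range.1 hi)))
      (fun i hi => mem_range.2 (prv_lt (mem_range.1 hi)))
      (fun i hi => prv_nxt (mem_range.1 hi)) (fun i hi => nxt_prv (mem_range.1 hi))
      (fun i hi => rfl)
  rw [sum_add_distrib, ← e1, ← sum_add_distrib]
  exact sum_le_sum fun i hi => h i (mem_range.1 hi)

/-- the sum of the gains is bounded by the search -/
theorem gsum3_ok (hx : Kt X WL) (hv : Hv cmpS cmp cmp' sol sol' S cc f X.W.P le)
    (hk : Hk le ml sol S cc f X.W) (he : S.W e ≠ []) (hN : Nr sol (S.mp cc) e)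
    (hpos : ∀ e, (S.mp cc).W e ≠ [] → X.PosOk3 ((S.mp cc).c e) ((S.mp cc).c ((S.mp cc).al e)))
    (hK : Kk X.W ((S.mp cc).c e) (S.W e).length)
    (hkc : ∀ i < (S.W e).length, X.kc ((S.mp cc).c e) (S.W e).length i = true) {V : List Nat}
    (hV : Cov X.W.P V (S.W e)) {NL ord : List Nat}
    (h : alln (S.W e).length (fun i => X.W.cks ((S.mp cc).c e) (S.W e).length
      (wsl X.W.P.Q.wm ((S.mp cc).c e)) (av2 X.W.lv V) (av2 X.W.lm (rvl V)) i
      (kn (X.W.kr ((S.mp cc).c e) i)) (nth NL i)) = true)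
    (ho : okOrd (S.W e).length ord = true) {M th : Nat}
    (hM : ∀ i < (S.W e).length,
      Nat.testBit M (X.W.P.w * i + X.W.P.kp (S.mp cc) e i) = true)
    (hg : gon3 th (X.pqs ((S.mp cc).c e) (S.W e).length (wsl X.W.P.Q.wm ((S.mp cc).c e)) NL ord)
      M 0 0 = true) :
    ((∑ i ∈ range (S.W e).length, X.W.P.G2 ((S.mp cc).c ((S.mp cc).nx^[i] e))
        ((S.mp cc).nb e i) : Nat) : ℤ) +
      ∑ i ∈ range (S.W e).length, X.xi (S.mp cc) e (S.W e).length i ≤ (th : ℤ) := by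
  have h4 := (hv.hS.len e he).1
  have hperm := okOrd_perm ho
  rw [alln_iff] at h
  -- `w` is positive
  have hw : 0 < X.W.P.w := by
    have := (kok_kp (hK 0 (by omega))).w3
    omega
  have hdiv : ∀ i, X.W.P.w * i / X.W.P.w = i := fun i => Nat.mul_div_cancel_left i hw
  have hord : ∀ i ∈ ord, i < (S.W e).length := fun i hi =>
    List.mem_range.1 (hperm.mem_iff.1 hi)
  have hmem : ∀ i < (S.W e).length, i ∈ ord := fun i hi =>
    hperm.mem_iff.2 (List.mem_range.2 hi)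
  have hnd : ord.Nodup := hperm.nodup_iff.2 List.nodup_range
  set κ : Nat → Nat := fun a => X.W.P.kp (S.mp cc) e (a / X.W.P.w) with hκ
  set E : Nat → List Nat := fun i => ord.filter fun j => decide (ord.idxOf j < ord.idxOf i) with hE
  set G : Nat → ℤ := fun a => (X.W.P.G2 ((S.mp cc).c ((S.mp cc).nx^[a / X.W.P.w] e))
    ((S.mp cc).nb e (a / X.W.P.w)) : ℤ) + X.inc (S.mp cc) e (S.W e).length (E (a / X.W.P.w))
      (a / X.W.P.w) with hG
  have hmE : ∀ i j, j < (S.W e).length → (j ∈ E i ↔ ord.idxOf j < ord.idxOf i) := by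
    intro i j hj
    simp only [hE, List.mem_filter, decide_eq_true_eq]
    exact ⟨fun h => h.2, fun h => ⟨hmem j hj, h⟩⟩
  have hgo := gon3_sound (τ := X.W.P.tau (S.mp cc) e) (κ := κ) (G := G) th (B := fun _ => False)
    (X.pqs ((S.mp cc).c e) (S.W e).length (wsl X.W.P.Q.wm ((S.mp cc).c e)) NL ord) (by
      refine chn_pqs hx hv hk he hN hpos hK hkc hV h hnd hord (fun i hi => ?_)
        (fun i hi pre hp1 hp2 => ?_) ord [] _ rfl (fun t => ?_)
      · simp only [hκ]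
        rw [hdiv]
      · simp only [hG]
        rw [hdiv]
        have key : ∀ j < (S.W e).length, (j ∈ E i ↔ j ∈ pre) := fun j hj => by
          rw [hmE i j hj, hp2 j (hmem j hj)]
        congr 1
        unfold Px.inc
        simp only [key _ (nxt_lt hi), key _ (prv_lt hi)]
      · simp) (by
      intro p hp
      obtain ⟨i, i1, rfl⟩ := xpqs_mem hp
      rw [xpq_a]
      simp only [hκ]
      rw [hdiv]
      exact ⟨i, by rw [mlen]; exact hord i i1, rfl⟩) M 0 0 (by
      intro p hp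
      obtain ⟨i, i1, rfl⟩ := xpqs_mem hp
      rw [xpq_a]
      simp only [hκ]
      rw [hdiv]
      exact hM i (hord i i1)) (fun t => by simp) hg
  rw [xpqs_sum G] at hgo
  have e5 : (ord.map fun i => G (X.W.P.w * i)).sum = (ord.map fun i =>
      ((X.W.P.G2 ((S.mp cc).c ((S.mp cc).nx^[i] e)) ((S.mp cc).nb e i) : ℤ) +
        X.inc (S.mp cc) e (S.W e).length (E i) i)).sum := by
    congr 1
    refine List.map_congr_left fun i _ => ?_
    simp only [hG]
    rw [hdiv]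
  rw [e5, (hperm.map _).sum_eq] at hgo
  have e6 : ∀ g : Nat → ℤ, ((List.range (S.W e).length).map g).sum =
      ∑ i ∈ range (S.W e).length, g i := by
    intro g
    exact sum_range_listi _ g
  rw [e6, sum_add_distrib] at hgo
  -- the sectors
  have hsec := sum_sec (d := (S.W e).length)
    (xi := fun i => X.xi (S.mp cc) e (S.W e).length i)
    (r := fun i => if X.W.P.kp (S.mp cc) e i = 0 then (X.arr (S.mp cc) e i : ℤ) else
      (if nxt (S.W e).length i ∈ E i ∧ X.W.P.kp (S.mp cc) e (nxt (S.W e).length i) ≠ 0 then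
        X.xi (S.mp cc) e (S.W e).length i else 0))
    (l := fun i => if X.W.P.kp (S.mp cc) e i = 0 then (X.all (S.mp cc) e i : ℤ) else
      (if prv (S.W e).length i ∈ E i ∧ X.W.P.kp (S.mp cc) e (prv (S.W e).length i) ≠ 0 then
        X.xi (S.mp cc) e (S.W e).length (prv (S.W e).length i) else 0)) (fun i hi => by
    have n1 := nxt_lt hi
    have h1 := xi_arr hx hv he hi
    have h2 := xi_all hx hv he hi
    have m1 := hmE i _ n1
    have m2 := hmE (nxt (S.W e).length i) _ hi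
    rw [prv_nxt hi]
    by_cases k1 : X.W.P.kp (S.mp cc) e i = 0
    · rw [if_pos k1]
      by_cases k2 : X.W.P.kp (S.mp cc) e (nxt (S.W e).length i) = 0
      · rw [if_pos k2]
        omega
      · rw [if_neg k2, if_neg fun h => h.2 k1]
        omega
    · rw [if_neg k1]
      by_cases k2 : X.W.P.kp (S.mp cc) e (nxt (S.W e).length i) = 0
      · rw [if_pos k2, if_neg fun h => h.2 k2]
        omega
      · rw [if_neg k2]
        have hne := nxt_ne (i := i) (by omega : 2 ≤ (S.W e).length)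
        have hix : ord.idxOf (nxt (S.W e).length i) ≠ ord.idxOf i := by
          intro h3
          exact hne ((List.idxOf_inj (hmem _ n1)).1 h3)
        by_cases h3 : ord.idxOf (nxt (S.W e).length i) < ord.idxOf i
        · rw [if_pos ⟨m1.2 h3, k2⟩, if_neg fun h => by
            have := m2.1 h.1
            omega]
          omega
        · rw [if_neg fun h => h3 (m1.1 h.1), if_pos ⟨m2.2 (by omega), k1⟩]
          omega)
  have e7 : ∑ i ∈ range (S.W e).length, X.inc (S.mp cc) e (S.W e).length (E i) i =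
      ∑ i ∈ range (S.W e).length, ((if X.W.P.kp (S.mp cc) e i = 0 then
        (X.arr (S.mp cc) e i : ℤ) else
      (if nxt (S.W e).length i ∈ E i ∧ X.W.P.kp (S.mp cc) e (nxt (S.W e).length i) ≠ 0 then
        X.xi (S.mp cc) e (S.W e).length i else 0)) +
      (if X.W.P.kp (S.mp cc) e i = 0 then (X.all (S.mp cc) e i : ℤ) else
      (if prv (S.W e).length i ∈ E i ∧ X.W.P.kp (S.mp cc) e (prv (S.W e).length i) ≠ 0 then
        X.xi (S.mp cc) e (S.W e).length (prv (S.W e).length i) else 0))) := by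
    refine sum_congr rfl fun i _ => ?_
    unfold Px.inc
    by_cases k1 : X.W.P.kp (S.mp cc) e i = 0
    · simp only [if_pos k1]
    · simp only [if_neg k1]
  rw [e7] at hgo
  rw [Nat.cast_sum]
  have h9 : ((0 : Nat) : ℤ) = 0 := rfl
  rw [h9, zero_add] at hgo
  refine le_trans ?_ hgo
  exact add_le_add (le_refl _) hsec

end sound

end

end Pool.FCP
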