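import Pool.Agent.FCP.Xd

/-!
# Star check with flows on triangles: leaves, trees
-/

namespace Pool.FCP

open Pool.FCS

open Finset

noncomputable section

section sound

variable {D : Type*} {cmp cmp' cmpS : Nat → Nat → Bool} {sol sol' lng : Nat → Bool}
  {S : Sys D} {cc f : Nat → Nat} {X : Px} {WL : BT (List Nat)} {le : Nat → Nat → Bool}
  {ml : Nat → Nat} {e : D}

/-- The cases of a leaf. -/
theorem lfn3_sound {Y : Sys D} {P : Pn} (hy : Hc2 cmp cmp' sol sol' Y f P)
    (hN : Nr sol Y e) {k d : Nat} (hd : (Y.W e).length = d)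
    (hc : P.ckR k (Y.c e) (Y.W e).length [] = true)
    {g : Nat → Nat → Bool} {ns : List Nat} {A : Nat → Prop}
    (hgs : ∀ th M, (∀ i < d, Nat.testBit M (P.w * i + P.kp Y e i) = true) →
      g th M = true → A th) {M : Nat}
    (hM : ∀ i < d, Nat.testBit M (P.w * i + P.kp Y e i) = true)
    (h1 : g (P.Q.thr (Y.c e)) (rmv M (P.x0 (Y.c e) ns)) = true)
    (hns : ∀ i ∈ ns, i < d ∧ g (P.Q.thr (Y.c e) + P.dl)
      (rmv M (Nat.lor (P.nlo (Y.c e) i) (P.x1 (Y.c e) i d))) = true)
    (h3 : alln d (fun i => bif (bif tb P.Q.sm (dg (Nat.pow 32 i) (Y.c e)) then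
          (bif mem i ns then true else mem (nxt d i) ns) else false) then
        g (P.Q.thr (Y.c e)) (rmv M (Nat.lor (P.nlo (Y.c e) i)
          (sl6 (P.nlo (Y.c e)) (nxt d i))))
      else true) = true) : A (P.Q.thr (Y.c e)) ∨ (nnl Y e = 1 ∧ A (P.Q.thr (Y.c e) + P.dl)) := by
  subst hd
  have hY := hy.ok
  have hnf : ∀ i, P.nfy Y e i = 1 ↔ Y.W (Y.al (Y.nx^[i] e)) = [] := fun i => nfy_one hy.hb hY
  -- removing bits
  have hrm : ∀ X, ¬ Sat (P.tau Y e) X → ∀ i < (Y.W e).length,
      Nat.testBit (rmv M X) (P.w * i + P.kp Y e i) = true := fun X hX i hi =>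
    clear_ok (τ := P.tau Y e) ⟨i, hi, rfl⟩ (hM i hi) hX
  by_cases hz : ∀ i ∈ ns, P.nfy Y e i ≠ 1
  · left
    exact hgs _ _ (hrm _ (x0_ok hc (fun i hi => (hns i hi).1) hz)) h1
  · push Not at hz
    obtain ⟨i, hi, hi1⟩ := hz
    have hid := (hns i hi).1
    by_cases h4 : ∀ j < (Y.W e).length, j ≠ i → P.nfy Y e j ≠ 1
    · right
      refine ⟨?_, hgs _ _ (hrm _ ?_) (hns i hi).2⟩
      · unfold nnl
        rw [card_eq_one]
        refine ⟨i, ?_⟩
        ext j
        rw [mem_filter, mem_range, mem_singleton]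
        constructor
        · rintro ⟨j1, j2⟩
          by_contra hj
          exact h4 j j1 hj ((hnf j).2 j2)
        · rintro rfl
          exact ⟨hid, (hnf j).1 hi1⟩
      · intro hs
        rcases sat_lor hs with hs | hs
        · exact nlo_ok hc hid hi1 hs
        · exact x1_ok hc h4 _ le_rfl hs
    · left
      push Not at h4
      obtain ⟨j, hj, hji, hj1⟩ := h4
      have hnb : ∀ i, P.nfy Y e i = 1 → Y.nb e i = 0 := by
        intro i h
        have h5 := (hnf i).1 h
        show Y.c (Y.al (Y.nx^[i] e)) = 0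
        unfold Sys.c
        rw [h5]; rfl
      -- the two null neighbours are consecutive
      have key : ∀ a b, a < (Y.W e).length → b < (Y.W e).length →
          b = nxt (Y.W e).length a → sol ((Y.W e).getD a 0) = true → P.nfy Y e a = 1 →
          P.nfy Y e b = 1 → (a ∈ ns ∨ b ∈ ns) → A (P.Q.thr (Y.c e)) := by
        intro a b ha hb hab hsl ha1 hb1 hor
        have h5 := alln_iff.1 h3 a ha
        have h6 : tb P.Q.sm (dg (Nat.pow 32 a) (Y.c e)) = true := by
          have h7 : dg (Nat.pow 32 a) (Y.c e) = (Y.W e).getD a 0 + 1 := by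
            have h8 : dg (32 ^ a) (enc (Y.W e)) = _ := dg_enc (hY.sm e) ha
            exact h8
          have h9 : (Y.W e).getD a 0 ∈ Y.W e := by
            rw [List.getD_eq_getElem _ _ ha]; exact List.getElem_mem _
          rw [h7, hy.hsm e _ h9]
          exact hsl
        rw [h6] at h5
        have h7 : (bif mem a ns then true else mem (nxt (Y.W e).length a) ns) = true := by
          cases hm : mem a ns with
          | true => rfl
          | false =>
            dsimp only [cond_false]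
            rcases hor with hor | hor
            · rw [mem_iff.2 hor] at hm; exact Bool.noConfusion hm
            · rw [← hab]; exact mem_iff.2 hor
        dsimp only [cond_true] at h5
        rw [h7] at h5
        dsimp only [cond_true] at h5
        refine hgs _ _ (hrm _ ?_) h5
        rw [sl6_eq, ← hab]
        intro hs
        rcases sat_lor hs with hs | hs
        · exact nlo_ok hc ha ha1 hs
        · exact nlo_ok hc hb hb1 hs
      rcases hN i hid j hj (fun h => hji h.symm) (hnb i hi1) (hnb j hj1) with ⟨h5, h6⟩ | ⟨h5, h6⟩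
      · exact key i j hid hj h5 h6 hi1 hj1 (Or.inl hi)
      · exact key j i hj hid h5 h6 hj1 hi1 (Or.inr hi)

/-- from the sums of the gains to the charge -/
theorem chc_le3 {Y : Sys D} {P : Pn} (hS : Y.Ok cmp sol) (hb : Bmp P.Q.bm f Y)
    (hy : Hpr sol lng Y P.Q) {e : D} (he : Y.W e ≠ []) {E : ℤ}
    (h1 : ((∑ i ∈ range (Y.W e).length, P.G2 (Y.c (Y.nx^[i] e)) (Y.nb e i) : Nat) : ℤ) + E ≤
        ((P.Q.thr (Y.c e) : Nat) : ℤ) ∨ (nnl Y e = 1 ∧
      ((∑ i ∈ range (Y.W e).length, P.G2 (Y.c (Y.nx^[i] e)) (Y.nb e i) : Nat) : ℤ) + E ≤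
        ((P.Q.thr (Y.c e) + P.dl : Nat) : ℤ))) :
    chv2 sol lng P.Q.den P.Q.nl P.Q.nu P.dl P.hl P.Q.fw Y e + E ≤ 0 := by
  have key : ∑ i ∈ range (Y.W e).length, gav2 P.Q.nu P.hl P.Q.fw (Y.W (Y.nx^[i] e))
      (Y.W (Y.al (Y.nx^[i] e))) + (Y.W e).length * P.Q.sh ≤
      ((∑ i ∈ range (Y.W e).length, P.G2 (Y.c (Y.nx^[i] e)) (Y.nb e i) : Nat) : Int) := by
    rw [Nat.cast_sum]
    have h3 : ∑ i ∈ range (Y.W e).length, (gav2 P.Q.nu P.hl P.Q.fw (Y.W (Y.nx^[i] e))
        (Y.W (Y.al (Y.nx^[i] e))) + (P.Q.sh : Int)) ≤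
      ∑ i ∈ range (Y.W e).length, ((P.G2 (Y.c (Y.nx^[i] e)) (Y.nb e i) : Nat) : Int) :=
      sum_le_sum fun i _ => gab2_le hS hb (Y.nx^[i] e) (hS.ne_iter he i)
    rw [sum_add_distrib, sum_const, card_range, nsmul_eq_mul] at h3
    exact h3
  have ht := thrc_eq hS hy he
  have e3 : ((Y.W e).length : Int) * (P.Q.sh + 2 * P.Q.den) =
    (Y.W e).length * P.Q.sh + 2 * (Y.W e).length * P.Q.den := by ring
  rw [e3] at ht
  have e4 : chv2 sol lng P.Q.den P.Q.nl P.Q.nu P.dl P.hl P.Q.fw Y e = 12 * P.Q.den -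
    2 * (Y.W e).length * P.Q.den - gsv sol lng P.Q.den P.Q.nl (Y.W e) +
    ∑ i ∈ range (Y.W e).length, gav2 P.Q.nu P.hl P.Q.fw (Y.W (Y.nx^[i] e))
      (Y.W (Y.al (Y.nx^[i] e))) - (if nnl Y e = 1 then (P.dl : Int) else 0) := rfl
  rw [e4]
  rcases h1 with h1 | ⟨h0, h1⟩
  · have h4 : (0 : Int) ≤ if nnl Y e = 1 then (P.dl : Int) else 0 := by
      split_ifs <;> omega
    rw [ht] at h1
    linarith
  · rw [Nat.cast_add, ht] at h1
    rw [if_pos h0]
    linarith

/-- The check of a leaf. -/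
theorem lfc3_sound (hx : Kt X WL) (hv : Hv cmpS cmp cmp' sol sol' S cc f X.W.P le)
    (hk : Hk le ml sol S cc f X.W) (he : S.W e ≠ []) (hN : Nr sol (S.mp cc) e)
    (hpr : Hpr sol lng (S.mp cc) X.W.P.Q)
    (hpos : ∀ e, (S.mp cc).W e ≠ [] → X.PosOk3 ((S.mp cc).c e) ((S.mp cc).c ((S.mp cc).al e)))
    (hK : Kk X.W ((S.mp cc).c e) (S.W e).length)
    (hkc : ∀ i < (S.W e).length, X.kc ((S.mp cc).c e) (S.W e).length i = true) {V : List Nat}
    (hV : Cov X.W.P V (S.W e)) {o x s u : Nat} {NL : List Nat}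
    (h : X.lfc ((S.mp cc).c e) (S.W e).length (wsl X.W.P.Q.wm ((S.mp cc).c e)) o x s u NL V =
      true) :
    chv2 sol lng X.W.P.Q.den X.W.P.Q.nl X.W.P.Q.nu X.W.P.dl X.W.P.hl X.W.P.Q.fw (S.mp cc) e +
      ∑ i ∈ range (S.W e).length, X.xi (S.mp cc) e (S.W e).length i ≤ 0 := by
  have he' : (S.mp cc).W e ≠ [] := mp_ne.2 he
  have hY := hv.h2.ok
  unfold Px.lfc at h
  rw [brec_and] at h
  obtain ⟨h1, h⟩ := h
  rw [brec_and] at h
  obtain ⟨h2, h⟩ := h
  rw [brec_and] at h
  obtain ⟨h3, h4⟩ := h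
  rw [frc_eq, frc_eq, brec_and] at h3
  obtain ⟨h5, h6⟩ := h3
  rw [ala_iff] at h2
  have hm0 : ∀ i < (S.W e).length,
      Nat.testBit (X.W.m0 ((S.mp cc).c e) (S.W e).length (dN 11 x) (dN 36 u))
        (X.W.P.w * i + X.W.P.kp (S.mp cc) e i) = true := by
    intro i hi
    unfold Pw.m0
    apply clear_ok (τ := X.W.P.tau (S.mp cc) e) ⟨i, by rw [mlen]; exact hi, rfl⟩
    · have e1 : Nat.sub (Nat.pow 2 (Nat.mul X.W.P.w (S.W e).length)) 1 =
        2 ^ (X.W.P.w * (S.W e).length) - 1 := rfl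
      rw [e1, Nat.testBit_two_pow_sub_one, decide_eq_true_eq]
      have h7 := (kp_lt (kk_ckR' hK 0) (i := i) (by rw [mlen]; exact hi)).2
      calc X.W.P.w * i + X.W.P.kp (S.mp cc) e i < X.W.P.w * i + X.W.P.w := by omega
        _ = X.W.P.w * (i + 1) := by ring
        _ ≤ X.W.P.w * (S.W e).length := Nat.mul_le_mul_left _ hi
    · intro hs
      rcases sat_lor hs with ⟨t, t1, t2⟩ | hs
      · rw [msk_bit] at t2
        have h7 := h2 t t2
        rw [frc_eq] at h7
        exact ux_tau hv he hV (kk_ckR' hK 0) h7 t1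
      · exact mkz_ok hv hk he hK hV (Vo.zero he) (Wo.zero he) h5 hs
  have hgs : ∀ th M, (∀ i < (S.W e).length,
      Nat.testBit M (X.W.P.w * i + X.W.P.kp (S.mp cc) e i) = true) →
      gon3 th (X.pqs ((S.mp cc).c e) (S.W e).length (wsl X.W.P.Q.wm ((S.mp cc).c e)) NL (dN 3 o))
        M 0 0 = true →
      ((∑ i ∈ range ((S.mp cc).W e).length, X.W.P.G2 ((S.mp cc).c ((S.mp cc).nx^[i] e))
        ((S.mp cc).nb e i) : Nat) : ℤ) +
        ∑ i ∈ range (S.W e).length, X.xi (S.mp cc) e (S.W e).length i ≤ (th : ℤ) := by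
    intro th M h7 h8
    rw [mlen]
    exact gsum3_ok hx hv hk he hN hpos hK hkc hV h6 h1 h7 h8
  apply chc_le3 hY hv.h2.hb hpr he'
  generalize dN 3 s = ns at h4
  cases ns with
  | nil => exact Or.inl (hgs _ _ hm0 h4)
  | cons a ns =>
    have h4' : X.lfn ((S.mp cc).c e) (S.W e).length (a :: ns) (X.pqs ((S.mp cc).c e)
      (S.W e).length (wsl X.W.P.Q.wm ((S.mp cc).c e)) NL (dN 3 o))
      (X.W.m0 ((S.mp cc).c e) (S.W e).length (dN 11 x) (dN 36 u)) = true := h4
    unfold Px.lfn at h4'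
    rw [cond_true_iff, cond_true_iff] at h4'
    obtain ⟨g1, g2, g3⟩ := h4'
    refine lfn3_sound (g := fun th M => gon3 th (X.pqs ((S.mp cc).c e) (S.W e).length
      (wsl X.W.P.Q.wm ((S.mp cc).c e)) NL (dN 3 o)) M 0 0) (ns := a :: ns)
      (A := fun th => ((∑ i ∈ range ((S.mp cc).W e).length,
        X.W.P.G2 ((S.mp cc).c ((S.mp cc).nx^[i] e)) ((S.mp cc).nb e i) : Nat) : ℤ) +
        ∑ i ∈ range (S.W e).length, X.xi (S.mp cc) e (S.W e).length i ≤ (th : ℤ)) hv.h2 hN mlen
      (kk_ckR' hK 0) hgs hm0 g1 (fun i hi => ?_) g3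
    have g4 := allb_sound g2 i hi
    rw [cond_true_iff] at g4
    exact ⟨Nat.le_of_ble_eq_true g4.1, g4.2⟩

/-- The check of a tree. -/
theorem ckt3_sound (hx : Kt X WL) (hv : Hv cmpS cmp cmp' sol sol' S cc f X.W.P le)
    (hk : Hk le ml sol S cc f X.W) (he : S.W e ≠ []) (hN : Nr sol (S.mp cc) e)
    (hpr : Hpr sol lng (S.mp cc) X.W.P.Q)
    (hpos : ∀ e, (S.mp cc).W e ≠ [] → X.PosOk3 ((S.mp cc).c e) ((S.mp cc).c ((S.mp cc).al e)))
    (hK : Kk X.W ((S.mp cc).c e) (S.W e).length)
    (hkc : ∀ i < (S.W e).length, X.kc ((S.mp cc).c e) (S.W e).length i = true) :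
    ∀ (t : Tr2) (V : List Nat) (i : Nat) (L : List Nat),
      Cov X.W.P V (S.W e) → i < (S.W e).length → (S.W e).getD i 0 ∈ L →
      X.ckt ((S.mp cc).c e) (S.W e).length (wsl X.W.P.Q.wm ((S.mp cc).c e)) t V i L = true →
      chv2 sol lng X.W.P.Q.den X.W.P.Q.nl X.W.P.Q.nu X.W.P.dl X.W.P.hl X.W.P.Q.fw (S.mp cc) e +
        ∑ i ∈ range (S.W e).length, X.xi (S.mp cc) e (S.W e).length i ≤ 0 := by
  intro t
  induction t with
  | lf o x s u NL =>
    intro V i L hV _ _ h
    exact lfc3_sound hx hv hk he hN hpr hpos hK hkc hV h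
  | dd n =>
    intro V i L hV _ _ h
    exfalso
    exact fq_sound hk.hw hv he hk.fn hV (Vo.zero he) (Wo.zero he) h
  | sp j t ih =>
    intro V i L hV hi hL h
    have h' : (bif Nat.ble (Nat.succ j) (S.W e).length then
      X.ckt ((S.mp cc).c e) (S.W e).length (wsl X.W.P.Q.wm ((S.mp cc).c e)) t V
        j (X.W.P.lg (gtk V j)) else false) = true := h
    rw [cond_true_iff] at h'
    have hj : j < (S.W e).length := Nat.le_of_ble_eq_true h'.1
    refine ih V j _ hV hj ?_ h'.2
    rw [gtk_eq]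
    exact hV.2 j hj
  | ch a t iha iht =>
    intro V i L hV hi hL h
    cases L with
    | nil => simp at hL
    | cons x L =>
      have h' : (bif (bif X.W.P.imp (wsl X.W.P.Q.wm ((S.mp cc).c e)) x
          (gtk V (prv (S.W e).length i)) (gtk V (nxt (S.W e).length i)) then true else
          X.ckt ((S.mp cc).c e) (S.W e).length (wsl X.W.P.Q.wm ((S.mp cc).c e)) a
            (stk x V i) i [x]) then
          X.ckt ((S.mp cc).c e) (S.W e).length (wsl X.W.P.Q.wm ((S.mp cc).c e)) t V i L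
        else false) = true := h
      rw [cond_true_iff] at h'
      obtain ⟨h1, h2⟩ := h'
      rcases List.mem_cons.1 hL with hx' | hx'
      · have himp : X.W.P.imp (wsl X.W.P.Q.wm ((S.mp cc).c e)) x
            (gtk V (prv (S.W e).length i)) (gtk V (nxt (S.W e).length i)) = false := by
          rw [← hx', gtk_eq, gtk_eq]
          exact hv.imp e i hi _ _ (hV.2 _ (prv_lt hi)) (hV.2 _ (nxt_lt hi))
        rw [himp] at h1
        exact iha (stk x V i) i [x] (cov_set hv hV hi hx') hi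
          (by rw [hx']; exact List.mem_singleton.2 rfl) h1
      · exact iht V i L hV hi hx' h2
  | en =>
    intro V i L _ _ hL h
    cases L with
    | nil => simp at hL
    | cons x L => exact Bool.noConfusion h

/-- A tree with dead leaves only. -/
theorem ckt3_dead (hv : Hv cmpS cmp cmp' sol sol' S cc f X.W.P le) (hk : Hk le ml sol S cc f X.W)
    (he : S.W e ≠ []) :
    ∀ (t : Tr2) (V : List Nat) (i : Nat) (L : List Nat),
      Cov X.W.P V (S.W e) → i < (S.W e).length → (S.W e).getD i 0 ∈ L →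
      X.ckt ((S.mp cc).c e) (S.W e).length (wsl X.W.P.Q.wm ((S.mp cc).c e)) t V i L = true →
      ded2 t = false := by
  intro t
  induction t with
  | lf o x s u NL => intros; rfl
  | dd n =>
    intro V i L hV _ _ h
    exfalso
    exact fq_sound hk.hw hv he hk.fn hV (Vo.zero he) (Wo.zero he) h
  | sp j t ih =>
    intro V i L hV hi hL h
    have h' : (bif Nat.ble (Nat.succ j) (S.W e).length then
      X.ckt ((S.mp cc).c e) (S.W e).length (wsl X.W.P.Q.wm ((S.mp cc).c e)) t V
        j (X.W.P.lg (gtk V j)) else false) = true := h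
    rw [cond_true_iff] at h'
    have hj : j < (S.W e).length := Nat.le_of_ble_eq_true h'.1
    refine ih V j _ hV hj ?_ h'.2
    rw [gtk_eq]
    exact hV.2 j hj
  | ch a t iha iht =>
    intro V i L hV hi hL h
    cases L with
    | nil => simp at hL
    | cons x L =>
      have h' : (bif (bif X.W.P.imp (wsl X.W.P.Q.wm ((S.mp cc).c e)) x
          (gtk V (prv (S.W e).length i)) (gtk V (nxt (S.W e).length i)) then true else
          X.ckt ((S.mp cc).c e) (S.W e).length (wsl X.W.P.Q.wm ((S.mp cc).c e)) a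
            (stk x V i) i [x]) then
          X.ckt ((S.mp cc).c e) (S.W e).length (wsl X.W.P.Q.wm ((S.mp cc).c e)) t V i L
        else false) = true := h
      rw [cond_true_iff] at h'
      obtain ⟨h1, h2⟩ := h'
      have e1 : ded2 (.ch a t) = (bif ded2 a then ded2 t else false) := rfl
      rw [e1]
      rcases List.mem_cons.1 hL with hx | hx
      · have himp : X.W.P.imp (wsl X.W.P.Q.wm ((S.mp cc).c e)) x
            (gtk V (prv (S.W e).length i)) (gtk V (nxt (S.W e).length i)) = false := by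
          rw [← hx, gtk_eq, gtk_eq]
          exact hv.imp e i hi _ _ (hV.2 _ (prv_lt hi)) (hV.2 _ (nxt_lt hi))
        rw [himp] at h1
        rw [iha (stk x V i) i [x] (cov_set hv hV hi hx) hi
          (by rw [hx]; exact List.mem_singleton.2 rfl) h1]
        rfl
      · rw [iht V i L hV hi hx h2]
        cases ded2 a <;> rfl
  | en =>
    intro V i L _ _ hL h
    cases L with
    | nil => simp at hL
    | cons x L => exact Bool.noConfusion h

/-- the check of an entry of the table of the centres -/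
theorem ckc3_sound {k : Nat} : ∀ {l : List CE2}, X.ckc k l = true → ∀ E ∈ l,
    (ded2 E.t = false → ∀ i < dgn k, X.W.kr k i ≠ 0) ∧
      (((ded2 E.t = false → ∀ i < dgn k, X.M (lo (X.W.ke k i)) = 0) ∧
        X.W.ckt k (dgn k) (wsl X.W.P.Q.wm k) E.t (X.W.P.v0 k) 0
          (X.W.P.lg (gtk (X.W.P.v0 k) 0)) = true) ∨
      ((∀ i < dgn k, X.kc k (dgn k) i = true) ∧
        X.ckt k (dgn k) (wsl X.W.P.Q.wm k) E.t (X.W.P.v0 k) 0
          (X.W.P.lg (gtk (X.W.P.v0 k) 0)) = true))
  | [], _, E, hE => by simp at hE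
  | F :: l, h, E, hE => by
    have h' : (bif Nat.beq F.c k then
      bif (bif ded2 F.t then true else alln (dgn k) (fun i => Nat.ble 1 (X.W.kr k i))) then
        bif (bif X.old k F.t then
            X.W.ckt k (dgn k) (wsl X.W.P.Q.wm k) F.t (X.W.P.v0 k) 0 (X.W.P.lg (gtk (X.W.P.v0 k) 0))
          else bif alln (dgn k) (fun i => X.kc k (dgn k) i) then
            X.ckt k (dgn k) (wsl X.W.P.Q.wm k) F.t (X.W.P.v0 k) 0 (X.W.P.lg (gtk (X.W.P.v0 k) 0))
          else false)
          then X.ckc k l else false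
      else false
    else false) = true := h
    rw [cond_true_iff, cond_true_iff, cond_true_iff] at h'
    obtain ⟨-, h2, h3, h4⟩ := h'
    rcases List.mem_cons.1 hE with rfl | hE
    · refine ⟨fun hd i hi h0 => ?_, ?_⟩
      · rw [hd] at h2
        have h5 := alln_iff.1 h2 i hi
        rw [h0] at h5
        exact Bool.noConfusion h5
      · cases ho : X.old k E.t with
        | true =>
          left
          rw [ho] at h3
          refine ⟨fun hd i hi => ?_, h3⟩
          unfold Px.old at ho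
          rw [hd] at ho
          exact Nat.eq_of_beq_eq_true (alln_iff.1 ho i hi)
        | false =>
          right
          rw [ho] at h3
          dsimp only [cond_false] at h3
          rw [cond_true_iff] at h3
          exact ⟨fun i hi => alln_iff.1 h3.1 i hi, h3.2⟩
    · exact ckc3_sound h4 E hE

end sound

end

end Pool.FCP
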