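import Pool.Agent.FCP.Xb
import Pool.Agent.FCS.Wj

/-!
# Star check with flows on triangles: parts of the tables
-/

namespace Pool.FCP

open Pool.FCS

noncomputable section

/-- the checks of the tables of numbers -/
theorem Px.tab {f : Nat → Nat → Bool} {t : BT Nat} (h : t.allB f = true) :
    ∀ a, t.getN a ≠ 0 → f a (t.getN a) = true :=
  fun _ ha => BT.allB_sound h _ (BT.getN_mem ha)

/-- in a dead tree the two checks are the same -/
theorem Px.ckt_ded {X : Px} {c d k : Nat} : ∀ (t : Tr2), ded2 t = true →
    ∀ (V : List Nat) (i : Nat) (L : List Nat), X.ckt c d k t V i L = X.W.ckt c d k t V i L := by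
  intro t
  induction t with
  | lf o x s u NL => intro h; exact Bool.noConfusion (show false = true from h)
  | dd n => intros; rfl
  | sp j t ih =>
    intro h V i L
    have e1 : X.ckt c d k (.sp j t) V i L =
      (bif Nat.ble (Nat.succ j) d then X.ckt c d k t V j (X.W.P.lg (gtk V j)) else false) := rfl
    have e2 : X.W.ckt c d k (.sp j t) V i L =
      (bif Nat.ble (Nat.succ j) d then X.W.ckt c d k t V j (X.W.P.lg (gtk V j)) else false) := rfl
    rw [e1, e2, ih h]
  | ch a t iha iht =>
    intro h V i L
    have h' : (bif ded2 a then ded2 t else false) = true := h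
    rw [cond_true_iff] at h'
    cases L with
    | nil => rfl
    | cons x L =>
      have e1 : X.ckt c d k (.ch a t) V i (x :: L) =
        (bif (bif X.W.P.imp k x (gtk V (prv d i)) (gtk V (nxt d i)) then true else
          X.ckt c d k a (stk x V i) i [x]) then X.ckt c d k t V i L else false) := rfl
      have e2 : X.W.ckt c d k (.ch a t) V i (x :: L) =
        (bif (bif X.W.P.imp k x (gtk V (prv d i)) (gtk V (nxt d i)) then true else
          X.W.ckt c d k a (stk x V i) i [x]) then X.W.ckt c d k t V i L else false) := rfl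
      rw [e1, e2, iha h'.1, iht h'.2]
  | en => intros; rfl

/-- the entry of a centre, without flows on triangles -/
theorem Px.ckc_old {X : Px} {k d s : Nat} {V L : List Nat} {t : Tr2} (hd : dgn k = d)
    (hs : wsl X.W.P.Q.wm k = s) (hV : X.W.P.v0 k = V) (hL : X.W.P.lg (gtk V 0) = L)
    (hk : alln d (fun i => Nat.ble 1 (X.W.kr k i)) = true)
    (ho : alln d (fun i => Nat.beq (X.M (lo (X.W.ke k i))) 0) = true)
    (ht : X.W.ckt k d s t V 0 L = true) : X.ckc k [⟨k, t⟩] = true := by
  subst hd; subst hs; subst hV; subst hL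
  have e : X.ckc k [⟨k, t⟩] = (bif Nat.beq k k then
      bif (bif ded2 t then true else alln (dgn k) (fun i => Nat.ble 1 (X.W.kr k i))) then
        bif (bif X.old k t then
            X.W.ckt k (dgn k) (wsl X.W.P.Q.wm k) t (X.W.P.v0 k) 0 (X.W.P.lg (gtk (X.W.P.v0 k) 0))
          else bif alln (dgn k) (fun i => X.kc k (dgn k) i) then
            X.ckt k (dgn k) (wsl X.W.P.Q.wm k) t (X.W.P.v0 k) 0 (X.W.P.lg (gtk (X.W.P.v0 k) 0))
          else false)
          then true else false
      else false
    else false) := rfl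
  have e1 : X.old k t = true := by
    unfold Px.old
    rw [ho]
    cases ded2 t <;> rfl
  rw [e, hk, e1, ht, Nat.beq_refl k]
  cases ded2 t <;> rfl

/-- the entry of a centre -/
theorem Px.ckc_of {X : Px} {k d s : Nat} {V L : List Nat} {t : Tr2} (hd : dgn k = d)
    (hs : wsl X.W.P.Q.wm k = s) (hV : X.W.P.v0 k = V) (hL : X.W.P.lg (gtk V 0) = L)
    (hk : alln d (fun i => Nat.ble 1 (X.W.kr k i)) = true)
    (ho : alln d (fun i => Nat.beq (X.M (lo (X.W.ke k i))) 0) = false)
    (hc : alln d (fun i => X.kc k d i) = true)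
    (ht : X.ckt k d s t V 0 L = true) : X.ckc k [⟨k, t⟩] = true := by
  subst hd; subst hs; subst hV; subst hL
  have e : X.ckc k [⟨k, t⟩] = (bif Nat.beq k k then
      bif (bif ded2 t then true else alln (dgn k) (fun i => Nat.ble 1 (X.W.kr k i))) then
        bif (bif X.old k t then
            X.W.ckt k (dgn k) (wsl X.W.P.Q.wm k) t (X.W.P.v0 k) 0 (X.W.P.lg (gtk (X.W.P.v0 k) 0))
          else bif alln (dgn k) (fun i => X.kc k (dgn k) i) then
            X.ckt k (dgn k) (wsl X.W.P.Q.wm k) t (X.W.P.v0 k) 0 (X.W.P.lg (gtk (X.W.P.v0 k) 0))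
          else false)
          then true else false
      else false
    else false) := rfl
  rw [e, hk, Nat.beq_refl k]
  cases h : ded2 t with
  | true =>
    have e1 : X.old k t = true := by
      unfold Px.old
      rw [h]
      rfl
    rw [e1, ← Px.ckt_ded t h, ht]
    rfl
  | false =>
    have e1 : X.old k t = false := by
      unfold Px.old
      rw [h, ho]
      rfl
    rw [e1, hc, ht]
    rfl

/-- the entry of a dead centre -/
theorem Px.ckc_dd {X : Px} {k d s : Nat} {V L : List Nat} {t : Tr2} (hd : dgn k = d)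
    (hs : wsl X.W.P.Q.wm k = s) (hV : X.W.P.v0 k = V) (hL : X.W.P.lg (gtk V 0) = L)
    (hk : ded2 t = true) (ht : X.W.ckt k d s t V 0 L = true) : X.ckc k [⟨k, t⟩] = true := by
  subst hd; subst hs; subst hV; subst hL
  have e : X.ckc k [⟨k, t⟩] = (bif Nat.beq k k then
      bif (bif ded2 t then true else alln (dgn k) (fun i => Nat.ble 1 (X.W.kr k i))) then
        bif (bif X.old k t then
            X.W.ckt k (dgn k) (wsl X.W.P.Q.wm k) t (X.W.P.v0 k) 0 (X.W.P.lg (gtk (X.W.P.v0 k) 0))
          else bif alln (dgn k) (fun i => X.kc k (dgn k) i) then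
            X.ckt k (dgn k) (wsl X.W.P.Q.wm k) t (X.W.P.v0 k) 0 (X.W.P.lg (gtk (X.W.P.v0 k) 0))
          else false)
          then true else false
      else false
    else false) := rfl
  have e1 : X.old k t = true := by
    unfold Px.old
    rw [hk]
    rfl
  rw [e, e1, hk, ht, Nat.beq_refl k]
  rfl

/-- split of a sector -/
theorem Px.ckt_sp {X : Px} {c d k i j : Nat} {V L M : List Nat} {t : Tr2}
    (hi : Nat.ble (Nat.succ i) d = true) (hM : X.W.P.lg (gtk V i) = M)
    (h : X.ckt c d k t V i M = true) : X.ckt c d k (.sp i t) V j L = true := by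
  subst hM
  have e : X.ckt c d k (.sp i t) V j L =
    (bif Nat.ble (Nat.succ i) d then X.ckt c d k t V i (X.W.P.lg (gtk V i)) else false) := rfl
  rw [e, hi]
  exact h

/-- the next letter -/
theorem Px.ckt_ch {X : Px} {c d k i x : Nat} {V U L : List Nat} {a t : Tr2}
    (hU : stk x V i = U) (ha : X.ckt c d k a U i [x] = true) (ht : X.ckt c d k t V i L = true) :
    X.ckt c d k (.ch a t) V i (x :: L) = true := by
  subst hU
  have e : X.ckt c d k (.ch a t) V i (x :: L) =
    (bif (bif X.W.P.imp k x (gtk V (prv d i)) (gtk V (nxt d i)) then true else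
      X.ckt c d k a (stk x V i) i [x]) then X.ckt c d k t V i L else false) := rfl
  rw [e, ha, ht]
  cases X.W.P.imp k x (gtk V (prv d i)) (gtk V (nxt d i)) <;> rfl

/-- an impossible letter -/
theorem Px.ckt_im {X : Px} {c d k i x : Nat} {V L : List Nat} {a t : Tr2}
    (hi : X.W.P.imp k x (gtk V (prv d i)) (gtk V (nxt d i)) = true)
    (ht : X.ckt c d k t V i L = true) : X.ckt c d k (.ch a t) V i (x :: L) = true := by
  have e : X.ckt c d k (.ch a t) V i (x :: L) =
    (bif (bif X.W.P.imp k x (gtk V (prv d i)) (gtk V (nxt d i)) then true else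
      X.ckt c d k a (stk x V i) i [x]) then X.ckt c d k t V i L else false) := rfl
  rw [e, hi, ht]
  rfl

/-- no more letters -/
theorem Px.ckt_nil {X : Px} {c d k i : Nat} {V : List Nat} {a t : Tr2} :
    X.ckt c d k (.ch a t) V i [] = true := rfl

/-- the end -/
theorem Px.ckt_en {X : Px} {c d k i : Nat} {V : List Nat} : X.ckt c d k .en V i [] = true := rfl

end

end Pool.FCP
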