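import Pool.Agent.FCP.Yc

/-!
# Star check with flows on kites: the search
-/

namespace Pool.FCP

open Pool.FCS

open Finset

noncomputable section

variable {K : Kx} {WL WM : BT (List Nat)}

section sound

variable {D : Type*} {cmp cmp' cmpS : Nat → Nat → Bool} {sol sol' lng : Nat → Bool}
  {S : Sys D} {cc f : Nat → Nat} {X : Px} {le : Nat → Nat → Bool}
  {ml : Nat → Nat} {e : D}

/-! ### The triangle part -/

/-- the new sum of the triangles -/
theorem ax_ok (hx : Kt X WL) (hv : Hv cmpS cmp cmp' sol sol' S cc f X.W.P le)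
    (he : S.W e ≠ [])
    (hK : Kk X.W ((S.mp cc).c e) (S.W e).length)
    (hkc : ∀ i < (S.W e).length, X.kc ((S.mp cc).c e) (S.W e).length i = true)
    {i : Nat} (hi : i < (S.W e).length)
    {pre : List Nat} (hpre : ∀ j ∈ pre, j < (S.W e).length) {B : Nat → Prop}
    (hB : ∀ t, B t ↔ ∃ j ∈ pre, X.W.P.kp (S.mp cc) e j ≠ 0 ∧
      t = X.W.P.w * j + X.W.P.kp (S.mp cc) e j) (h0 : X.W.P.kp (S.mp cc) e i ≠ 0) {Z : Nat}
    (hZ' : ∀ t, Nat.testBit Z t = true ↔
        (B t ∨ t = X.W.P.w * i + X.W.P.kp (S.mp cc) e i)) {G g : Nat}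
    (g1 : g ≤ gn G (X.W.P.kp (S.mp cc) e i)) {A : Nat → Nat → Nat → Nat}
    (A0 : X.M (lo (X.W.ke ((S.mp cc).c e) i)) +
        X.M (lo (X.W.ke ((S.mp cc).c e) (prv (S.W e).length i))) = 0 →
      ∀ κ Z s, A κ Z s = s + gn G κ)
    (A1 : X.M (lo (X.W.ke ((S.mp cc).c e) i)) +
        X.M (lo (X.W.ke ((S.mp cc).c e) (prv (S.W e).length i))) ≠ 0 →
      A = axs X.W.P.w (Nat.mul X.W.P.w (nxt (S.W e).length i))
        (Nat.mul X.W.P.w (prv (S.W e).length i))
        (X.M (lo (X.W.ke ((S.mp cc).c e) i)))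
        (X.M (lo (X.W.ke ((S.mp cc).c e) (prv (S.W e).length i))))
        (X.V (X.W.ke ((S.mp cc).c e) i))
        (X.V (X.W.ke ((S.mp cc).c e) (nxt (S.W e).length i)))
        (X.V (X.W.ke ((S.mp cc).c e) (prv (S.W e).length i))) G) (s : Nat) :
    (s : ℤ) + ((g : ℤ) + X.inc (S.mp cc) e (S.W e).length pre i) ≤
      (A (X.W.P.kp (S.mp cc) e i) Z s : ℤ) := by
  have h4 := (hv.hS.len e he).1
  have hkp : ∀ j < (S.W e).length, X.W.P.kp (S.mp cc) e j < X.W.P.w := fun j hj =>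
    (kp_lt (kk_ckR' hK 0) (i := j) (by rw [mlen]; exact hj)).2
  have einc : X.inc (S.mp cc) e (S.W e).length pre i =
    (if nxt (S.W e).length i ∈ pre ∧ X.W.P.kp (S.mp cc) e (nxt (S.W e).length i) ≠ 0 then
      X.xi (S.mp cc) e (S.W e).length i else 0) +
    (if prv (S.W e).length i ∈ pre ∧ X.W.P.kp (S.mp cc) e (prv (S.W e).length i) ≠ 0 then
      X.xi (S.mp cc) e (S.W e).length (prv (S.W e).length i) else 0) := by
    unfold Px.inc
    rw [if_neg h0]
  rw [einc]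
  have zN := zpos (w := X.W.P.w) (kp := X.W.P.kp (S.mp cc) e) hkp hpre hi (nxt_lt hi)
    (nxt_ne (by omega)) hB hZ'
  have zP := zpos (w := X.W.P.w) (kp := X.W.P.kp (S.mp cc) e) hkp hpre hi (prv_lt hi)
    (prv_ne (by omega) hi) hB hZ'
  by_cases hM : X.M (lo (X.W.ke ((S.mp cc).c e) i)) +
      X.M (lo (X.W.ke ((S.mp cc).c e) (prv (S.W e).length i))) = 0
  · rw [A0 hM, xi_zero hx (show X.M (lo (X.W.ke ((S.mp cc).c e) i)) = 0 by omega),
      xi_zero hx (show X.M (lo (X.W.ke ((S.mp cc).c e) (prv (S.W e).length i))) = 0 by omega)]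
    rw [ite_self, ite_self]
    omega
  · rw [A1 hM]
    have hVi : X.V (X.W.ke ((S.mp cc).c e) i) ≠ 0 := by
      have h1 := hkc i hi
      unfold Px.kc at h1
      have e1 : Nat.beq (Nat.add (X.M (lo (X.W.ke ((S.mp cc).c e) i)))
        (X.M (lo (X.W.ke ((S.mp cc).c e) (prv (S.W e).length i))))) 0 = false :=
        beq_zero_of hM
      rw [e1] at h1
      intro h2
      rw [h2] at h1
      exact Bool.noConfusion (show false = true from h1)
    obtain ⟨v1, v2⟩ := vfd_ok hx hv hK hi h0 hVi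
    rw [axs_eq]
    rw [frc_eq, frc_eq, v1, v2]
    have e5 : Nat.add s (gnl G (X.W.P.kp (S.mp cc) e i)) =
      s + gn G (X.W.P.kp (S.mp cc) e i) := rfl
    rw [e5]
    have g2 : (s : ℤ) + (g : ℤ) ≤ ((s + gn G (X.W.P.kp (S.mp cc) e i) : Nat) : ℤ) := by
      push_cast
      omega
    generalize s + gn G (X.W.P.kp (S.mp cc) e i) = s1 at g2 ⊢
    -- the right neighbour
    have hR : (s1 : ℤ) + (if nxt (S.W e).length i ∈ pre ∧
        X.W.P.kp (S.mp cc) e (nxt (S.W e).length i) ≠ 0 then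
          X.xi (S.mp cc) e (S.W e).length i else 0) ≤
        (crR X.W.P.w (X.M (lo (X.W.ke ((S.mp cc).c e) i))) (X.cb (S.mp cc) e i)
          (Nat.mul X.W.P.w (nxt (S.W e).length i))
          (X.V (X.W.ke ((S.mp cc).c e) (nxt (S.W e).length i))) Z s1 : ℤ) := by
      by_cases hc : nxt (S.W e).length i ∈ pre ∧
        X.W.P.kp (S.mp cc) e (nxt (S.W e).length i) ≠ 0
      · rw [if_pos hc]
        have h1 := crR_le (m := X.M (lo (X.W.ke ((S.mp cc).c e) i))) (b := X.cb (S.mp cc) e i)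
          (V := X.V (X.W.ke ((S.mp cc).c e) (nxt (S.W e).length i))) (s := s1) (zN.1 hc)
        refine le_trans (le_of_eq ?_) h1
        by_cases hm : X.M (lo (X.W.ke ((S.mp cc).c e) i)) = 0
        · rw [xi_zero hx hm, cb_zero hx hm, xbc_b0]
          simp
        · have h2 := hkc _ (nxt_lt hi)
          unfold Px.kc at h2
          rw [prv_nxt hi] at h2
          have e1 : Nat.beq (Nat.add (X.M (lo (X.W.ke ((S.mp cc).c e) (nxt (S.W e).length i))))
            (X.M (lo (X.W.ke ((S.mp cc).c e) i)))) 0 = false :=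
            beq_zero_of (show X.M (lo (X.W.ke ((S.mp cc).c e) (nxt (S.W e).length i))) +
              X.M (lo (X.W.ke ((S.mp cc).c e) i)) ≠ 0 by omega)
          rw [e1] at h2
          have hVn : X.V (X.W.ke ((S.mp cc).c e) (nxt (S.W e).length i)) ≠ 0 := by
            intro h3
            rw [h3] at h2
            exact Bool.noConfusion (show false = true from h2)
          rw [(vfd_ok hx hv hK (nxt_lt hi) hc.2 hVn).2]
          rfl
      · rw [if_neg hc, crR_zero (zN.2 hc), add_zero]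
    -- the left neighbour
    have hL : ∀ s2 : Nat, (s2 : ℤ) + (if prv (S.W e).length i ∈ pre ∧
        X.W.P.kp (S.mp cc) e (prv (S.W e).length i) ≠ 0 then
          X.xi (S.mp cc) e (S.W e).length (prv (S.W e).length i) else 0) ≤
        (crL X.W.P.w (X.M (lo (X.W.ke ((S.mp cc).c e) (prv (S.W e).length i))))
          (X.ct (S.mp cc) e i) (Nat.mul X.W.P.w (prv (S.W e).length i))
          (X.V (X.W.ke ((S.mp cc).c e) (prv (S.W e).length i))) Z s2 : ℤ) := by
      intro s2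
      by_cases hc : prv (S.W e).length i ∈ pre ∧
        X.W.P.kp (S.mp cc) e (prv (S.W e).length i) ≠ 0
      · rw [if_pos hc]
        have h1 := crL_le (m := X.M (lo (X.W.ke ((S.mp cc).c e) (prv (S.W e).length i))))
          (c := X.ct (S.mp cc) e i)
          (V := X.V (X.W.ke ((S.mp cc).c e) (prv (S.W e).length i))) (s := s2) (zP.1 hc)
        refine le_trans (le_of_eq ?_) h1
        by_cases hm : X.M (lo (X.W.ke ((S.mp cc).c e) (prv (S.W e).length i))) = 0
        · rw [xi_zero hx hm, ct_zero hx hv he hi hm, xbc_c0]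
          simp
        · have h2 := hkc _ (prv_lt hi)
          unfold Px.kc at h2
          have e1 : Nat.beq (Nat.add (X.M (lo (X.W.ke ((S.mp cc).c e) (prv (S.W e).length i))))
            (X.M (lo (X.W.ke ((S.mp cc).c e) (prv (S.W e).length
              (prv (S.W e).length i)))))) 0 = false :=
            beq_zero_of (show X.M (lo (X.W.ke ((S.mp cc).c e) (prv (S.W e).length i))) +
              X.M (lo (X.W.ke ((S.mp cc).c e) (prv (S.W e).length
              (prv (S.W e).length i)))) ≠ 0 by omega)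
          rw [e1] at h2
          have hVn : X.V (X.W.ke ((S.mp cc).c e) (prv (S.W e).length i)) ≠ 0 := by
            intro h3
            rw [h3] at h2
            exact Bool.noConfusion (show false = true from h2)
          rw [(vfd_ok hx hv hK (prv_lt hi) hc.2 hVn).1]
          unfold Px.xi
          rw [nxt_prv hi]
      · rw [if_neg hc, crL_zero (zP.2 hc), add_zero]
    refine le_trans ?_ (hL _)
    omega

/-! ### The bounds of the gains of the kites -/

/-- the record of the position `j` -/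
def Kx.lj (K : Kx) (Y : Sys D) (e : D) (j : Nat) : Nat :=
  K.lc (K.aq (K.X.W.ke (Y.c e) j)) (K.X.W.P.nfy Y e j)

/-- the row of the position `j` -/
def Kx.rj (K : Kx) (Y : Sys D) (e : D) (d j : Nat) : Nat :=
  rwk (rcd (K.Y (K.aq (K.X.W.ke (Y.c e) j))) (K.lj Y e j))
    (K.B (pr2 (lo (K.X.W.ke (Y.c e) j)) (cB (K.X.W.P.nfy Y e (prv d j)))))

/-- the column of the position `j` -/
def Kx.cj (K : Kx) (Y : Sys D) (e : D) (d j : Nat) : Nat :=
  clk (rcd (K.Y (K.aq (K.X.W.ke (Y.c e) j))) (K.lj Y e j))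
    (K.C (pr2 (lo (K.X.W.ke (Y.c e) j)) (cC (K.X.W.P.nfy Y e (nxt d j)))))

/-- the bound of the gain at the position `j`, `L`, `R`: the previous, the next neighbour is known -/
def Kx.yb (K : Kx) (Y : Sys D) (e : D) (d j : Nat) (L R : Bool) : ℤ :=
  if K.lj Y e j = 0 then 0 else
    (yF (rcd (K.Y (K.aq (K.X.W.ke (Y.c e) j))) (K.lj Y e j)) (bif L then K.rj Y e d j else 0)
      (bif R then K.cj Y e d j else 0) : ℤ) - 65536

theorem Kx.lc_eq (K : Kx) (p u : Nat) : K.lc p u = if u ≤ 1 then 0 else K.loc p u := by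
  unfold Kx.lc
  by_cases h : u ≤ 1
  · rw [if_pos h, Nat.ble_eq_true_of_le h]
  · have h1 : Nat.ble u 1 = false := by
      rw [← Bool.not_eq_true, Nat.ble_eq]; exact h
    rw [if_neg h, h1]

/-- both neighbours known: the gain -/
theorem Kx.yb_tt (K : Kx) (Y : Sys D) (e : D) (d j : Nat) :
    K.yb Y e d j true true = K.yi Y e d j := by
  unfold Kx.yb Kx.yi Kx.rj Kx.cj Kx.lj
  rw [K.lc_eq]
  by_cases h : K.X.W.P.nfy Y e j ≤ 1
  · rw [if_pos h, if_pos rfl, if_pos h]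
  · rw [if_neg h, if_neg h, K.y_eq]
    by_cases h1 : K.loc (K.aq (K.X.W.ke (Y.c e) j)) (K.X.W.P.nfy Y e j) = 0
    · rw [if_pos h1, if_pos h1]
      rfl
    · rw [if_neg h1, if_neg h1]
      have h2 : lo (K.aq (K.X.W.ke (Y.c e) j)) = lo (K.X.W.ke (Y.c e) j) := lo_aqk K.qt _
      rw [h2]
      rfl

theorem Kz.yb_rec (hx : Kz K WL) {Y : Sys D} {e : D} {j : Nat} (h : K.lj Y e j ≠ 0) :
    RecOk K (K.aq (K.X.W.ke (Y.c e) j)) (K.X.J (K.X.W.P.nfy Y e j))
      (rcd (K.Y (K.aq (K.X.W.ke (Y.c e) j))) (K.lj Y e j)) := by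
  unfold Kx.lj at h ⊢
  rw [K.lc_eq] at h ⊢
  by_cases h1 : K.X.W.P.nfy Y e j ≤ 1
  · rw [if_pos h1] at h
    exact absurd rfl h
  · rw [if_neg h1] at h ⊢
    exact hx.rcOk (aqk_lt K.qt _) h

/-- the four bounds -/
theorem Kz.yb_mono (hx : Kz K WL) (Y : Sys D) (e : D) (d j : Nat) :
    K.yb Y e d j true true ≤ K.yb Y e d j true false ∧
    K.yb Y e d j true true ≤ K.yb Y e d j false true ∧
    K.yb Y e d j true false ≤ K.yb Y e d j false false ∧
    K.yb Y e d j false true ≤ K.yb Y e d j false false := by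
  unfold Kx.yb
  by_cases h : K.lj Y e j = 0
  · rw [if_pos h, if_pos h, if_pos h, if_pos h]
    exact ⟨le_refl _, le_refl _, le_refl _, le_refl _⟩
  · have hr := hx.yb_rec h
    have h2 : lo (K.aq (K.X.W.ke (Y.c e) j)) = lo (K.X.W.ke (Y.c e) j) := lo_aqk K.qt _
    have b1 := hr.bR (cB (K.X.W.P.nfy Y e (prv d j))) (cC (K.X.W.P.nfy Y e (nxt d j)))
    have b2 := hr.bC (cB (K.X.W.P.nfy Y e (prv d j))) (cC (K.X.W.P.nfy Y e (nxt d j)))
    have b3 := hr.zR (cB (K.X.W.P.nfy Y e (prv d j)))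
    have b4 := hr.zC (cC (K.X.W.P.nfy Y e (nxt d j)))
    rw [h2] at b1 b2 b3 b4
    rw [if_neg h, if_neg h, if_neg h, if_neg h]
    dsimp only [cond_true, cond_false]
    unfold Kx.rj Kx.cj
    refine ⟨?_, ?_, ?_, ?_⟩ <;> omega

theorem Kx.ay_eq (K : Kx) (a u : Nat) : K.ay a u = if K.lc (K.aq a) u = 0 then 0 else
    rkF (rcd (K.Y (K.aq a)) (K.lc (K.aq a) u)) 0 0 - 65536 := by
  unfold Kx.ay
  rw [frc_eq, frc_eq]
  by_cases h : K.lc (K.aq a) u = 0
  · rw [if_pos h, h]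
    rfl
  · rw [if_neg h, beq_false_of h]
    rfl

theorem Kx.yb_ay (K : Kx) (Y : Sys D) (e : D) (d j : Nat) :
    K.yb Y e d j false false ≤ K.ay (K.X.W.ke (Y.c e) j) (K.X.W.P.nfy Y e j) := by
  unfold Kx.yb
  rw [K.ay_eq]
  by_cases h : K.lj Y e j = 0
  · rw [if_pos h]
    omega
  · have h1 : K.lc (K.aq (K.X.W.ke (Y.c e) j)) (K.X.W.P.nfy Y e j) ≠ 0 := h
    rw [if_neg h, if_neg h1]
    dsimp only [cond_false]
    rw [yF_eq (show (0 : Nat) ≠ 255 by decide) (show (0 : Nat) ≠ 255 by decide)]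
    have e1 : K.lj Y e j = K.lc (K.aq (K.X.W.ke (Y.c e) j)) (K.X.W.P.nfy Y e j) := rfl
    rw [e1]
    omega

/-- monotone in both -/
theorem Kz.yb_le (hx : Kz K WL) (Y : Sys D) (e : D) (d j : Nat) (L R : Bool) :
    K.yb Y e d j true R ≤ K.yb Y e d j false R ∧ K.yb Y e d j L true ≤ K.yb Y e d j L false ∧
      K.yb Y e d j L R ≤ K.ay (K.X.W.ke (Y.c e) j) (K.X.W.P.nfy Y e j) := by
  obtain ⟨h1, h2, h3, h4⟩ := hx.yb_mono Y e d j
  have h5 := K.yb_ay Y e d j
  cases L <;> cases R <;> refine ⟨?_, ?_, ?_⟩ <;> omega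

theorem Kx.yb_y0 {Y : Sys D} {d j : Nat} (h : K.Y (K.aq (K.X.W.ke (Y.c e) j)) = 0)
    (L R : Bool) : K.yb Y e d j L R = 0 := by
  unfold Kx.yb
  rw [if_pos]
  unfold Kx.lj
  rw [K.lc_eq]
  by_cases h1 : K.X.W.P.nfy Y e j ≤ 1
  · rw [if_pos h1]
  · rw [if_neg h1, Kx.loc_y0 h]

/-- `j` is in `pre` and a candidate -/
def Kx.chs (K : Kx) (Y : Sys D) (e : D) (pre : List Nat) (j : Nat) : Prop :=
  j ∈ pre ∧ K.X.W.P.kp Y e j ≠ 0

instance (K : Kx) (Y : Sys D) (e : D) (pre : List Nat) (j : Nat) :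
    Decidable (K.chs Y e pre j) := by
  unfold Kx.chs
  infer_instance

/-- what the search adds at the position `i` after the positions `pre` -/
def Kx.inc (K : Kx) (Y : Sys D) (e : D) (d : Nat) (pre : List Nat) (i : Nat) : ℤ :=
  if K.X.W.P.kp Y e i = 0 then (K.ay (K.X.W.ke (Y.c e) i) (K.X.W.P.nfy Y e i) : ℤ) else
    K.yb Y e d i (decide (K.chs Y e pre (prv d i))) (decide (K.chs Y e pre (nxt d i))) +
      ((if K.chs Y e pre (nxt d i) then
          K.yb Y e d (nxt d i) true (decide (K.chs Y e pre (nxt d (nxt d i)))) -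
            K.yb Y e d (nxt d i) false (decide (K.chs Y e pre (nxt d (nxt d i)))) else 0) +
        (if K.chs Y e pre (prv d i) then
          K.yb Y e d (prv d i) (decide (K.chs Y e pre (prv d (prv d i)))) true -
            K.yb Y e d (prv d i) (decide (K.chs Y e pre (prv d (prv d i)))) false else 0))

theorem Kz.inc_le (hx : Kz K WL) (Y : Sys D) (e : D) (d : Nat) (pre : List Nat) (i : Nat) :
    K.inc Y e d pre i ≤ K.ay (K.X.W.ke (Y.c e) i) (K.X.W.P.nfy Y e i) := by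
  unfold Kx.inc
  by_cases h0 : K.X.W.P.kp Y e i = 0
  · rw [if_pos h0]
  · rw [if_neg h0]
    have h1 := (hx.yb_le Y e d i (decide (K.chs Y e pre (prv d i)))
      (decide (K.chs Y e pre (nxt d i)))).2.2
    have h2 := (hx.yb_le Y e d (nxt d i) true
      (decide (K.chs Y e pre (nxt d (nxt d i))))).1
    have h3 := (hx.yb_le Y e d (prv d i) (decide (K.chs Y e pre (prv d (prv d i)))) true).2.1
    split_ifs <;> omega

/-! ### The parts of the search -/

theorem kap_eq {w a Z κ : Nat} (h : Nat.mod (Nat.shiftRight Z a) (Nat.pow 2 w) = 2 ^ κ) :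
    kap w a Z = κ := by
  unfold kap
  rw [h, lgm_eq, Nat.log2_two_pow]

theorem kap_zero {w a Z : Nat} (h : Nat.mod (Nat.shiftRight Z a) (Nat.pow 2 w) = 0) :
    kap w a Z = 0 := by
  unfold kap
  rw [h, lgm_eq]
  rfl

theorem rwc_zero {R U : Nat} : rwc R U 0 = 0 := rfl

theorem clc_zero {R U : Nat} : clc R U 0 = 0 := rfl

theorem rwc_pos {R U κ : Nat} (h : κ ≠ 0) : rwc R U κ = rwk R (uB U κ) := by
  unfold rwc
  rw [beq_false_of h]

theorem clc_pos {R U κ : Nat} (h : κ ≠ 0) : clc R U κ = clk R (uC U κ) := by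
  unfold clc
  rw [beq_false_of h]

theorem kOwn_le {w m U UL UR aL aR κ Z s : Nat} {l ρ γ : Nat} (hl : uL U κ = l)
    (hρ : l ≠ 0 → rwc (rcd m l) UL (kap w aL Z) = ρ)
    (hγ : l ≠ 0 → clc (rcd m l) UR (kap w aR Z) = γ) :
    (s : ℤ) + (if l = 0 then 0 else (yF (rcd m l) ρ γ : ℤ) - 65536) ≤
      (kOwn w m U UL UR aL aR κ Z s : ℤ) := by
  unfold kOwn
  rw [frc_eq, hl]
  by_cases h : l = 0
  · subst h
    rw [if_pos rfl, add_zero]
    exact le_refl (s : ℤ)
  · rw [if_neg h, beq_false_of h]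
    dsimp only
    rw [frc_eq, frc_eq, frc_eq, hρ h, hγ h]
    have e : Nat.sub (Nat.add s (yF (rcd m l) ρ γ)) 65536 =
      (s + yF (rcd m l) ρ γ) - 65536 := rfl
    rw [e]
    omega

theorem kRgt_zero {w m U UR a aR g Z s : Nat} (h : kap w a Z = 0) :
    kRgt w m U UR a aR g Z s = s := by
  unfold kRgt
  rw [frc_eq, h]
  rfl

theorem kRgt_le {w m U UR a aR g Z s κ : Nat} {l ρ γ : Nat} (hk : kap w a Z = κ) (hk0 : κ ≠ 0)
    (hl : uL U κ = l) (hρ : l ≠ 0 → rwk (rcd m l) g = ρ)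
    (hγ : l ≠ 0 → clc (rcd m l) UR (kap w aR Z) = γ) :
    (s : ℤ) + ((if l = 0 then 0 else (yF (rcd m l) ρ γ : ℤ) - 65536) -
      (if l = 0 then 0 else (yF (rcd m l) 0 γ : ℤ) - 65536)) ≤
      (kRgt w m U UR a aR g Z s : ℤ) := by
  unfold kRgt
  rw [frc_eq, hk, beq_false_of hk0]
  dsimp only
  rw [frc_eq, hl]
  by_cases h : l = 0
  · subst h
    rw [if_pos rfl, if_pos rfl, sub_zero, add_zero]
    exact le_refl (s : ℤ)
  · rw [if_neg h, if_neg h, beq_false_of h]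
    dsimp only
    rw [frc_eq, frc_eq, frc_eq, hρ h, hγ h]
    have e : Nat.sub (Nat.add s (yF (rcd m l) ρ γ)) (yF (rcd m l) 0 γ) =
      (s + yF (rcd m l) ρ γ) - yF (rcd m l) 0 γ := rfl
    rw [e]
    omega

theorem kLft_zero {w m U UL a aL g Z s : Nat} (h : kap w a Z = 0) :
    kLft w m U UL a aL g Z s = s := by
  unfold kLft
  rw [frc_eq, h]
  rfl

theorem kLft_le {w m U UL a aL g Z s κ : Nat} {l ρ γ : Nat} (hk : kap w a Z = κ) (hk0 : κ ≠ 0)
    (hl : uL U κ = l) (hρ : l ≠ 0 → rwc (rcd m l) UL (kap w aL Z) = ρ)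
    (hγ : l ≠ 0 → clk (rcd m l) g = γ) :
    (s : ℤ) + ((if l = 0 then 0 else (yF (rcd m l) ρ γ : ℤ) - 65536) -
      (if l = 0 then 0 else (yF (rcd m l) ρ 0 : ℤ) - 65536)) ≤
      (kLft w m U UL a aL g Z s : ℤ) := by
  unfold kLft
  rw [frc_eq, hk, beq_false_of hk0]
  dsimp only
  rw [frc_eq, hl]
  by_cases h : l = 0
  · subst h
    rw [if_pos rfl, if_pos rfl, sub_zero, add_zero]
    exact le_refl (s : ℤ)
  · rw [if_neg h, if_neg h, beq_false_of h]
    dsimp only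
    rw [frc_eq, frc_eq, frc_eq, hρ h, hγ h]
    have e : Nat.sub (Nat.add s (yF (rcd m l) ρ γ)) (yF (rcd m l) ρ 0) =
      (s + yF (rcd m l) ρ γ) - yF (rcd m l) ρ 0 := rfl
    rw [e]
    omega

theorem ifN_zero {m s : Nat} {f : Nat → Nat} (h : m = 0) : ifN m f s = s := by
  subst h
  rfl

theorem ifN_pos {m s : Nat} {f : Nat → Nat} (h : m ≠ 0) : ifN m f s = f s := by
  unfold ifN
  rw [beq_false_of h]

/-- the key of a position has the right codes -/
theorem Kz.lo_rlc (hx : Kz K WL) (hv : Hv cmpS cmp cmp' sol sol' S cc f K.X.W.P le)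
    (hWL : ∀ e, (S.mp cc).W e ≠ [] →
      K.X.W.P.Q.ky ((S.mp cc).c e) ∈ WL.get (hi (K.X.W.P.Q.ky ((S.mp cc).c e))))
    (he : S.W e ≠ []) {i : Nat} (hil : i < (S.W e).length) :
    rlc (lo (K.X.W.ke ((S.mp cc).c e) i)) =
      lo (K.X.W.ke ((S.mp cc).c e) (nxt (S.W e).length i)) := by
  have he' : (S.mp cc).W e ≠ [] := mp_ne.2 he
  have h1 : K.X.W.ke ((S.mp cc).c e) (nxt (S.W e).length i) =
      K.X.W.P.Q.ky ((S.mp cc).c ((S.mp cc).nx^[nxt (S.W e).length i] e)) := by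
    unfold Pw.ke
    rw [rot_c hv.h2.ok he' _]
  have h2 := (hx.kt.kw (hWL _ (hv.h2.ok.ne_iter he' (nxt (S.W e).length i)))).1
  rw [← h1] at h2
  rw [← lo_nxt hv he hil]
  exact h2

/-- the data of the candidate which is the neighbour -/
theorem Kz.u_ok (hx : Kz K WL) (hv : Hv cmpS cmp cmp' sol sol' S cc f K.X.W.P le)
    (hWL : ∀ e, (S.mp cc).W e ≠ [] →
      K.X.W.P.Q.ky ((S.mp cc).c e) ∈ WL.get (hi (K.X.W.P.Q.ky ((S.mp cc).c e))))
    (he : S.W e ≠ [])
    (hK : Kk K.X.W ((S.mp cc).c e) (S.W e).length) {i : Nat} (hil : i < (S.W e).length)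
    (h0 : K.X.W.P.kp (S.mp cc) e i ≠ 0) (hU : K.U (K.X.W.ke ((S.mp cc).c e) i) ≠ 0) :
    uL (K.U (K.X.W.ke ((S.mp cc).c e) i)) (K.X.W.P.kp (S.mp cc) e i) = K.lj (S.mp cc) e i ∧
    uB (K.U (K.X.W.ke ((S.mp cc).c e) i)) (K.X.W.P.kp (S.mp cc) e i) =
      K.B (pr2 (lo (K.X.W.ke ((S.mp cc).c e) (nxt (S.W e).length i)))
        (cB (K.X.W.P.nfy (S.mp cc) e i))) ∧
    uC (K.U (K.X.W.ke ((S.mp cc).c e) i)) (K.X.W.P.kp (S.mp cc) e i) =
      K.C (pr2 (lo (K.X.W.ke ((S.mp cc).c e) (prv (S.W e).length i)))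
        (cC (K.X.W.P.nfy (S.mp cc) e i))) := by
  have hp := kok_kp (hK i hil)
  have q1 : (K.X.W.P.ps ((S.mp cc).c e) i).cl =
      (K.X.W.P.Q.pos (K.X.W.ke ((S.mp cc).c e) i) 0).cl := Pm.pos_cl _ _ _
  have hn : (K.X.W.P.ps ((S.mp cc).c e) i).cl.length = kn (K.X.W.kr ((S.mp cc).c e) i) := by
    rw [q1]; exact hp.n
  have hkl : K.X.W.P.kp (S.mp cc) e i ≤ kn (K.X.W.kr ((S.mp cc).c e) i) := by
    rw [← hn]; exact ix_le _ _
  have h1 := hx.kU _ hU
  unfold Kx.kU at h1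
  rw [frc_eq, frc_eq, frc_eq, hx.lo_rlc hv hWL he hil, lo_prv hv he hil] at h1
  obtain ⟨k, hk⟩ : ∃ k, K.X.W.P.kp (S.mp cc) e i = k + 1 :=
    ⟨K.X.W.P.kp (S.mp cc) e i - 1, by omega⟩
  have h2 := alln_iff.1 h1 k (by
    show k < kn (K.X.W.kr ((S.mp cc).c e) i)
    omega)
  rw [frc_eq, frc_eq] at h2
  have e1 : Nat.succ k = K.X.W.P.kp (S.mp cc) e i := hk.symm
  rw [e1, cd_kp hv h0, brec_and, brec_and] at h2
  exact ⟨Nat.eq_of_beq_eq_true h2.1, Nat.eq_of_beq_eq_true h2.2.1,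
    Nat.eq_of_beq_eq_true h2.2.2⟩

/-- the records are used: the candidates are known -/
theorem Kx.kc_of {c d i : Nat} (h : K.kc c d i = true) (h1 : K.Y (K.aq (K.X.W.ke c i)) ≠ 0 ∨
    K.Y (K.aq (K.X.W.ke c (prv d i))) ≠ 0 ∨ K.Y (K.aq (K.X.W.ke c (nxt d i))) ≠ 0) :
    K.U (K.X.W.ke c i) ≠ 0 := by
  unfold Kx.kc at h
  have e1 : Nat.beq (Nat.add (K.Y (K.aq (K.X.W.ke c i)))
      (Nat.add (K.Y (K.aq (K.X.W.ke c (prv d i)))) (K.Y (K.aq (K.X.W.ke c (nxt d i)))))) 0 =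
      false := beq_zero_of (show K.Y (K.aq (K.X.W.ke c i)) +
        (K.Y (K.aq (K.X.W.ke c (prv d i))) + K.Y (K.aq (K.X.W.ke c (nxt d i)))) ≠ 0 by omega)
  rw [e1] at h
  intro h2
  rw [h2] at h
  exact Bool.noConfusion (show false = true from h)

/-- the records of a position -/
theorem Kz.all_ok (hx : Kz K WL) (hv : Hv cmpS cmp cmp' sol sol' S cc f K.X.W.P le)
    (hWL : ∀ e, (S.mp cc).W e ≠ [] →
      K.X.W.P.Q.ky ((S.mp cc).c e) ∈ WL.get (hi (K.X.W.P.Q.ky ((S.mp cc).c e))))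
    (he : S.W e ≠ [])
    (hK : Kk K.X.W ((S.mp cc).c e) (S.W e).length)
    (hkk : ∀ i < (S.W e).length, K.kc ((S.mp cc).c e) (S.W e).length i = true)
    {i : Nat} (hil : i < (S.W e).length)
    {pre : List Nat} (hpre : ∀ j ∈ pre, j < (S.W e).length) {B : Nat → Prop}
    (hB : ∀ t, B t ↔ ∃ j ∈ pre, K.X.W.P.kp (S.mp cc) e j ≠ 0 ∧
      t = K.X.W.P.w * j + K.X.W.P.kp (S.mp cc) e j) (h0 : K.X.W.P.kp (S.mp cc) e i ≠ 0) {Z : Nat}
    (hZ' : ∀ t, Nat.testBit Z t = true ↔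
        (B t ∨ t = K.X.W.P.w * i + K.X.W.P.kp (S.mp cc) e i)) (s : Nat) :
    (s : ℤ) + K.inc (S.mp cc) e (S.W e).length pre i ≤
      (kAll K.X.W.P.w (K.Y (K.aq (K.X.W.ke ((S.mp cc).c e) i)))
        (K.Y (K.aq (K.X.W.ke ((S.mp cc).c e) (prv (S.W e).length i))))
        (K.Y (K.aq (K.X.W.ke ((S.mp cc).c e) (nxt (S.W e).length i))))
        (K.U (K.X.W.ke ((S.mp cc).c e) i))
        (K.U (K.X.W.ke ((S.mp cc).c e) (prv (S.W e).length i)))
        (K.U (K.X.W.ke ((S.mp cc).c e) (prv (S.W e).length (prv (S.W e).length i))))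
        (K.U (K.X.W.ke ((S.mp cc).c e) (nxt (S.W e).length i)))
        (K.U (K.X.W.ke ((S.mp cc).c e) (nxt (S.W e).length (nxt (S.W e).length i))))
        (Nat.mul K.X.W.P.w (prv (S.W e).length i))
        (Nat.mul K.X.W.P.w (prv (S.W e).length (prv (S.W e).length i)))
        (Nat.mul K.X.W.P.w (nxt (S.W e).length i))
        (Nat.mul K.X.W.P.w (nxt (S.W e).length (nxt (S.W e).length i)))
        (K.X.W.P.kp (S.mp cc) e i) Z s : ℤ) := by
  have h4 := (hv.hS.len e he).1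
  have hkp : ∀ j < (S.W e).length, K.X.W.P.kp (S.mp cc) e j < K.X.W.P.w := fun j hj =>
    (kp_lt (kk_ckR' hK 0) (i := j) (by rw [mlen]; exact hj)).2
  have hnl := nxt_lt hil
  have hpl := prv_lt hil
  have zz : ∀ j < (S.W e).length, j ≠ i → (K.chs (S.mp cc) e pre j →
      kap K.X.W.P.w (Nat.mul K.X.W.P.w j) Z = K.X.W.P.kp (S.mp cc) e j) ∧
      (¬ K.chs (S.mp cc) e pre j → kap K.X.W.P.w (Nat.mul K.X.W.P.w j) Z = 0) := by
    intro j hj hji
    have z := zpos (w := K.X.W.P.w) (kp := K.X.W.P.kp (S.mp cc) e) hkp hpre hil hj hji hB hZ'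
    exact ⟨fun h => kap_eq (z.1 h), fun h => kap_zero (z.2 h)⟩
  have hnn : nxt (S.W e).length (nxt (S.W e).length i) ≠ i := by
    unfold nxt
    cases h1 : Nat.beq (Nat.succ i) (S.W e).length with
    | true =>
      have h1' : i + 1 = (S.W e).length := Nat.eq_of_beq_eq_true h1
      dsimp only [cond_true]
      cases h2 : Nat.beq (Nat.succ 0) (S.W e).length with
      | true =>
        have h2' : 0 + 1 = (S.W e).length := Nat.eq_of_beq_eq_true h2
        omega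
      | false =>
        show ¬ 0 + 1 = i
        omega
    | false =>
      dsimp only [cond_false]
      cases h2 : Nat.beq (Nat.succ (Nat.succ i)) (S.W e).length with
      | true =>
        have h2' : i + 1 + 1 = (S.W e).length := Nat.eq_of_beq_eq_true h2
        show ¬ 0 = i
        omega
      | false =>
        show ¬ i + 1 + 1 = i
        omega
  have hpp : prv (S.W e).length (prv (S.W e).length i) ≠ i := by
    intro h
    have h1 := nxt_prv hil
    have h2 := nxt_prv hpl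
    rw [h] at h2
    rw [← h2] at h1
    rw [← h] at hnn
    exact hnn (by rw [h]; exact h1)
  -- the row of a position from the candidate before it
  have row : ∀ j < (S.W e).length, prv (S.W e).length j ≠ i → K.lj (S.mp cc) e j ≠ 0 →
      K.Y (K.aq (K.X.W.ke ((S.mp cc).c e) j)) ≠ 0 →
      rwc (rcd (K.Y (K.aq (K.X.W.ke ((S.mp cc).c e) j))) (K.lj (S.mp cc) e j))
        (K.U (K.X.W.ke ((S.mp cc).c e) (prv (S.W e).length j)))
        (kap K.X.W.P.w (Nat.mul K.X.W.P.w (prv (S.W e).length j)) Z) =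
      (bif decide (K.chs (S.mp cc) e pre (prv (S.W e).length j)) then
        K.rj (S.mp cc) e (S.W e).length j else 0) := by
    intro j hj hji hlj hYj
    have hpj := prv_lt hj
    by_cases hc : K.chs (S.mp cc) e pre (prv (S.W e).length j)
    · rw [(zz _ hpj hji).1 hc, rwc_pos hc.2, decide_eq_true hc]
      have hU : K.U (K.X.W.ke ((S.mp cc).c e) (prv (S.W e).length j)) ≠ 0 :=
        Kx.kc_of (hkk _ hpj) (Or.inr (Or.inr (by rw [nxt_prv hj]; exact hYj)))
      rw [(hx.u_ok hv hWL he hK hpj hc.2 hU).2.1, nxt_prv hj]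
      rfl
    · rw [(zz _ hpj hji).2 hc, decide_eq_false hc]
      rfl
  have col : ∀ j < (S.W e).length, nxt (S.W e).length j ≠ i → K.lj (S.mp cc) e j ≠ 0 →
      K.Y (K.aq (K.X.W.ke ((S.mp cc).c e) j)) ≠ 0 →
      clc (rcd (K.Y (K.aq (K.X.W.ke ((S.mp cc).c e) j))) (K.lj (S.mp cc) e j))
        (K.U (K.X.W.ke ((S.mp cc).c e) (nxt (S.W e).length j)))
        (kap K.X.W.P.w (Nat.mul K.X.W.P.w (nxt (S.W e).length j)) Z) =
      (bif decide (K.chs (S.mp cc) e pre (nxt (S.W e).length j)) then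
        K.cj (S.mp cc) e (S.W e).length j else 0) := by
    intro j hj hji hlj hYj
    have hpj := nxt_lt hj
    by_cases hc : K.chs (S.mp cc) e pre (nxt (S.W e).length j)
    · rw [(zz _ hpj hji).1 hc, clc_pos hc.2, decide_eq_true hc]
      have hU : K.U (K.X.W.ke ((S.mp cc).c e) (nxt (S.W e).length j)) ≠ 0 :=
        Kx.kc_of (hkk _ hpj) (Or.inr (Or.inl (by rw [prv_nxt hj]; exact hYj)))
      rw [(hx.u_ok hv hWL he hK hpj hc.2 hU).2.2, prv_nxt hj]
      rfl
    · rw [(zz _ hpj hji).2 hc, decide_eq_false hc]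
      rfl
  unfold Kx.inc
  rw [if_neg h0]
  rw [kAll_eq]
  rw [frc_eq, frc_eq]
  -- own record
  have hO : (s : ℤ) + K.yb (S.mp cc) e (S.W e).length i
      (decide (K.chs (S.mp cc) e pre (prv (S.W e).length i)))
      (decide (K.chs (S.mp cc) e pre (nxt (S.W e).length i))) ≤
      (ifN (K.Y (K.aq (K.X.W.ke ((S.mp cc).c e) i)))
        (kOwn K.X.W.P.w (K.Y (K.aq (K.X.W.ke ((S.mp cc).c e) i)))
          (K.U (K.X.W.ke ((S.mp cc).c e) i))
          (K.U (K.X.W.ke ((S.mp cc).c e) (prv (S.W e).length i)))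
          (K.U (K.X.W.ke ((S.mp cc).c e) (nxt (S.W e).length i)))
          (Nat.mul K.X.W.P.w (prv (S.W e).length i)) (Nat.mul K.X.W.P.w (nxt (S.W e).length i))
          (K.X.W.P.kp (S.mp cc) e i) Z) s : ℤ) := by
    by_cases hm : K.Y (K.aq (K.X.W.ke ((S.mp cc).c e) i)) = 0
    · rw [ifN_zero hm, Kx.yb_y0 hm, add_zero]
    · rw [ifN_pos hm]
      have hU : K.U (K.X.W.ke ((S.mp cc).c e) i) ≠ 0 := Kx.kc_of (hkk _ hil) (Or.inl hm)
      have hu := hx.u_ok hv hWL he hK hil h0 hU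
      exact kOwn_le hu.1
        (fun hl => row i hil (prv_ne (by omega) hil) hl hm)
        (fun hl => col i hil (nxt_ne (by omega)) hl hm)
  -- the next position
  have hR : ∀ s : Nat, (s : ℤ) + (if K.chs (S.mp cc) e pre (nxt (S.W e).length i) then
      K.yb (S.mp cc) e (S.W e).length (nxt (S.W e).length i) true (decide (K.chs (S.mp cc) e pre
          (nxt (S.W e).length (nxt (S.W e).length i)))) -
        K.yb (S.mp cc) e (S.W e).length (nxt (S.W e).length i) false (decide (K.chs (S.mp cc) e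
          pre (nxt (S.W e).length (nxt (S.W e).length i)))) else 0) ≤
      (ifN (K.Y (K.aq (K.X.W.ke ((S.mp cc).c e) (nxt (S.W e).length i))))
        (kRgt K.X.W.P.w (K.Y (K.aq (K.X.W.ke ((S.mp cc).c e) (nxt (S.W e).length i))))
          (K.U (K.X.W.ke ((S.mp cc).c e) (nxt (S.W e).length i)))
          (K.U (K.X.W.ke ((S.mp cc).c e) (nxt (S.W e).length (nxt (S.W e).length i))))
          (Nat.mul K.X.W.P.w (nxt (S.W e).length i))
          (Nat.mul K.X.W.P.w (nxt (S.W e).length (nxt (S.W e).length i)))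
          (uB (K.U (K.X.W.ke ((S.mp cc).c e) i)) (K.X.W.P.kp (S.mp cc) e i)) Z) s : ℤ) := by
    intro s
    by_cases hm : K.Y (K.aq (K.X.W.ke ((S.mp cc).c e) (nxt (S.W e).length i))) = 0
    · rw [ifN_zero hm, Kx.yb_y0 hm, Kx.yb_y0 hm, sub_zero, ite_self, add_zero]
    · rw [ifN_pos hm]
      by_cases hc : K.chs (S.mp cc) e pre (nxt (S.W e).length i)
      · rw [if_pos hc]
        have hU : K.U (K.X.W.ke ((S.mp cc).c e) i) ≠ 0 :=
          Kx.kc_of (hkk _ hil) (Or.inr (Or.inr hm))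
        have hUn : K.U (K.X.W.ke ((S.mp cc).c e) (nxt (S.W e).length i)) ≠ 0 :=
          Kx.kc_of (hkk _ hnl) (Or.inl hm)
        have hu := hx.u_ok hv hWL he hK hil h0 hU
        have hun := hx.u_ok hv hWL he hK hnl hc.2 hUn
        have hk := (zz _ hnl (nxt_ne (by omega))).1 hc
        refine kRgt_le (ρ := K.rj (S.mp cc) e (S.W e).length (nxt (S.W e).length i)) hk hc.2
          hun.1 (fun hl => ?_) (fun hl => col _ hnl hnn hl hm)
        rw [hu.2.1]
        unfold Kx.rj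
        rw [prv_nxt hil]
      · rw [if_neg hc, add_zero, kRgt_zero ((zz _ hnl (nxt_ne (by omega))).2 hc)]
  -- the previous position
  have hL : ∀ s : Nat, (s : ℤ) + (if K.chs (S.mp cc) e pre (prv (S.W e).length i) then
      K.yb (S.mp cc) e (S.W e).length (prv (S.W e).length i) (decide (K.chs (S.mp cc) e pre
          (prv (S.W e).length (prv (S.W e).length i)))) true -
        K.yb (S.mp cc) e (S.W e).length (prv (S.W e).length i) (decide (K.chs (S.mp cc) e
          pre (prv (S.W e).length (prv (S.W e).length i)))) false else 0) ≤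
      (ifN (K.Y (K.aq (K.X.W.ke ((S.mp cc).c e) (prv (S.W e).length i))))
        (kLft K.X.W.P.w (K.Y (K.aq (K.X.W.ke ((S.mp cc).c e) (prv (S.W e).length i))))
          (K.U (K.X.W.ke ((S.mp cc).c e) (prv (S.W e).length i)))
          (K.U (K.X.W.ke ((S.mp cc).c e) (prv (S.W e).length (prv (S.W e).length i))))
          (Nat.mul K.X.W.P.w (prv (S.W e).length i))
          (Nat.mul K.X.W.P.w (prv (S.W e).length (prv (S.W e).length i)))
          (uC (K.U (K.X.W.ke ((S.mp cc).c e) i)) (K.X.W.P.kp (S.mp cc) e i)) Z) s : ℤ) := by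
    intro s
    by_cases hm : K.Y (K.aq (K.X.W.ke ((S.mp cc).c e) (prv (S.W e).length i))) = 0
    · rw [ifN_zero hm, Kx.yb_y0 hm, Kx.yb_y0 hm, sub_zero, ite_self, add_zero]
    · rw [ifN_pos hm]
      by_cases hc : K.chs (S.mp cc) e pre (prv (S.W e).length i)
      · rw [if_pos hc]
        have hU : K.U (K.X.W.ke ((S.mp cc).c e) i) ≠ 0 :=
          Kx.kc_of (hkk _ hil) (Or.inr (Or.inl hm))
        have hUn : K.U (K.X.W.ke ((S.mp cc).c e) (prv (S.W e).length i)) ≠ 0 :=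
          Kx.kc_of (hkk _ hpl) (Or.inl hm)
        have hu := hx.u_ok hv hWL he hK hil h0 hU
        have hun := hx.u_ok hv hWL he hK hpl hc.2 hUn
        have hk := (zz _ hpl (prv_ne (by omega) hil)).1 hc
        refine kLft_le (γ := K.cj (S.mp cc) e (S.W e).length (prv (S.W e).length i)) hk hc.2
          hun.1 (fun hl => row _ hpl hpp hl hm) (fun hl => ?_)
        rw [hu.2.2]
        unfold Kx.cj
        rw [nxt_prv hil]
      · rw [if_neg hc, add_zero, kLft_zero ((zz _ hpl (prv_ne (by omega) hil)).2 hc)]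
  refine le_trans ?_ (hL _)
  have h5 := hR (ifN (K.Y (K.aq (K.X.W.ke ((S.mp cc).c e) i)))
        (kOwn K.X.W.P.w (K.Y (K.aq (K.X.W.ke ((S.mp cc).c e) i)))
          (K.U (K.X.W.ke ((S.mp cc).c e) i))
          (K.U (K.X.W.ke ((S.mp cc).c e) (prv (S.W e).length i)))
          (K.U (K.X.W.ke ((S.mp cc).c e) (nxt (S.W e).length i)))
          (Nat.mul K.X.W.P.w (prv (S.W e).length i)) (Nat.mul K.X.W.P.w (nxt (S.W e).length i))
          (K.X.W.P.kp (S.mp cc) e i) Z) s)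
  omega

end sound

end

end Pool.FCP
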