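import Pool.Agent.FCP.Ye

/-!
# Star check with flows on kites: leaves, trees
-/

namespace Pool.FCP

open Pool.FCS

open Finset

noncomputable section

section sound

variable {D : Type*} {cmp cmp' cmpS : Nat → Nat → Bool} {sol sol' lng : Nat → Bool}
  {S : Sys D} {cc f : Nat → Nat} {K : Kx} {WL : BT (List Nat)} {le : Nat → Nat → Bool}
  {ml : Nat → Nat} {e : D}

/-- The check of a leaf. -/
theorem Kz.lfc_sound (hx : Kz K WL) (hv : Hv cmpS cmp cmp' sol sol' S cc f K.X.W.P le)
    (hk : Hk le ml sol S cc f K.X.W) (he : S.W e ≠ []) (hN : Nr sol (S.mp cc) e)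
    (hpr : Hpr sol lng (S.mp cc) K.X.W.P.Q)
    (hWL : ∀ e, (S.mp cc).W e ≠ [] →
      K.X.W.P.Q.ky ((S.mp cc).c e) ∈ WL.get (hi (K.X.W.P.Q.ky ((S.mp cc).c e))))
    (hpos : ∀ e, (S.mp cc).W e ≠ [] → K.PosOk4 ((S.mp cc).c e) ((S.mp cc).c ((S.mp cc).al e)))
    (hK : Kk K.X.W ((S.mp cc).c e) (S.W e).length)
    (hkc : ∀ i < (S.W e).length, K.X.kc ((S.mp cc).c e) (S.W e).length i = true)
    (hkk : ∀ i < (S.W e).length, K.kc ((S.mp cc).c e) (S.W e).length i = true) {V : List Nat}
    (hV : Cov K.X.W.P V (S.W e)) {o x s u : Nat} {NL : List Nat}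
    (h : K.lfc ((S.mp cc).c e) (S.W e).length (wsl K.X.W.P.Q.wm ((S.mp cc).c e)) o x s u NL V =
      true) :
    chv2 sol lng K.X.W.P.Q.den K.X.W.P.Q.nl K.X.W.P.Q.nu K.X.W.P.dl K.X.W.P.hl K.X.W.P.Q.fw (S.mp cc) e +
      (∑ i ∈ range (S.W e).length, K.X.xi (S.mp cc) e (S.W e).length i +
        ∑ i ∈ range (S.W e).length, K.yi (S.mp cc) e (S.W e).length i) ≤ 0 := by
  have he' : (S.mp cc).W e ≠ [] := mp_ne.2 he
  have hY := hv.h2.ok
  unfold Kx.lfc at h
  rw [brec_and] at h
  obtain ⟨h1, h⟩ := h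
  rw [brec_and] at h
  obtain ⟨h2, h⟩ := h
  rw [brec_and] at h
  obtain ⟨h3, h4⟩ := h
  rw [frc_eq, frc_eq, brec_and] at h3
  obtain ⟨h5, h6⟩ := h3
  rw [ala_iff] at h2
  have hm0 : ∀ i < (S.W e).length,
      Nat.testBit (K.X.W.m0 ((S.mp cc).c e) (S.W e).length (dN 11 x) (dN 36 u))
        (K.X.W.P.w * i + K.X.W.P.kp (S.mp cc) e i) = true := by
    intro i hi
    unfold Pw.m0
    apply clear_ok (τ := K.X.W.P.tau (S.mp cc) e) ⟨i, by rw [mlen]; exact hi, rfl⟩
    · have e1 : Nat.sub (Nat.pow 2 (Nat.mul K.X.W.P.w (S.W e).length)) 1 =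
        2 ^ (K.X.W.P.w * (S.W e).length) - 1 := rfl
      rw [e1, Nat.testBit_two_pow_sub_one, decide_eq_true_eq]
      have h7 := (kp_lt (kk_ckR' hK 0) (i := i) (by rw [mlen]; exact hi)).2
      calc K.X.W.P.w * i + K.X.W.P.kp (S.mp cc) e i < K.X.W.P.w * i + K.X.W.P.w := by omega
        _ = K.X.W.P.w * (i + 1) := by ring
        _ ≤ K.X.W.P.w * (S.W e).length := Nat.mul_le_mul_left _ hi
    · intro hs
      rcases sat_lor hs with ⟨t, t1, t2⟩ | hs
      · rw [msk_bit] at t2
        have h7 := h2 t t2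
        rw [frc_eq] at h7
        exact ux_tau hv he hV (kk_ckR' hK 0) h7 t1
      · exact mkz_ok hv hk he hK hV (Vo.zero he) (Wo.zero he) h5 hs
  have hgs : ∀ th M, (∀ i < (S.W e).length,
      Nat.testBit M (K.X.W.P.w * i + K.X.W.P.kp (S.mp cc) e i) = true) →
      gon3 th (K.pqs ((S.mp cc).c e) (S.W e).length (wsl K.X.W.P.Q.wm ((S.mp cc).c e)) NL (dN 3 o))
        M 0 0 = true →
      ((∑ i ∈ range ((S.mp cc).W e).length, K.X.W.P.G2 ((S.mp cc).c ((S.mp cc).nx^[i] e))
        ((S.mp cc).nb e i) : Nat) : ℤ) +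
        (∑ i ∈ range (S.W e).length, K.X.xi (S.mp cc) e (S.W e).length i +
        ∑ i ∈ range (S.W e).length, K.yi (S.mp cc) e (S.W e).length i) ≤ (th : ℤ) := by
    intro th M h7 h8
    rw [mlen]
    exact hx.gsum hv hk he hN hWL hpos hK hkc hkk hV h6 h1 h7 h8
  apply chc_le3 hY hv.h2.hb hpr he'
  generalize dN 3 s = ns at h4
  cases ns with
  | nil => exact Or.inl (hgs _ _ hm0 h4)
  | cons a ns =>
    have h4' : K.X.lfn ((S.mp cc).c e) (S.W e).length (a :: ns) (K.pqs ((S.mp cc).c e)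
      (S.W e).length (wsl K.X.W.P.Q.wm ((S.mp cc).c e)) NL (dN 3 o))
      (K.X.W.m0 ((S.mp cc).c e) (S.W e).length (dN 11 x) (dN 36 u)) = true := h4
    unfold Px.lfn at h4'
    rw [cond_true_iff, cond_true_iff] at h4'
    obtain ⟨g1, g2, g3⟩ := h4'
    refine lfn3_sound (g := fun th M => gon3 th (K.pqs ((S.mp cc).c e) (S.W e).length
      (wsl K.X.W.P.Q.wm ((S.mp cc).c e)) NL (dN 3 o)) M 0 0) (ns := a :: ns)
      (A := fun th => ((∑ i ∈ range ((S.mp cc).W e).length,
        K.X.W.P.G2 ((S.mp cc).c ((S.mp cc).nx^[i] e)) ((S.mp cc).nb e i) : Nat) : ℤ) +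
        (∑ i ∈ range (S.W e).length, K.X.xi (S.mp cc) e (S.W e).length i +
        ∑ i ∈ range (S.W e).length, K.yi (S.mp cc) e (S.W e).length i) ≤ (th : ℤ)) hv.h2 hN mlen
      (kk_ckR' hK 0) hgs hm0 g1 (fun i hi => ?_) g3
    have g4 := allb_sound g2 i hi
    rw [cond_true_iff] at g4
    exact ⟨Nat.le_of_ble_eq_true g4.1, g4.2⟩

/-- The check of a tree. -/
theorem Kz.ckt_sound (hx : Kz K WL) (hv : Hv cmpS cmp cmp' sol sol' S cc f K.X.W.P le)
    (hk : Hk le ml sol S cc f K.X.W) (he : S.W e ≠ []) (hN : Nr sol (S.mp cc) e)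
    (hpr : Hpr sol lng (S.mp cc) K.X.W.P.Q)
    (hWL : ∀ e, (S.mp cc).W e ≠ [] →
      K.X.W.P.Q.ky ((S.mp cc).c e) ∈ WL.get (hi (K.X.W.P.Q.ky ((S.mp cc).c e))))
    (hpos : ∀ e, (S.mp cc).W e ≠ [] → K.PosOk4 ((S.mp cc).c e) ((S.mp cc).c ((S.mp cc).al e)))
    (hK : Kk K.X.W ((S.mp cc).c e) (S.W e).length)
    (hkc : ∀ i < (S.W e).length, K.X.kc ((S.mp cc).c e) (S.W e).length i = true)
    (hkk : ∀ i < (S.W e).length, K.kc ((S.mp cc).c e) (S.W e).length i = true) :
    ∀ (t : Tr2) (V : List Nat) (i : Nat) (L : List Nat),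
      Cov K.X.W.P V (S.W e) → i < (S.W e).length → (S.W e).getD i 0 ∈ L →
      K.ckt ((S.mp cc).c e) (S.W e).length (wsl K.X.W.P.Q.wm ((S.mp cc).c e)) t V i L = true →
      chv2 sol lng K.X.W.P.Q.den K.X.W.P.Q.nl K.X.W.P.Q.nu K.X.W.P.dl K.X.W.P.hl K.X.W.P.Q.fw (S.mp cc) e +
        (∑ i ∈ range (S.W e).length, K.X.xi (S.mp cc) e (S.W e).length i +
        ∑ i ∈ range (S.W e).length, K.yi (S.mp cc) e (S.W e).length i) ≤ 0 := by
  intro t
  induction t with
  | lf o x s u NL =>
    intro V i L hV _ _ h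
    exact Kz.lfc_sound hx hv hk he hN hpr hWL hpos hK hkc hkk hV h
  | dd n =>
    intro V i L hV _ _ h
    exfalso
    exact fq_sound hk.hw hv he hk.fn hV (Vo.zero he) (Wo.zero he) h
  | sp j t ih =>
    intro V i L hV hi hL h
    have h' : (bif Nat.ble (Nat.succ j) (S.W e).length then
      K.ckt ((S.mp cc).c e) (S.W e).length (wsl K.X.W.P.Q.wm ((S.mp cc).c e)) t V
        j (K.X.W.P.lg (gtk V j)) else false) = true := h
    rw [cond_true_iff] at h'
    have hj : j < (S.W e).length := Nat.le_of_ble_eq_true h'.1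
    refine ih V j _ hV hj ?_ h'.2
    rw [gtk_eq]
    exact hV.2 j hj
  | ch a t iha iht =>
    intro V i L hV hi hL h
    cases L with
    | nil => simp at hL
    | cons x L =>
      have h' : (bif (bif K.X.W.P.imp (wsl K.X.W.P.Q.wm ((S.mp cc).c e)) x
          (gtk V (prv (S.W e).length i)) (gtk V (nxt (S.W e).length i)) then true else
          K.ckt ((S.mp cc).c e) (S.W e).length (wsl K.X.W.P.Q.wm ((S.mp cc).c e)) a
            (stk x V i) i [x]) then
          K.ckt ((S.mp cc).c e) (S.W e).length (wsl K.X.W.P.Q.wm ((S.mp cc).c e)) t V i L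
        else false) = true := h
      rw [cond_true_iff] at h'
      obtain ⟨h1, h2⟩ := h'
      rcases List.mem_cons.1 hL with hx' | hx'
      · have himp : K.X.W.P.imp (wsl K.X.W.P.Q.wm ((S.mp cc).c e)) x
            (gtk V (prv (S.W e).length i)) (gtk V (nxt (S.W e).length i)) = false := by
          rw [← hx', gtk_eq, gtk_eq]
          exact hv.imp e i hi _ _ (hV.2 _ (prv_lt hi)) (hV.2 _ (nxt_lt hi))
        rw [himp] at h1
        exact iha (stk x V i) i [x] (cov_set hv hV hi hx') hi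
          (by rw [hx']; exact List.mem_singleton.2 rfl) h1
      · exact iht V i L hV hi hx' h2
  | en =>
    intro V i L _ _ hL h
    cases L with
    | nil => simp at hL
    | cons x L => exact Bool.noConfusion h

/-- A tree with dead leaves only. -/
theorem Kx.ckt_dead (hv : Hv cmpS cmp cmp' sol sol' S cc f K.X.W.P le) (hk : Hk le ml sol S cc f K.X.W)
    (he : S.W e ≠ []) :
    ∀ (t : Tr2) (V : List Nat) (i : Nat) (L : List Nat),
      Cov K.X.W.P V (S.W e) → i < (S.W e).length → (S.W e).getD i 0 ∈ L →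
      K.ckt ((S.mp cc).c e) (S.W e).length (wsl K.X.W.P.Q.wm ((S.mp cc).c e)) t V i L = true →
      ded2 t = false := by
  intro t
  induction t with
  | lf o x s u NL => intros; rfl
  | dd n =>
    intro V i L hV _ _ h
    exfalso
    exact fq_sound hk.hw hv he hk.fn hV (Vo.zero he) (Wo.zero he) h
  | sp j t ih =>
    intro V i L hV hi hL h
    have h' : (bif Nat.ble (Nat.succ j) (S.W e).length then
      K.ckt ((S.mp cc).c e) (S.W e).length (wsl K.X.W.P.Q.wm ((S.mp cc).c e)) t V
        j (K.X.W.P.lg (gtk V j)) else false) = true := h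
    rw [cond_true_iff] at h'
    have hj : j < (S.W e).length := Nat.le_of_ble_eq_true h'.1
    refine ih V j _ hV hj ?_ h'.2
    rw [gtk_eq]
    exact hV.2 j hj
  | ch a t iha iht =>
    intro V i L hV hi hL h
    cases L with
    | nil => simp at hL
    | cons x L =>
      have h' : (bif (bif K.X.W.P.imp (wsl K.X.W.P.Q.wm ((S.mp cc).c e)) x
          (gtk V (prv (S.W e).length i)) (gtk V (nxt (S.W e).length i)) then true else
          K.ckt ((S.mp cc).c e) (S.W e).length (wsl K.X.W.P.Q.wm ((S.mp cc).c e)) a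
            (stk x V i) i [x]) then
          K.ckt ((S.mp cc).c e) (S.W e).length (wsl K.X.W.P.Q.wm ((S.mp cc).c e)) t V i L
        else false) = true := h
      rw [cond_true_iff] at h'
      obtain ⟨h1, h2⟩ := h'
      have e1 : ded2 (.ch a t) = (bif ded2 a then ded2 t else false) := rfl
      rw [e1]
      rcases List.mem_cons.1 hL with hx | hx
      · have himp : K.X.W.P.imp (wsl K.X.W.P.Q.wm ((S.mp cc).c e)) x
            (gtk V (prv (S.W e).length i)) (gtk V (nxt (S.W e).length i)) = false := by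
          rw [← hx, gtk_eq, gtk_eq]
          exact hv.imp e i hi _ _ (hV.2 _ (prv_lt hi)) (hV.2 _ (nxt_lt hi))
        rw [himp] at h1
        rw [iha (stk x V i) i [x] (cov_set hv hV hi hx) hi
          (by rw [hx]; exact List.mem_singleton.2 rfl) h1]
        rfl
      · rw [iht V i L hV hi hx h2]
        cases ded2 a <;> rfl
  | en =>
    intro V i L _ _ hL h
    cases L with
    | nil => simp at hL
    | cons x L => exact Bool.noConfusion h

/-- the check of an entry of the table of the centres -/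
theorem Kx.ckc_sound {k : Nat} : ∀ {l : List CE2}, K.ckc k l = true → ∀ E ∈ l,
    ((ded2 E.t = false → ∀ i < dgn k, K.Y (K.aq (K.X.W.ke k i)) = 0) ∧
      K.X.ckc k [E] = true) ∨
    ((∀ i < dgn k, K.X.W.kr k i ≠ 0) ∧ (∀ i < dgn k, K.X.kc k (dgn k) i = true) ∧
      (∀ i < dgn k, K.kc k (dgn k) i = true) ∧
        K.ckt k (dgn k) (wsl K.X.W.P.Q.wm k) E.t (K.X.W.P.v0 k) 0
          (K.X.W.P.lg (gtk (K.X.W.P.v0 k) 0)) = true)
  | [], _, E, hE => by simp at hE
  | F :: l, h, E, hE => by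
    have h' : (bif (bif (bif ded2 F.t then true else K.non k) then K.X.ckc k [F] else
      bif Nat.beq F.c k then
        bif alln (dgn k) (fun i => Nat.ble 1 (K.X.W.kr k i)) then
          bif alln (dgn k) (fun i => bif K.X.kc k (dgn k) i then K.kc k (dgn k) i else false) then
            K.ckt k (dgn k) (wsl K.X.W.P.Q.wm k) F.t (K.X.W.P.v0 k) 0
              (K.X.W.P.lg (gtk (K.X.W.P.v0 k) 0))
          else false
        else false
      else false) then K.ckc k l else false) = true := h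
    rw [cond_true_iff] at h'
    obtain ⟨h1, h2⟩ := h'
    rcases List.mem_cons.1 hE with rfl | hE
    · cases h3 : (bif ded2 E.t then true else K.non k) with
      | true =>
        rw [h3] at h1
        left
        refine ⟨fun hd i hi => ?_, h1⟩
        rw [hd] at h3
        exact Nat.eq_of_beq_eq_true (alln_iff.1 (show K.non k = true from h3) i hi)
      | false =>
        rw [h3] at h1
        dsimp only [cond_false] at h1
        rw [cond_true_iff, cond_true_iff, cond_true_iff] at h1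
        obtain ⟨-, g1, g2, g3⟩ := h1
        right
        rw [alln_iff] at g1 g2
        refine ⟨fun i hi h0 => ?_, fun i hi => ?_, fun i hi => ?_, g3⟩
        · have := g1 i hi
          rw [h0] at this
          exact Bool.noConfusion (show false = true from this)
        · have := g2 i hi
          rw [cond_true_iff] at this
          exact this.1
        · have := g2 i hi
          rw [cond_true_iff] at this
          exact this.2
    · exact Kx.ckc_sound h2 E hE

end sound

end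

end Pool.FCP
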