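import Pool.Agent.FCP.Yb

/-!
# Star check: the checks of the tables and the projection of the codes
-/

namespace Pool.FCP

open Pool.FCS

noncomputable section

variable {X : Px} {K : Kx} {WL : BT (List Nat)}

theorem mcB_lt (m b : Nat) : mcB m b < 1073741824 := Nat.mod_lt _ (by norm_num)

theorem mcC_lt (m c : Nat) : mcC m c < 1073741824 := Nat.mod_lt _ (by norm_num)

theorem uY_lt (m j : Nat) : uY m j < 8589934592 := by
  have : uY m j ≤ 8589934591 := Nat.and_le_right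
  omega

/-- the solid first letters -/
def Jsm (X : Px) : Prop := ∀ A, tb X.W.P.Q.sm (Nat.mod (X.J A) 32) = tb X.W.P.Q.sm (Nat.mod A 32)

/-- the solid last letters -/
def Jsr (X : Px) : Prop := ∀ A, A < 1073741824 →
  tb X.W.P.Q.sm (Nat.mod (rrc (X.J A)) 32) = tb X.W.P.Q.sm (Nat.mod (rrc A) 32)

theorem J_lt (hj : Jx X) {A : Nat} (hA : A < 1073741824) : X.J A < 1073741824 := by
  have h := hj.d A
  omega

theorem kM_J (hj : Jx X) (hs : Jsm X) (A m : Nat) : X.kM (X.J A) m = X.kM A m := by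
  have h1 : ∀ m b m' c, X.x (mcB m b) (mcC m' c) (X.J A) = X.x (mcB m b) (mcC m' c) A :=
    fun m b m' c => hj.x3 (mcB_lt m b)
  have h2 : ∀ m c m' b, X.x (mcC m c) (X.J A) (mcB m' b) = X.x (mcC m c) A (mcB m' b) :=
    fun m c m' b => hj.x2 (mcC_lt m c)
  unfold Px.kM
  rw [hs A]
  simp only [frc_eq, h1, h2]

theorem kB_J (hj : Jx X) (p b : Nat) :
    X.kB (pr2 (X.J (Nat.mod p 1073741824)) (X.J (Nat.div p 1073741824))) b = X.kB p b := by
  have h0 : p % 1073741824 < 1073741824 := Nat.mod_lt _ (by norm_num)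
  have h1 : X.J (Nat.mod p 1073741824) < 1073741824 := J_lt hj h0
  unfold Px.kB
  rw [pr2_mod h1, pr2_div h1]
  have h2 : X.M (X.J (Nat.mod p 1073741824)) = X.M (Nat.mod p 1073741824) := hj.M _
  rw [h2, hj.i]

theorem kC_J (hj : Jx X) (p b : Nat) :
    X.kC (pr2 (X.J (Nat.mod p 1073741824)) (X.J (Nat.div p 1073741824))) b = X.kC p b := by
  have h0 : p % 1073741824 < 1073741824 := Nat.mod_lt _ (by norm_num)
  have h1 : X.J (Nat.mod p 1073741824) < 1073741824 := J_lt hj h0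
  unfold Px.kC
  rw [pr2_mod h1, pr2_div h1]
  have h2 : X.M (X.J (Nat.mod p 1073741824)) = X.M (Nat.mod p 1073741824) := hj.M _
  rw [h2, hj.i]

theorem kB'_J (hj : Jx K.X) (hk : Jk K) (p b : Nat) :
    K.kB (pr2 (K.X.J (Nat.mod p 1073741824)) (K.X.J (Nat.div p 1073741824))) b = K.kB p b := by
  have h0 : p % 1073741824 < 1073741824 := Nat.mod_lt _ (by norm_num)
  have h1 : K.X.J (Nat.mod p 1073741824) < 1073741824 := J_lt hj h0
  unfold Kx.kB
  rw [pr2_mod h1, pr2_div h1]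
  have h2 : K.N (K.X.J (Nat.mod p 1073741824)) = K.N (Nat.mod p 1073741824) := hk.N _
  rw [h2, hj.i]

theorem kC'_J (hj : Jx K.X) (hk : Jk K) (p b : Nat) :
    K.kC (pr2 (K.X.J (Nat.mod p 1073741824)) (K.X.J (Nat.div p 1073741824))) b = K.kC p b := by
  have h0 : p % 1073741824 < 1073741824 := Nat.mod_lt _ (by norm_num)
  have h1 : K.X.J (Nat.mod p 1073741824) < 1073741824 := J_lt hj h0
  unfold Kx.kC
  rw [pr2_mod h1, pr2_div h1]
  have h2 : K.N (K.X.J (Nat.mod p 1073741824)) = K.N (Nat.mod p 1073741824) := hk.N _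
  rw [h2, hj.i]

theorem J_lt37 (hj : Jx X) {p : Nat} (hp : p < 137438953472) : X.J p < 137438953472 := by
  have h := hj.d p
  omega

theorem kE_J (hj : Jx K.X) (hk : Jk K) (q j : Nat) :
    K.kE (pr3 (K.X.J (Nat.mod q 137438953472)) (K.X.J (Nat.div q 137438953472))) j =
      K.kE q j := by
  have h0 : q % 137438953472 < 137438953472 := Nat.mod_lt _ (by norm_num)
  have h1 : K.X.J (Nat.mod q 137438953472) < 137438953472 := J_lt37 hj h0
  unfold Kx.kE
  rw [pr3_mod h1, pr3_div h1]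
  have h2 : K.Y (K.X.J (Nat.mod q 137438953472)) = K.Y (Nat.mod q 137438953472) := hk.Y _
  rw [h2, hj.i]

theorem loc_J2 (hk : Jk K) {p u : Nat} (hp : p < 137438953472) :
    K.loc p (K.X.J u) = K.loc p u := by
  rw [K.loc_eq, K.loc_eq, hk.E2 _ _ hp]

theorem mi_J (hj : Jx X) (p : Nat) : mi (X.J p) = X.J (mi p) := by
  have a1 : X.J p / 1073741824 = p / 1073741824 := hj.d p
  have a2 : X.J p % 1073741824 = X.J (p % 1073741824) := hj.m p
  have b1 : X.J (mi p) / 1073741824 = mi p / 1073741824 := hj.d _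
  have b2 : X.J (mi p) % 1073741824 = X.J (mi p % 1073741824) := hj.m _
  have c : mi p % 1073741824 = p % 1073741824 := by
    show p % 8589934592 % 1073741824 = _
    omega
  rw [c] at b2
  have c2 : mi p / 1073741824 = p % 8589934592 / 1073741824 := rfl
  rw [c2] at b1
  show X.J p % 8589934592 = X.J (mi p)
  omega

theorem swk_J1 (hj : Jx X) (p u : Nat) : swk (X.J p) u = swk p u := by
  have h := hj.d p
  rw [swk_eq, swk_eq]
  omega

theorem kR_J (hj : Jx K.X) (hk : Jk K) (hs : Jsm K.X) (hr : Jsr K.X) {p : Nat}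
    (hp : p < 137438953472) (m j R : Nat) : K.kR (K.X.J p) (uY m j) R = K.kR p (uY m j) R := by
  have hq := swk_lt hp (uY_lt m j)
  have l1 : lo (K.X.J p) = K.X.J (lo p) := hj.m p
  have e0 : K.N (lo (K.X.J p)) = K.N (lo p) := by rw [l1]; exact hk.N _
  have e1 : swk (K.X.J p) (uY m j) = swk p (uY m j) := swk_J1 hj _ _
  have e2 : mi (K.X.J p) = K.X.J (mi p) := mi_J hj p
  have e3 : K.rc (swk p (uY m j)) (K.X.J (mi p)) = K.rc (swk p (uY m j)) (mi p) := by
    rw [K.rc_eq, K.rc_eq, loc_J2 hk hq]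
  have e4 : ∀ c d, K.y (swk p (uY m j)) (K.X.J (mi p)) c d = K.y (swk p (uY m j)) (mi p) c d := by
    intro c d
    rw [K.y_eq, K.y_eq, loc_J2 hk hq]
  have e5 : tb K.X.W.P.Q.sm (Nat.mod (rrc (lo (K.X.J p))) 32) =
      tb K.X.W.P.Q.sm (Nat.mod (rrc (lo p)) 32) := by
    rw [l1]; exact hr _ (lo_lt p)
  have e6 : tb K.X.W.P.Q.sm (Nat.mod (lo (K.X.J p)) 32) =
      tb K.X.W.P.Q.sm (Nat.mod (lo p) 32) := by
    rw [l1]; exact hs _
  unfold Kx.kR
  simp only [frc_eq, e0, e1, e2, e3, e4, e5, e6]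

theorem kY_J (hj : Jx K.X) (hk : Jk K) (hs : Jsm K.X) (hr : Jsr K.X) {p : Nat}
    (hp : p < 137438953472) (m : Nat) : K.kY (K.X.J p) m = K.kY p m := by
  unfold Kx.kY
  refine congrArg (alln (nY m)) (funext fun j => ?_)
  rw [frc_eq, frc_eq, frc_eq, frc_eq, frc_eq, frc_eq]
  exact kR_J hj hk hs hr hp m _ _

end

end Pool.FCP
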